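import Pool.Agent.P.MP_d8da86_an.Basic

open scoped InnerProductSpace ComplexConjugate
open MeasureTheory Filter Topology

set_option linter.unusedSectionVars false
set_option linter.unusedVariables false

noncomputable section

namespace Pool.Agent.P.MP_d8da86_an

variable {H : Type*} [NormedAddCommGroup H] [InnerProductSpace ℂ H] [CompleteSpace H]
variable {X : Type} [MeasurableSpace X]

/-- functions bounded on `S` whose cut-off to `S` leaves `L` invariant -/
def AlgS (E : SpecCalc X H) (L : Submodule ℂ H) (S : Set X) (f : X → ℂ) : Prop :=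
  Measurable f ∧ (∃ K : ℝ, ∀ x ∈ S, ‖f x‖ ≤ K) ∧ ∀ v ∈ L, E.Φ (S.indicator f) v ∈ L

/-- standing assumptions -/
structure Ctx (E : SpecCalc X H) (L : Submodule ℂ H) (S : Set X) : Prop where
  meas : MeasurableSet S
  closed : IsClosed (L : Set H)
  supp : ∀ v ∈ L, E.μ v Sᶜ = 0

variable {E : SpecCalc X H} {L : Submodule ℂ H} {S : Set X}

theorem AlgS.bm (c : Ctx E L S) {f : X → ℂ} (hf : AlgS E L S f) : BM (S.indicator f) := by
  obtain ⟨K, hK⟩ := hf.2.1
  exact BM.indicator_of_bdd hf.1 c.meas K hK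

theorem Ctx.ind (c : Ctx E L S) {f : X → ℂ} (hf : BM f) {v : H} (hv : v ∈ L) :
    E.Φ (S.indicator f) v = E.Φ f v := by
  refine E.congr_ae (hf.indicator c.meas) hf ?_
  have : ∀ᵐ x ∂(E.μ v), x ∈ S := c.supp v hv
  filter_upwards [this] with x hx
  exact Set.indicator_of_mem hx _

theorem Ctx.of_bm (c : Ctx E L S) {f : X → ℂ} (hf : BM f) (h : ∀ v ∈ L, E.Φ f v ∈ L) :
    AlgS E L S f := by
  obtain ⟨K, hK⟩ := hf.2
  exact ⟨hf.1, ⟨K, fun x _ => hK x⟩, fun v hv => by rw [c.ind hf hv]; exact h v hv⟩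

theorem Ctx.const (c : Ctx E L S) (a : ℂ) : AlgS E L S fun _ => a :=
  c.of_bm (BM.const a) fun v hv => by
    rw [E.map_const]
    exact L.smul_mem a hv

theorem Ctx.congr (c : Ctx E L S) {f g : X → ℂ} (hf : AlgS E L S f) (hg : Measurable g)
    (h : ∀ x ∈ S, g x = f x) : AlgS E L S g := by
  obtain ⟨K, hK⟩ := hf.2.1
  refine ⟨hg, ⟨K, fun x hx => h x hx ▸ hK x hx⟩, ?_⟩
  rw [Set.indicator_congr (g := f) h]
  exact hf.2.2

theorem Ctx.add (c : Ctx E L S) {f g : X → ℂ} (hf : AlgS E L S f) (hg : AlgS E L S g) :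
    AlgS E L S fun x => f x + g x := by
  obtain ⟨K, hK⟩ := hf.2.1
  obtain ⟨K', hK'⟩ := hg.2.1
  refine ⟨hf.1.add hg.1, ⟨K + K', fun x hx =>
    (norm_add_le _ _).trans (add_le_add (hK x hx) (hK' x hx))⟩, fun v hv => ?_⟩
  have e : (S.indicator fun x => f x + g x) = fun x => S.indicator f x + S.indicator g x := by
    funext x
    by_cases hx : x ∈ S <;> simp [hx]
  rw [e, E.map_add (hf.bm c) (hg.bm c)]
  exact L.add_mem (hf.2.2 v hv) (hg.2.2 v hv)

theorem Ctx.mul (c : Ctx E L S) {f g : X → ℂ} (hf : AlgS E L S f) (hg : AlgS E L S g) :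
    AlgS E L S fun x => f x * g x := by
  obtain ⟨K, hK⟩ := hf.2.1
  obtain ⟨K', hK'⟩ := hg.2.1
  refine ⟨hf.1.mul hg.1, ⟨K * K', fun x hx => ?_⟩, fun v hv => ?_⟩
  · rw [norm_mul]
    exact mul_le_mul (hK x hx) (hK' x hx) (norm_nonneg _) ((norm_nonneg _).trans (hK x hx))
  have e : (S.indicator fun x => f x * g x) = fun x => S.indicator f x * S.indicator g x := by
    funext x
    by_cases hx : x ∈ S <;> simp [hx]
  rw [e, ← E.mul_apply (hf.bm c) (hg.bm c)]
  exact hf.2.2 _ (hg.2.2 v hv)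

theorem Ctx.sub (c : Ctx E L S) {f g : X → ℂ} (hf : AlgS E L S f) (hg : AlgS E L S g) :
    AlgS E L S fun x => f x - g x :=
  c.congr (c.add hf (c.mul (c.const (-1)) hg)) (hf.1.sub hg.1) fun x _ => by ring

theorem Ctx.pow (c : Ctx E L S) {f : X → ℂ} (hf : AlgS E L S f) (n : ℕ) :
    AlgS E L S fun x => f x ^ n := by
  induction n with
  | zero => simpa using c.const 1
  | succ n ih => simpa only [pow_succ] using c.mul ih hf

theorem Ctx.sum (c : Ctx E L S) {ι : Type*} (s : Finset ι) {f : ι → X → ℂ}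
    (hf : ∀ i ∈ s, AlgS E L S (f i)) : AlgS E L S fun x => ∑ i ∈ s, f i x := by
  classical
  induction s using Finset.induction_on with
  | empty => simpa using c.const 0
  | insert a s ha ih =>
    simp only [Finset.sum_insert ha]
    exact c.add (hf a (Finset.mem_insert_self _ _))
      (ih fun i hi => hf i (Finset.mem_insert_of_mem hi))

theorem Ctx.lim (c : Ctx E L S) {f : ℕ → X → ℂ} {g : X → ℂ} (hf : ∀ n, AlgS E L S (f n))
    (hg : Measurable g) (K : ℝ) (hK : ∀ n, ∀ x ∈ S, ‖f n x‖ ≤ K)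
    (h : ∀ x ∈ S, Tendsto (fun n => f n x) atTop (𝓝 (g x))) : AlgS E L S g := by
  have hb : ∀ x ∈ S, ‖g x‖ ≤ K := fun x hx =>
    le_of_tendsto' (h x hx).norm fun n => hK n x hx
  refine ⟨hg, ⟨K, hb⟩, fun v hv => ?_⟩
  have ht := E.tendsto (l := atTop) (f := fun n => S.indicator (f n)) (f₀ := S.indicator g)
    (max K 0) (Eventually.of_forall fun n => ⟨(hf n).1.indicator c.meas, fun x => ?_⟩)
    (BM.indicator_of_bdd hg c.meas K hb) (ξ := v) (Eventually.of_forall fun x => ?_)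
  · exact c.closed.mem_of_tendsto ht (Eventually.of_forall fun n => (hf n).2.2 v hv)
  · by_cases hx : x ∈ S
    · rw [Set.indicator_of_mem hx]
      exact (hK n x hx).trans (le_max_left _ _)
    · rw [Set.indicator_of_notMem hx, norm_zero]
      exact le_max_right _ _
  · by_cases hx : x ∈ S
    · simpa only [Set.indicator_of_mem hx] using h x hx
    · simp only [Set.indicator_of_notMem hx]
      exact tendsto_const_nhds

theorem Ctx.geom (c : Ctx E L S) {g : X → ℂ} (hg : AlgS E L S g)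
    (h : ∀ x ∈ S, ‖g x‖ ≤ 1 / 2) : AlgS E L S fun x => (1 - g x)⁻¹ := by
  refine c.lim (f := fun n x => ∑ i ∈ Finset.range n, g x ^ i)
    (fun n => c.sum _ fun i _ => c.pow hg i) ((measurable_const.sub hg.1).inv) 2
    (fun n x hx => ?_) fun x hx => ?_
  · refine (norm_sum_le _ _).trans (le_trans (Finset.sum_le_sum fun i _ => ?_)
      (sum_geometric_two_le n))
    rw [norm_pow]
    exact pow_le_pow_left₀ (norm_nonneg _) (h x hx) i
  · exact (hasSum_geometric_of_norm_lt_one (by linarith [h x hx])).tendsto_sum_nat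

theorem Ctx.resolvent (c : Ctx E L S) {w : X → ℂ} (hw : AlgS E L S w) {δ : ℝ} (hδ : 0 < δ)
    (h : ∀ x ∈ S, δ ≤ |(w x).re|) (t : ℝ) : AlgS E L S fun x => (w x - t * Complex.I)⁻¹ := by
  obtain ⟨R, hR⟩ := hw.2.1
  have hm : ∀ t : ℝ, Measurable fun x => (w x - t * Complex.I)⁻¹ := fun t =>
    (hw.1.sub measurable_const).inv
  have hn : ∀ (t : ℝ), ∀ x ∈ S, δ ≤ ‖w x - t * Complex.I‖ := fun t x hx => by
    refine (h x hx).trans (le_trans (le_of_eq ?_) (Complex.abs_re_le_norm _))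
    simp
  have hne : ∀ (t : ℝ), ∀ x ∈ S, w x - t * Complex.I ≠ 0 := fun t x hx =>
    norm_pos_iff.1 (hδ.trans_le (hn t x hx))
  have key : ∀ n : ℕ, ∀ t : ℝ, 2 * |R| + 1 - n * (δ / 2) ≤ t →
      AlgS E L S fun x => (w x - t * Complex.I)⁻¹ := by
    intro n
    induction n with
    | zero =>
      intro t ht
      simp only [Nat.cast_zero, zero_mul, sub_zero] at ht
      have ht0 : 0 < t := by linarith [abs_nonneg R]
      have ht1 : (t : ℂ) * Complex.I ≠ 0 :=
        mul_ne_zero (Complex.ofReal_ne_zero.2 ht0.ne') Complex.I_ne_zero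
      refine c.congr (c.mul (c.const (-(t * Complex.I)⁻¹))
        (c.geom (c.mul (c.const ((t * Complex.I)⁻¹)) hw) fun x hx => ?_)) (hm t) fun x hx => ?_
      · rw [norm_mul, norm_inv, norm_mul, Complex.norm_I, mul_one, Complex.norm_real,
          Real.norm_of_nonneg ht0.le, inv_mul_le_iff₀ ht0]
        linarith [hR x hx, le_abs_self R]
      · have e : 1 - (t * Complex.I)⁻¹ * w x = -(t * Complex.I)⁻¹ * (w x - t * Complex.I) := by
          linear_combination (-1 : ℂ) * inv_mul_cancel₀ ht1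
        rw [e, mul_inv (-(t * Complex.I)⁻¹), ← mul_assoc,
          mul_inv_cancel₀ (neg_ne_zero.2 (inv_ne_zero ht1)), one_mul]
    | succ n ih =>
      intro t ht
      have h1 := ih (t + δ / 2) (by push_cast at ht; linarith)
      refine c.congr (c.mul h1 (c.geom (c.mul (c.const (-((δ / 2 : ℝ) * Complex.I))) h1)
        fun x hx => ?_)) (hm t) fun x hx => ?_
      · have h2 := hn (t + δ / 2) x hx
        rw [norm_mul, norm_neg, norm_mul, Complex.norm_I, mul_one, Complex.norm_real,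
          Real.norm_of_nonneg (by linarith), norm_inv, ← div_eq_mul_inv,
          div_le_iff₀ (hδ.trans_le h2)]
        linarith
      · have h2 := hne (t + δ / 2) x hx
        have h3 := hne t x hx
        have e : 1 - -((δ / 2 : ℝ) * Complex.I) * (w x - (t + δ / 2 : ℝ) * Complex.I)⁻¹ =
            (w x - t * Complex.I) * (w x - (t + δ / 2 : ℝ) * Complex.I)⁻¹ := by
          have h4 := mul_inv_cancel₀ h2
          push_cast at h4 ⊢
          linear_combination (-1 : ℂ) * h4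
        rw [e, mul_inv, inv_inv, mul_comm (w x - t * Complex.I)⁻¹, ← mul_assoc,
          inv_mul_cancel₀ h2, one_mul]
  obtain ⟨n, hn⟩ := exists_nat_ge ((2 * |R| + 1 - t) / (δ / 2))
  refine key n t ?_
  rw [div_le_iff₀ (by linarith)] at hn
  linarith

theorem Ctx.polyInv (c : Ctx E L S) {w : X → ℂ} (hw : AlgS E L S w) {δ : ℝ} (hδ : 0 < δ)
    (h : ∀ x ∈ S, δ ≤ |(w x).re|) (p : Polynomial ℂ) (hp : p ≠ 0)
    (hr : ∀ a, p.eval a = 0 → a.re = 0) : AlgS E L S fun x => (p.eval (w x))⁻¹ := by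
  have key : ∀ s : Multiset ℂ, (∀ a ∈ s, a.re = 0) →
      AlgS E L S fun x => ((s.map fun a => w x - a).prod)⁻¹ := by
    intro s
    induction s using Multiset.induction_on with
    | empty => intro _; simpa using c.const 1
    | cons a s ih =>
      intro hs
      have ha : a = (a.im : ℝ) * Complex.I := by
        have := hs a (Multiset.mem_cons_self _ _)
        apply Complex.ext <;> simp [this]
      simp only [Multiset.map_cons, Multiset.prod_cons, mul_inv]
      refine c.mul ?_ (ih fun b hb => hs b (Multiset.mem_cons_of_mem hb))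
      rw [ha]
      exact c.resolvent hw hδ h a.im
  have e : ∀ z : ℂ, p.eval z = p.leadingCoeff * (p.roots.map fun a => z - a).prod := fun z =>
    (IsAlgClosed.splits p).eval_eq_prod_roots z
  simp only [e, mul_inv]
  exact c.mul (c.const _) (key _ fun a ha => hr a (Polynomial.isRoot_of_mem_roots ha))

theorem exists_rho {δ R : ℝ} (hδ : 0 < δ) : ∃ ρ : ℝ, ρ < 1 ∧
    ∀ w : ℂ, δ ≤ w.re → ‖w‖ ≤ R → 1 + w ≠ 0 ∧ ‖(1 - w) / (1 + w)‖ ≤ ρ := by
  refine ⟨√(1 - 4 * δ / (1 + |R|) ^ 2), ?_, fun w h1 h2 => ?_⟩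
  · rw [Real.sqrt_lt' one_pos]
    have : 0 < 4 * δ / (1 + |R|) ^ 2 := by positivity
    linarith
  have h0 : 1 + w ≠ 0 := fun h => by
    have := congrArg Complex.re h
    simp at this
    linarith
  refine ⟨h0, Real.le_sqrt_of_sq_le ?_⟩
  have h3 : 0 < ‖1 + w‖ := norm_pos_iff.2 h0
  have h4 : ‖1 - w‖ ^ 2 = ‖1 + w‖ ^ 2 - 4 * w.re := by
    rw [Complex.sq_norm, Complex.sq_norm, Complex.normSq_apply, Complex.normSq_apply]
    simp
    ring
  have h5 : ‖1 + w‖ ≤ 1 + |R| := (norm_add_le _ _).trans (by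
    rw [norm_one]; linarith [le_abs_self R])
  rw [norm_div, div_pow, h4, sub_div, div_self (by positivity)]
  have h6 : 0 ≤ 4 * w.re := by linarith
  gcongr

theorem inv_pow_bound {ρ : ℝ} (hρ : ρ < 1) {a : ℂ} (ha : ‖a‖ ≤ ρ) :
    (∀ n : ℕ, 1 + a ^ (n + 1) ≠ 0 ∧ ‖(1 + a ^ (n + 1))⁻¹‖ ≤ (1 - ρ)⁻¹) ∧
      Tendsto (fun n : ℕ => (1 + a ^ (n + 1))⁻¹) atTop (𝓝 1) := by
  constructor
  · intro n
    have h1 : ‖a ^ (n + 1)‖ ≤ ρ := by
      rw [norm_pow]
      refine le_trans ?_ ha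
      exact pow_le_of_le_one (norm_nonneg _) (by linarith) (Nat.succ_ne_zero n)
    have h2 : 1 - ρ ≤ ‖1 + a ^ (n + 1)‖ := by
      have := norm_sub_le (1 + a ^ (n + 1)) (a ^ (n + 1))
      rw [add_sub_cancel_right, norm_one] at this
      linarith
    have h3 : 0 < 1 - ρ := by linarith
    refine ⟨norm_pos_iff.1 (h3.trans_le h2), ?_⟩
    rw [norm_inv]
    exact inv_anti₀ h3 h2
  · have h1 := (tendsto_pow_atTop_nhds_zero_of_norm_lt_one (ha.trans_lt hρ)).comp
      (tendsto_add_atTop_nat 1)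
    have h2 := (h1.const_add 1).inv₀ (by simp)
    simpa using h2

theorem Ctx.sign (c : Ctx E L S) {w : X → ℂ} (hw : AlgS E L S w) {δ : ℝ} (hδ : 0 < δ)
    (h : ∀ x ∈ S, δ ≤ |(w x).re|) :
    AlgS E L S fun x => if 0 < (w x).re then 1 else 0 := by
  obtain ⟨R, hR⟩ := hw.2.1
  obtain ⟨ρ, hρ, hρ'⟩ := exists_rho (R := R) hδ
  have hmeas : Measurable fun x => if 0 < (w x).re then (1 : ℂ) else 0 :=
    Measurable.ite (measurableSet_lt measurable_const (Complex.measurable_re.comp hw.1))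
      measurable_const measurable_const
  have hf : ∀ n : ℕ, AlgS E L S fun x =>
      (1 + w x) ^ (n + 1) * ((1 + w x) ^ (n + 1) + (1 - w x) ^ (n + 1))⁻¹ := fun n => by
    refine c.mul (c.pow (c.add (c.const 1) hw) _) ?_
    have := c.polyInv hw hδ h ((1 + Polynomial.X) ^ (n + 1) + (1 - Polynomial.X) ^ (n + 1))
      (fun h0 => by
        have := congrArg (Polynomial.eval 0) h0
        norm_num at this) (fun a ha => by
        simp only [Polynomial.eval_add, Polynomial.eval_pow, Polynomial.eval_one,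
          Polynomial.eval_X, Polynomial.eval_sub] at ha
        have h1 : ‖1 + a‖ ^ (n + 1) = ‖1 - a‖ ^ (n + 1) := by
          rw [← norm_pow, ← norm_pow, eq_neg_of_add_eq_zero_left ha, norm_neg]
        have h2 : ‖1 + a‖ = ‖1 - a‖ :=
          (pow_left_inj₀ (norm_nonneg _) (norm_nonneg _) (Nat.succ_ne_zero n)).1 h1
        have h3 : ‖1 + a‖ ^ 2 = ‖1 - a‖ ^ 2 := by rw [h2]
        rw [Complex.sq_norm, Complex.sq_norm, Complex.normSq_apply, Complex.normSq_apply] at h3
        simp at h3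
        linarith)
    simpa using this
  have pos : ∀ x ∈ S, 0 < (w x).re → ∀ n : ℕ,
      (1 + w x) ^ (n + 1) * ((1 + w x) ^ (n + 1) + (1 - w x) ^ (n + 1))⁻¹ =
        (1 + ((1 - w x) / (1 + w x)) ^ (n + 1))⁻¹ := fun x hx h0 n => by
    have h1 := hρ' (w x) (by simpa [abs_of_pos h0] using h x hx) (hR x hx)
    have h2 : (1 + w x) ^ (n + 1) ≠ 0 := pow_ne_zero _ h1.1
    rw [div_pow, one_add_div h2, inv_div, div_eq_mul_inv]
  have neg : ∀ x ∈ S, ¬ 0 < (w x).re → δ ≤ (-w x).re := fun x hx h0 => by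
    have := h x hx
    rwa [abs_of_nonpos (not_lt.1 h0), ← Complex.neg_re] at this
  have neg' : ∀ x ∈ S, ¬ 0 < (w x).re → ∀ n : ℕ,
      (1 + w x) ^ (n + 1) * ((1 + w x) ^ (n + 1) + (1 - w x) ^ (n + 1))⁻¹ =
        1 - (1 + ((1 - -w x) / (1 + -w x))⁻¹⁻¹ ^ (n + 1))⁻¹ := fun x hx h0 n => by
    have h1 := hρ' (-w x) (neg x hx h0) (by simpa using hR x hx)
    have h2 : (1 - w x) ^ (n + 1) ≠ 0 := pow_ne_zero _ (by simpa [sub_eq_add_neg] using h1.1)
    have h3 := ((inv_pow_bound hρ h1.2).1 n).1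
    rw [inv_inv]
    rw [sub_neg_eq_add, ← sub_eq_add_neg, div_pow, one_add_div h2] at h3 ⊢
    have h4 : (1 - w x) ^ (n + 1) + (1 + w x) ^ (n + 1) ≠ 0 := fun h => h3 (by rw [h, zero_div])
    rw [inv_div, add_comm ((1 + w x) ^ (n + 1))]
    field_simp
    ring
  refine c.lim hf hmeas (1 + (1 - ρ)⁻¹) (fun n x hx => ?_) fun x hx => ?_
  · by_cases h0 : 0 < (w x).re
    · have h1 := hρ' (w x) (by simpa [abs_of_pos h0] using h x hx) (hR x hx)
      rw [pos x hx h0]
      linarith [((inv_pow_bound hρ h1.2).1 n).2]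
    · have h1 := hρ' (-w x) (neg x hx h0) (by simpa using hR x hx)
      rw [neg' x hx h0, inv_inv]
      refine (norm_sub_le _ _).trans ?_
      rw [norm_one]
      linarith [((inv_pow_bound hρ h1.2).1 n).2]
  · by_cases h0 : 0 < (w x).re
    · have h1 := hρ' (w x) (by simpa [abs_of_pos h0] using h x hx) (hR x hx)
      simp only [pos x hx h0, if_pos h0]
      exact (inv_pow_bound hρ h1.2).2
    · have h1 := hρ' (-w x) (neg x hx h0) (by simpa using hR x hx)
      simp only [neg' x hx h0, if_neg h0, inv_inv]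
      simpa using (inv_pow_bound hρ h1.2).2.const_sub 1

/-- the real part of `Z` stays away, on `S`, from every point `θ + q` with `q` rational -/
def Gap (Z : X → ℂ) (θ : ℝ) (S : Set X) : Prop :=
  ∀ q : ℚ, ∃ δ : ℝ, 0 < δ ∧ ∀ x ∈ S, δ ≤ |(Z x).re - θ - q|

theorem Ctx.re (c : Ctx E L S) {Z : X → ℂ} (hZ : AlgS E L S Z) {θ : ℝ} (hg : Gap Z θ S) :
    AlgS E L S fun x => ((Z x).re : ℂ) := by
  obtain ⟨R, hR⟩ := hZ.2.1
  have hψ : ∀ q : ℚ, AlgS E L S fun x => if 0 < (Z x).re - θ - q then 1 else 0 := fun q => by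
    obtain ⟨δ, hδ, h⟩ := hg q
    have := c.sign (c.sub hZ (c.const ((θ + q : ℝ) : ℂ))) hδ (fun x hx => by
      simpa [sub_sub] using h x hx)
    simpa [sub_sub] using this
  have hre : Measurable fun x => (Z x).re := Complex.measurable_re.comp hZ.1
  have hb : ∀ x ∈ S, |(Z x).re| ≤ R := fun x hx => (Complex.abs_re_le_norm _).trans (hR x hx)
  have hfl : ∀ (m : ℕ) (t : ℝ), |θ + (⌊(m + 1 : ℝ) * (t - θ)⌋ : ℝ) / (m + 1) - t| ≤ 1 / (m + 1) := by
    intro m t
    have h0 : (0 : ℝ) < m + 1 := by positivity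
    have h1 := Int.floor_le ((m + 1 : ℝ) * (t - θ))
    have h2 := Int.lt_floor_add_one ((m + 1 : ℝ) * (t - θ))
    have e : θ + (⌊(m + 1 : ℝ) * (t - θ)⌋ : ℝ) / (m + 1) - t =
        ((⌊(m + 1 : ℝ) * (t - θ)⌋ : ℝ) - (m + 1) * (t - θ)) / (m + 1) := by
      field_simp
      ring
    rw [e, abs_div, abs_of_pos h0]
    gcongr
    rw [abs_le]
    constructor <;> linarith
  refine c.lim (f := fun m x => ((θ + (⌊(m + 1 : ℝ) * ((Z x).re - θ)⌋ : ℝ) / (m + 1) : ℝ) : ℂ))
    (fun m => ?_) (Complex.measurable_ofReal.comp hre) (R + 1) (fun m x hx => ?_) fun x hx => ?_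
  · have h0 : (0 : ℝ) < m + 1 := by positivity
    obtain ⟨N, hN⟩ := exists_nat_ge ((m + 1 : ℝ) * (R + |θ|) + 1)
    refine c.congr (c.sum (Finset.Icc (-(N : ℤ)) N) (f := fun i x =>
      ((θ + (i : ℝ) / (m + 1) : ℝ) : ℂ) *
        ((if 0 < (Z x).re - θ - ((i / (m + 1) : ℚ) : ℝ) then 1 else 0) -
          (if 0 < (Z x).re - θ - (((i + 1 : ℤ) / (m + 1) : ℚ) : ℝ) then 1 else 0)))
      fun i _ => c.mul (c.const _) (c.sub (hψ _) (hψ _))) ?_ fun x hx => ?_
    · refine Complex.measurable_ofReal.comp (Measurable.const_add (Measurable.div_const ?_ _) _)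
      exact (measurable_of_countable (fun k : ℤ => (k : ℝ))).comp
        (((hre.sub_const θ).const_mul _).floor)
    · have hi : ∀ i : ℤ, 0 < (Z x).re - θ - ((i / (m + 1) : ℚ) : ℝ) ↔
          i ≤ ⌊(m + 1 : ℝ) * ((Z x).re - θ)⌋ := fun i => by
        obtain ⟨δ, hδ, h⟩ := hg (i / (m + 1))
        have h1 : (Z x).re - θ - ((i / (m + 1) : ℚ) : ℝ) ≠ 0 :=
          abs_pos.1 (hδ.trans_le (h x hx))
        rw [Int.le_floor, lt_iff_le_and_ne, and_iff_left h1.symm, sub_nonneg]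
        push_cast
        rw [div_le_iff₀ h0, mul_comm]
      simp only [hi]
      have h1 := Int.floor_le ((m + 1 : ℝ) * ((Z x).re - θ))
      have h2 := Int.lt_floor_add_one ((m + 1 : ℝ) * ((Z x).re - θ))
      have h3 := abs_le.1 (hb x hx)
      have h4 : |(m + 1 : ℝ) * ((Z x).re - θ)| ≤ (m + 1 : ℝ) * (R + |θ|) := by
        rw [abs_mul, abs_of_pos h0]
        gcongr
        exact (abs_sub _ _).trans (by linarith [hb x hx])
      have h5 := abs_le.1 h4
      generalize ⌊(m + 1 : ℝ) * ((Z x).re - θ)⌋ = k at h1 h2 ⊢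
      have hk : k ∈ Finset.Icc (-(N : ℤ)) N := by
        rw [Finset.mem_Icc]
        constructor
        · have : (-(N : ℝ)) ≤ k := by linarith
          exact_mod_cast this
        · have : (k : ℝ) ≤ N := by linarith
          exact_mod_cast this
      rw [Finset.sum_eq_single_of_mem k hk]
      · simp
      · intro i _ hik
        rcases lt_or_gt_of_ne hik with h | h
        · rw [if_pos h.le, if_pos (by omega), sub_self, mul_zero]
        · rw [if_neg (by omega), if_neg (by omega), sub_self, mul_zero]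
  · rw [Complex.norm_real, Real.norm_eq_abs]
    have h1 := abs_le.1 (hfl m (Z x).re)
    have h2 : 1 / (m + 1 : ℝ) ≤ 1 := by
      rw [div_le_one (by positivity)]
      linarith [Nat.cast_nonneg (α := ℝ) m]
    have h3 := abs_le.1 (hb x hx)
    rw [abs_le]
    constructor <;> linarith
  · refine (Complex.continuous_ofReal.tendsto _).comp ?_
    rw [tendsto_iff_norm_sub_tendsto_zero]
    exact squeeze_zero (fun _ => norm_nonneg _) (fun m => hfl m (Z x).re)
      tendsto_one_div_add_atTop_nhds_zero_nat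

/-- an invariant subspace living on a set with gaps is reducing -/
theorem Ctx.red (c : Ctx E L S) {Z : X → ℂ} (hZ : BM Z) {θ : ℝ} (hg : Gap Z θ S)
    (h : ∀ v ∈ L, E.Φ Z v ∈ L) : ∀ v ∈ L, (star (E.Φ Z)) v ∈ L := by
  have h1 := c.of_bm hZ h
  have h2 : AlgS E L S fun x => conj (Z x) :=
    c.congr (c.sub (c.mul (c.const 2) (c.re h1 hg)) h1) hZ.star.1 fun x _ => by
      apply Complex.ext <;> simp
      ring
  intro v hv
  rw [← E.map_star hZ, ← c.ind hZ.star hv]
  exact h2.2.2 v hv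

theorem Ctx.red' (c : Ctx E L S) {Z : X → ℂ} (hZ : BM Z) {θ : ℝ} (hg : Gap Z θ S)
    (h : ∀ v ∈ L, (star (E.Φ Z)) v ∈ L) : ∀ v ∈ L, E.Φ Z v ∈ L := by
  have := c.red hZ.star (θ := θ) (fun q => by simpa using hg q) (by rwa [E.map_star hZ])
  rwa [E.map_star hZ, star_star] at this

theorem Gap.mono {Z : X → ℂ} {θ : ℝ} {S T : Set X} (h : Gap Z θ T) (hS : S ⊆ T) : Gap Z θ S :=
  fun q => (h q).imp fun δ hδ => ⟨hδ.1, fun x hx => hδ.2 x (hS hx)⟩

theorem Gap.biUnion {Z : X → ℂ} {θ : ℝ} {S : ℕ → Set X} (h : ∀ n, Gap Z θ (S n)) (n : ℕ) :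
    Gap Z θ {x | ∃ j < n, x ∈ S j} := by
  intro q
  induction n with
  | zero => exact ⟨1, one_pos, fun x hx => by simp at hx⟩
  | succ n ih =>
    obtain ⟨δ, hδ, h1⟩ := ih
    obtain ⟨δ', hδ', h2⟩ := h n q
    refine ⟨min δ δ', lt_min hδ hδ', ?_⟩
    rintro x ⟨j, hj, hx⟩
    rcases Nat.lt_succ_iff_lt_or_eq.1 hj with h3 | rfl
    · exact (min_le_left _ _).trans (h1 x ⟨j, h3, hx⟩)
    · exact (min_le_right _ _).trans (h2 x hx)

theorem exists_gaps {Z : X → ℂ} (hZ : Measurable Z) (μ : ℕ → Measure X)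
    [∀ k, IsFiniteMeasure (μ k)] : ∃ (θ : ℝ) (S : ℕ → Set X), (∀ n, MeasurableSet (S n)) ∧
      (∀ n, Gap Z θ (S n)) ∧ ∀ k, μ k (⋃ n, S n)ᶜ = 0 := by
  have hre : Measurable fun x => (Z x).re := Complex.measurable_re.comp hZ
  have hc : (⋃ k : ℕ, ⋃ q : ℚ, {t : ℝ | 0 < μ k {x | (Z x).re - q = t}}).Countable :=
    Set.countable_iUnion fun k => Set.countable_iUnion fun q =>
      Measure.countable_meas_level_set_pos (hre.sub_const _)
  obtain ⟨θ, hθ⟩ := (hc.dense_compl ℝ).nonempty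
  simp only [Set.mem_compl_iff, Set.mem_iUnion, Set.mem_setOf_eq, not_exists, not_lt,
    nonpos_iff_eq_zero] at hθ
  have hm : ∀ (q : ℚ) (δ : ℝ), MeasurableSet {x | |(Z x).re - θ - q| < δ} := fun q δ =>
    measurableSet_lt ((hre.sub_const _).sub_const _).abs measurable_const
  have ht : ∀ (k : ℕ) (q : ℚ), Tendsto (fun j : ℕ => μ k {x | |(Z x).re - θ - q| < 1 / (j + 1)})
      atTop (𝓝 0) := fun k q => by
    have h1 := tendsto_measure_iInter_atTop (μ := μ k)
      (s := fun j : ℕ => {x | |(Z x).re - θ - q| < 1 / (j + 1)})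
      (fun j => (hm q _).nullMeasurableSet) (fun i j hij x hx => by
        have h0 : |(Z x).re - θ - q| < 1 / (j + 1) := hx
        change |(Z x).re - θ - q| < 1 / (i + 1)
        refine lt_of_lt_of_le h0 ?_
        gcongr) ⟨0, measure_ne_top _ _⟩
    have h2 : μ k (⋂ j : ℕ, {x | |(Z x).re - θ - q| < 1 / (j + 1)}) = 0 := by
      refine measure_mono_null (fun x hx => ?_) (hθ k q)
      have h3 : |(Z x).re - θ - q| ≤ 0 :=
        ge_of_tendsto' tendsto_one_div_add_atTop_nhds_zero_nat fun j =>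
          (Set.mem_iInter.1 hx j).le
      have h4 := abs_nonpos_iff.1 h3
      change (Z x).re - q = θ
      linarith
    rwa [h2] at h1
  have h1 : ∀ n : ℕ, ∃ S : Set X, MeasurableSet S ∧ Gap Z θ S ∧
      ∀ k ≤ n, μ k Sᶜ ≤ ((n : ENNReal) + 1)⁻¹ := fun n => by
    obtain ⟨ε, hε, hs⟩ := ENNReal.exists_pos_sum_of_countable
      (ε := ((n : ENNReal) + 1)⁻¹) (by simp) ℚ
    have h2 : ∀ q : ℚ, ∃ j : ℕ, ∀ k ≤ n, μ k {x | |(Z x).re - θ - q| < 1 / (j + 1)} ≤ ε q :=
      fun q => by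
        have : ∀ᶠ j : ℕ in atTop, ∀ k ∈ Finset.range (n + 1),
            μ k {x | |(Z x).re - θ - q| < 1 / (j + 1)} ≤ ε q :=
          (Filter.eventually_all_finset _).2 fun k _ =>
            (ht k q).eventually (ge_mem_nhds (by exact_mod_cast hε q))
        obtain ⟨j, hj⟩ := this.exists
        exact ⟨j, fun k hk => hj k (Finset.mem_range.2 (Nat.lt_succ_of_le hk))⟩
    choose j hj using h2
    refine ⟨(⋃ q : ℚ, {x | |(Z x).re - θ - q| < 1 / (j q + 1)})ᶜ,
      (MeasurableSet.iUnion fun q => hm q _).compl, fun q => ⟨1 / (j q + 1), by positivity,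
        fun x hx => ?_⟩, fun k hk => ?_⟩
    · by_contra h
      exact hx (Set.mem_iUnion.2 ⟨q, not_le.1 h⟩)
    · rw [compl_compl]
      exact (measure_iUnion_le _).trans ((ENNReal.tsum_le_tsum fun q => hj q k hk).trans hs.le)
  choose S hS1 hS2 hS3 using h1
  refine ⟨θ, S, hS1, hS2, fun k => ?_⟩
  have h3 : Tendsto (fun n : ℕ => ((n : ENNReal) + 1)⁻¹) atTop (𝓝 0) := by
    have := ENNReal.tendsto_inv_nat_nhds_zero.comp (tendsto_add_atTop_nat 1)
    simpa [Function.comp_def] using this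
  refine nonpos_iff_eq_zero.1 (ge_of_tendsto h3 ?_)
  filter_upwards [eventually_ge_atTop k] with n hn
  exact (measure_mono (Set.compl_subset_compl.2 (Set.subset_iUnion S n))).trans (hS3 n k hn)

end Pool.Agent.P.MP_d8da86_an
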