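import Mathlib

namespace Pool.Agent.P.MP_d8da86_an

variable {H : Type*} [NormedAddCommGroup H] [InnerProductSpace ℂ H] [CompleteSpace H]

/-- `Lat A`: the set of closed subspaces `M` of `H` with `A M ⊆ M`.  As a type it carries the
order by inclusion (the order of the subtype of `Submodule ℂ H`). -/
def Lat (A : H →L[ℂ] H) : Set (Submodule ℂ H) :=
  {M | IsClosed (M : Set H) ∧ ∀ x ∈ M, A x ∈ M}

/-- `A` is reductive: every closed invariant subspace reduces `A`, that is, its orthogonal
complement is invariant too. -/
def Reductive (A : H →L[ℂ] H) : Prop :=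
  ∀ M ∈ Lat A, Mᗮ ∈ Lat A

/-- The commutant of `A` is finite: every isometry commuting with `A` is unitary. -/
def FiniteCommutant (A : H →L[ℂ] H) : Prop :=
  ∀ V : H →L[ℂ] H, V * A = A * V → star V * V = 1 → V * star V = 1

end Pool.Agent.P.MP_d8da86_an
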