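import Pool.Agent.P.MP_d8da86_an.Spec
import Pool.Agent.P.MP_d8da86_an.Defs

open scoped InnerProductSpace ComplexConjugate
open MeasureTheory Filter Topology

set_option linter.unusedSectionVars false
set_option linter.unusedVariables false

noncomputable section

namespace Pool.Agent.P.MP_d8da86_an

variable {H : Type*} [NormedAddCommGroup H] [InnerProductSpace ℂ H] [CompleteSpace H]

theorem exists_setup (A : H →L[ℂ] H) (hA : IsStarNormal A) :
    ∃ (X : Type) (_ : MeasurableSpace X) (E : SpecCalc X H) (Z : X → ℂ), BM Z ∧ E.Φ Z = A ∧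
      ∀ S : H →L[ℂ] H, Commute S A → ∀ f, BM f → Commute S (E.Φ f) := by
  obtain ⟨E, hE⟩ := CalcExAux.exists_calc (cfcHom (R := ℂ) hA)
  let z : C(spectrum ℂ A, ℂ) := (ContinuousMap.id ℂ).restrict (spectrum ℂ A)
  refine ⟨spectrum ℂ A, inferInstance, E, z,
    bm_bcf (BoundedContinuousFunction.mkOfCompact z), ?_, fun S hS f hf => ?_⟩
  · rw [hE, cfcHom_id]
  · have h2 : Commute (star A) S := by
      have := IsStarNormal.commute_star_left hA hS.symm
      exact this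
    ext1 ξ
    refine intertwine_cont E E S (fun g ξ => ?_) f hf ξ
    have h3 := Commute.cfcHom hA hS.symm h2 g.toContinuousMap
    have h4 : E.Φ (fun x => g x) = cfcHom hA g.toContinuousMap := hE g.toContinuousMap
    rw [h4]
    exact (DFunLike.congr_fun h3 ξ).symm

theorem inner_star_left (x : H →L[ℂ] H) (ξ η : H) : ⟪(star x) ξ, η⟫_ℂ = ⟪ξ, x η⟫_ℂ := by
  rw [ContinuousLinearMap.star_eq_adjoint, ContinuousLinearMap.adjoint_inner_left]

theorem mem_orth {K : Submodule ℂ H} {v : H} : v ∈ Kᗮ ↔ ∀ u ∈ K, ⟪u, v⟫_ℂ = 0 :=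
  Submodule.mem_orthogonal K v

theorem mem_orth' {K : Submodule ℂ H} {v : H} : v ∈ Kᗮ ↔ ∀ u ∈ K, ⟪v, u⟫_ℂ = 0 :=
  Submodule.mem_orthogonal' K v

theorem mem_clo {K : Submodule ℂ H} {x : H} :
    x ∈ K.topologicalClosure ↔ ∀ w ∈ Kᗮ, ⟪w, x⟫_ℂ = 0 := by
  rw [← Submodule.orthogonal_orthogonal_eq_closure, mem_orth]

theorem mem_of_orth {K : Submodule ℂ H} (hK : IsClosed (K : Set H)) {x : H}
    (h : ∀ w ∈ Kᗮ, ⟪w, x⟫_ℂ = 0) : x ∈ K := by
  have := mem_clo.2 h
  rwa [hK.submodule_topologicalClosure_eq] at this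

theorem orth_orth {K : Submodule ℂ H} (hK : IsClosed (K : Set H)) : Kᗮᗮ = K := by
  rw [Submodule.orthogonal_orthogonal_eq_closure, hK.submodule_topologicalClosure_eq]

theorem orth_clo (K : Submodule ℂ H) : K.topologicalClosureᗮ = Kᗮ :=
  Submodule.orthogonal_closure K

theorem clo_le {K M : Submodule ℂ H} (hM : IsClosed (M : Set H)) (h : K ≤ M) :
    K.topologicalClosure ≤ M :=
  Submodule.topologicalClosure_minimal K h hM

theorem mem_orth_sup {K L : Submodule ℂ H} {v : H} : v ∈ (K ⊔ L)ᗮ ↔ v ∈ Kᗮ ∧ v ∈ Lᗮ := by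
  rw [← Submodule.inf_orthogonal]
  rfl

theorem orth_mem_Lat {A : H →L[ℂ] H} {M : Submodule ℂ H} (h : ∀ x ∈ M, A x ∈ M) :
    Mᗮ ∈ Lat (star A) :=
  ⟨Submodule.isClosed_orthogonal M, fun x hx => mem_orth.2 fun u hu => by
    rw [inner_star_right]
    exact mem_orth.1 hx _ (h u hu)⟩

theorem orth_mem_Lat' {A : H →L[ℂ] H} {M : Submodule ℂ H} (h : ∀ x ∈ M, (star A) x ∈ M) :
    Mᗮ ∈ Lat A := by
  have := orth_mem_Lat h
  rwa [star_star] at this

theorem star_mem_of_orth {A : H →L[ℂ] H} {M : Submodule ℂ H} (hM : IsClosed (M : Set H))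
    (h : Mᗮ ∈ Lat A) : M ∈ Lat (star A) := by
  have := orth_mem_Lat h.2
  rwa [orth_orth hM] at this

theorem clo_mem_Lat {A : H →L[ℂ] H} {K : Submodule ℂ H}
    (h : ∀ x ∈ K, A x ∈ K.topologicalClosure) : K.topologicalClosure ∈ Lat A := by
  refine ⟨K.isClosed_topologicalClosure, fun x hx => ?_⟩
  have : K.topologicalClosure ≤ K.topologicalClosure.comap (A : H →ₗ[ℂ] H) :=
    clo_le (K.isClosed_topologicalClosure.preimage A.continuous) h
  exact this hx

theorem sup_mem_Lat {A : H →L[ℂ] H} {M N : Submodule ℂ H} (hM : M ∈ Lat A) (hN : N ∈ Lat A) :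
    (M ⊔ N).topologicalClosure ∈ Lat A := by
  refine clo_mem_Lat fun x hx => Submodule.le_topologicalClosure _ ?_
  obtain ⟨a, ha, b, hb, rfl⟩ := Submodule.mem_sup.1 hx
  rw [map_add]
  exact Submodule.add_mem_sup (hM.2 a ha) (hN.2 b hb)

theorem inf_mem_Lat {A : H →L[ℂ] H} {M N : Submodule ℂ H} (hM : M ∈ Lat A) (hN : N ∈ Lat A) :
    M ⊓ N ∈ Lat A :=
  ⟨hM.1.inter hN.1, fun x hx => ⟨hM.2 x hx.1, hN.2 x hx.2⟩⟩

theorem bot_mem_Lat (A : H →L[ℂ] H) : (⊥ : Submodule ℂ H) ∈ Lat A :=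
  ⟨by simp, fun x hx => by
    rw [Submodule.mem_bot] at hx ⊢
    rw [hx, map_zero]⟩

theorem top_mem_Lat (A : H →L[ℂ] H) : (⊤ : Submodule ℂ H) ∈ Lat A :=
  ⟨by simp, fun x hx => trivial⟩

theorem ker_mem_Lat {A T : H →L[ℂ] H} (h : Commute T A) :
    LinearMap.ker (T : H →ₗ[ℂ] H) ∈ Lat A := by
  refine ⟨T.isClosed_ker, fun x hx => ?_⟩
  have h1 : T x = 0 := hx
  have h2 : T (A x) = A (T x) := DFunLike.congr_fun h x
  change T (A x) = 0
  rw [h2, h1, map_zero]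

/-- the cyclic subspace of a vector -/
def cyc (A : H →L[ℂ] H) (v : H) : Submodule ℂ H :=
  (Submodule.span ℂ (Set.range fun n : ℕ => (A ^ n) v)).topologicalClosure

theorem pow_succ_apply (A : H →L[ℂ] H) (n : ℕ) (v : H) : (A ^ (n + 1)) v = A ((A ^ n) v) := by
  rw [pow_succ']
  rfl

theorem cyc_mem_Lat (A : H →L[ℂ] H) (v : H) : cyc A v ∈ Lat A := by
  refine clo_mem_Lat fun x hx => Submodule.le_topologicalClosure _ ?_
  have : Submodule.span ℂ (Set.range fun n : ℕ => (A ^ n) v) ≤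
      (Submodule.span ℂ (Set.range fun n : ℕ => (A ^ n) v)).comap (A : H →ₗ[ℂ] H) := by
    refine Submodule.span_le.2 ?_
    rintro _ ⟨n, rfl⟩
    exact Submodule.subset_span ⟨n + 1, pow_succ_apply A n v⟩
  exact this hx

theorem self_mem_cyc (A : H →L[ℂ] H) (v : H) : v ∈ cyc A v :=
  Submodule.le_topologicalClosure _ (Submodule.subset_span ⟨0, by simp⟩)

theorem pow_mem {A : H →L[ℂ] H} {M : Submodule ℂ H} (hM : ∀ x ∈ M, A x ∈ M) {v : H}
    (hv : v ∈ M) (n : ℕ) : (A ^ n) v ∈ M := by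
  induction n with
  | zero => simpa using hv
  | succ n ih => rw [pow_succ_apply]; exact hM _ ih

theorem cyc_le {A : H →L[ℂ] H} {M : Submodule ℂ H} (hM : M ∈ Lat A) {v : H} (hv : v ∈ M) :
    cyc A v ≤ M := by
  refine clo_le hM.1 (Submodule.span_le.2 ?_)
  rintro _ ⟨n, rfl⟩
  exact pow_mem hM.2 hv n

theorem mem_orth_cyc {A : H →L[ℂ] H} {v y : H} :
    y ∈ (cyc A v)ᗮ ↔ ∀ n : ℕ, ⟪y, (A ^ n) v⟫_ℂ = 0 := by
  constructor
  · intro h n
    exact mem_orth'.1 h _ (pow_mem (cyc_mem_Lat A v).2 (self_mem_cyc A v) n)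
  · intro h
    rw [cyc, orth_clo, mem_orth']
    intro u hu
    have : Submodule.span ℂ (Set.range fun n : ℕ => (A ^ n) v) ≤
        LinearMap.ker ((innerSL ℂ y : H →L[ℂ] ℂ) : H →ₗ[ℂ] ℂ) := by
      refine Submodule.span_le.2 ?_
      rintro _ ⟨n, rfl⟩
      exact h n
    exact this hu

/-- `P` is the orthogonal projection onto `M` -/
structure IsProj (M : Submodule ℂ H) (P : H →L[ℂ] H) : Prop where
  mem : ∀ x, P x ∈ M
  sub : ∀ x, x - P x ∈ Mᗮ

theorem exists_proj {M : Submodule ℂ H} (hM : IsClosed (M : Set H)) : ∃ P, IsProj M P := by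
  haveI : CompleteSpace M := hM.completeSpace_coe
  exact ⟨M.starProjection, fun x => M.starProjection_apply_mem x,
    fun x => M.sub_starProjection_mem_orthogonal x⟩

theorem eq_zero_of_mem_orth {M : Submodule ℂ H} {x : H} (h1 : x ∈ M) (h2 : x ∈ Mᗮ) : x = 0 :=
  inner_self_eq_zero.1 (mem_orth.1 h2 x h1)

namespace IsProj

variable {M : Submodule ℂ H} {P : H →L[ℂ] H}

theorem unique (h : IsProj M P) {x y : H} (hy : y ∈ M) (hxy : x - y ∈ Mᗮ) : P x = y := by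
  have h1 : P x - y ∈ M := M.sub_mem (h.mem x) hy
  have h2 : P x - y ∈ Mᗮ := by
    have := Mᗮ.sub_mem hxy (h.sub x)
    rwa [sub_sub_sub_cancel_left] at this
  exact sub_eq_zero.1 (eq_zero_of_mem_orth h1 h2)

theorem self (h : IsProj M P) {x : H} (hx : x ∈ M) : P x = x :=
  h.unique hx (by simp)

theorem zero (h : IsProj M P) {x : H} (hx : x ∈ Mᗮ) : P x = 0 :=
  h.unique M.zero_mem (by simpa using hx)

theorem symm (h : IsProj M P) (x y : H) : ⟪P x, y⟫_ℂ = ⟪x, P y⟫_ℂ := by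
  have h1 := mem_orth.1 (h.sub y) _ (h.mem x)
  have h2 := mem_orth'.1 (h.sub x) _ (h.mem y)
  rw [inner_sub_right] at h1
  rw [inner_sub_left] at h2
  rw [sub_eq_zero.1 h1, sub_eq_zero.1 h2]

theorem orth_of_zero (h : IsProj M P) {x : H} (hx : P x = 0) : x ∈ Mᗮ := by
  simpa [hx] using h.sub x

theorem star_eq (h : IsProj M P) : star P = P := by
  ext1 x
  refine ext_inner_left ℂ fun y => ?_
  rw [inner_star_right, h.symm]

theorem commute (h : IsProj M P) {T : H →L[ℂ] H} (h1 : ∀ x ∈ M, T x ∈ M)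
    (h2 : ∀ x ∈ Mᗮ, T x ∈ Mᗮ) : Commute P T := by
  ext1 x
  change P (T x) = T (P x)
  refine h.unique (h1 _ (h.mem x)) ?_
  rw [← map_sub]
  exact h2 _ (h.sub x)

theorem inv_of_commute (h : IsProj M P) {T : H →L[ℂ] H} (hT : Commute P T) {x : H}
    (hx : x ∈ M) : T x ∈ M := by
  have h1 : P (T x) = T (P x) := DFunLike.congr_fun hT x
  rw [h.self hx] at h1
  rw [← h1]
  exact h.mem _

theorem orth (h : IsProj M P) (hM : IsClosed (M : Set H)) : IsProj Mᗮ (1 - P) :=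
  ⟨fun x => h.sub x, fun x => by
    rw [orth_orth hM]
    simpa using h.mem x⟩

end IsProj

section Iso

variable {L : Type*} [Lattice L] {A : H →L[ℂ] H} (e : L ≃o Lat A)

theorem le_iff_val {a b : L} : a ≤ b ↔ (e a).1 ≤ (e b).1 :=
  e.le_iff_le.symm

theorem val_inf (a b : L) : (e (a ⊓ b)).1 = (e a).1 ⊓ (e b).1 := by
  refine le_antisymm (le_inf ((le_iff_val e).1 inf_le_left) ((le_iff_val e).1 inf_le_right)) ?_
  obtain ⟨c, hc⟩ := e.surjective ⟨_, inf_mem_Lat (e a).2 (e b).2⟩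
  have h : (e c).1 = (e a).1 ⊓ (e b).1 := by rw [hc]
  rw [← h, ← le_iff_val e]
  exact le_inf ((le_iff_val e).2 (h ▸ inf_le_left)) ((le_iff_val e).2 (h ▸ inf_le_right))

theorem val_sup (a b : L) : (e (a ⊔ b)).1 = ((e a).1 ⊔ (e b).1).topologicalClosure := by
  refine le_antisymm ?_ (clo_le (e _).2.1
    (sup_le ((le_iff_val e).1 le_sup_left) ((le_iff_val e).1 le_sup_right)))
  obtain ⟨c, hc⟩ := e.surjective ⟨_, sup_mem_Lat (e a).2 (e b).2⟩
  have h : (e c).1 = ((e a).1 ⊔ (e b).1).topologicalClosure := by rw [hc]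
  rw [← h, ← le_iff_val e]
  exact sup_le
    ((le_iff_val e).2 (h ▸ le_sup_left.trans (Submodule.le_topologicalClosure _)))
    ((le_iff_val e).2 (h ▸ le_sup_right.trans (Submodule.le_topologicalClosure _)))

theorem val_inj {a b : L} (h : (e a).1 = (e b).1) : a = b :=
  e.injective (Subtype.ext h)

theorem exists_val {M : Submodule ℂ H} (hM : M ∈ Lat A) : ∃ a, (e a).1 = M := by
  obtain ⟨c, hc⟩ := e.surjective ⟨_, hM⟩
  exact ⟨c, by rw [hc]⟩

theorem val_bot [OrderBot L] : (e ⊥).1 = ⊥ := by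
  obtain ⟨c, hc⟩ := exists_val e (bot_mem_Lat A)
  exact le_bot_iff.1 (hc ▸ (le_iff_val e).1 bot_le)

theorem val_top [OrderTop L] : (e ⊤).1 = ⊤ := by
  obtain ⟨c, hc⟩ := exists_val e (top_mem_Lat A)
  exact top_le_iff.1 (hc ▸ (le_iff_val e).1 le_top)

end Iso

end Pool.Agent.P.MP_d8da86_an
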