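import Pool.Agent.P.MP_d8da86_an.Point

open scoped InnerProductSpace ComplexConjugate
open MeasureTheory Filter Topology

set_option linter.unusedSectionVars false
set_option linter.unusedVariables false

noncomputable section

namespace Pool.Agent.P.MP_d8da86_an

variable {H : Type*} [NormedAddCommGroup H] [InnerProductSpace ℂ H] [CompleteSpace H]

theorem commute_of_real {X : Type} [MeasurableSpace X] (E : SpecCalc X H) {φ : X → ℝ}
    (hφ : Measurable φ) {K : ℝ} (hK : ∀ z, |φ z| ≤ K) {S : H →L[ℂ] H}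
    (hS : Commute S (E.Φ fun z => (φ z : ℂ))) {f : ℝ → ℂ} (hf : BM f) :
    Commute S (E.Φ fun z => f (φ z)) := by
  obtain ⟨E', h1, h2⟩ := E.exists_map hφ
  rw [← h1]
  ext1 ξ
  refine ext_inner_left ℂ fun η => ?_
  obtain ⟨c, μ, hfin, hμ, hr⟩ := lin_rel E' E' S ξ η
  have hn : ∀ i, μ i (Set.Icc (-K) K)ᶜ = 0 := fun i => by
    obtain ⟨v, hv⟩ : ∃ v, μ i = E'.μ v := (hμ i).elim id id
    rw [hv, h2, Measure.map_apply hφ measurableSet_Icc.compl]
    have : φ ⁻¹' (Set.Icc (-K) K)ᶜ = ∅ :=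
      Set.eq_empty_of_forall_notMem fun z hz => hz (abs_le.1 (hK z))
    rw [this, measure_empty]
  let f₀ : ℝ → ℂ := (Set.Icc (-K) K).indicator fun l => (l : ℂ)
  have b0 : BM f₀ := BM.indicator_of_bdd Complex.measurable_ofReal measurableSet_Icc K
    fun l hl => by rw [Complex.norm_real, Real.norm_eq_abs]; exact abs_le.2 hl
  have p1 : E'.Φ f₀ = E.Φ fun z => (φ z : ℂ) := by
    rw [h1]
    exact congrArg E.Φ (funext fun z => Set.indicator_of_mem (s := Set.Icc (-K) K)
      (abs_le.1 (hK z)) _)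
  have h3 := lin_ext_poly μ K hn c (fun n => by
    have : ∀ i, ∫ l, (l : ℂ) ^ n ∂(μ i) = ∫ l, f₀ l ^ n ∂(μ i) := fun i => by
      have : ∀ᵐ l ∂(μ i), l ∈ Set.Icc (-K) K := hn i
      refine integral_congr_ae ?_
      filter_upwards [this] with l hl
      rw [show f₀ l = l from Set.indicator_of_mem (s := Set.Icc (-K) K) hl _]
    simp only [this]
    rw [hr _ (b0.pow n), E'.map_pow b0, p1, sub_eq_zero]
    exact congrArg _ (DFunLike.congr_fun (hS.pow_right n) ξ)) f hf
  exact sub_eq_zero.1 ((hr f hf).symm.trans h3)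

/-- a normal operator has the same commutant as some self-adjoint operator -/
theorem exists_selfAdjoint {A : H →L[ℂ] H} (hA : IsStarNormal A) :
    ∃ B : H →L[ℂ] H, IsSelfAdjoint B ∧ ∀ S : H →L[ℂ] H, Commute S A ↔ Commute S B := by
  obtain ⟨X, _, E, Z, hZ, rfl, hc⟩ := exists_setup A hA
  let e : ℂ ≃ᵐ ℝ := PolishSpace.measurableEquivOfNotCountable
    (not_countable_iff.2 Complex.ofReal_injective.uncountable) (not_countable_iff.2 inferInstance)
  let φ : X → ℝ := fun z => Real.arctan (e (Z z))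
  have hφ : Measurable φ := Real.measurable_arctan.comp (e.measurable.comp hZ.1)
  have hK : ∀ z, |φ z| ≤ Real.pi / 2 := fun z =>
    abs_le.2 ⟨(Real.neg_pi_div_two_lt_arctan _).le, (Real.arctan_lt_pi_div_two _).le⟩
  have hb : BM fun z => (φ z : ℂ) := ⟨Complex.measurable_ofReal.comp hφ, Real.pi / 2, fun z => by
    rw [Complex.norm_real, Real.norm_eq_abs]; exact hK z⟩
  refine ⟨E.Φ fun z => (φ z : ℂ), E.isSelfAdjoint hb, fun S => ⟨fun h => hc S h _ hb,
    fun h => ?_⟩⟩
  obtain ⟨R, hR⟩ := hZ.2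
  have ht : Measurable Real.tan := by
    have : Real.tan = fun t => Real.sin t / Real.cos t := funext Real.tan_eq_sin_div_cos
    rw [this]
    fun_prop
  have hψ : Measurable fun t : ℝ => e.symm (Real.tan t) := e.symm.measurable.comp ht
  have hf : BM ({t : ℝ | ‖e.symm (Real.tan t)‖ ≤ R}.indicator fun t => e.symm (Real.tan t)) :=
    BM.indicator_of_bdd hψ (measurableSet_le hψ.norm measurable_const) R fun t ht => ht
  have h1 := commute_of_real E hφ hK h hf
  have e1 : ∀ z, e.symm (Real.tan (φ z)) = Z z := fun z => by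
    simp only [φ, Real.tan_arctan, MeasurableEquiv.symm_apply_apply]
  have e2 : (fun z => {t : ℝ | ‖e.symm (Real.tan t)‖ ≤ R}.indicator
      (fun t => e.symm (Real.tan t)) (φ z)) = Z := funext fun z => by
    rw [Set.indicator_of_mem (s := {t : ℝ | ‖e.symm (Real.tan t)‖ ≤ R}), e1]
    change ‖e.symm (Real.tan (φ z))‖ ≤ R
    rw [e1]
    exact hR z
  rwa [e2] at h1

theorem reductive_of_selfAdjoint {B : H →L[ℂ] H} (hB : IsSelfAdjoint B) : Reductive B :=
  fun M hM => by
    have := orth_mem_Lat hM.2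
    rwa [hB.star_eq] at this

theorem Lat_subset_of_commute {A B : H →L[ℂ] H} (hA : Reductive A)
    (h : ∀ S : H →L[ℂ] H, Commute S A → Commute S B) : Lat A ⊆ Lat B := fun M hM => by
  obtain ⟨P, hP⟩ := exists_proj hM.1
  exact ⟨hM.1, fun x hx => hP.inv_of_commute (h P (hP.commute hM.2 (hA M hM).2)) hx⟩

end Pool.Agent.P.MP_d8da86_an
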