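import Pool.Agent.P.MP_d8da86_an.Mod

open scoped InnerProductSpace ComplexConjugate
open MeasureTheory Filter Topology

set_option linter.unusedSectionVars false
set_option linter.unusedVariables false

noncomputable section

namespace Pool.Agent.P.MP_d8da86_an

variable {H : Type*} [NormedAddCommGroup H] [InnerProductSpace ℂ H] [CompleteSpace H]

theorem dense_of_inj {A T : H →L[ℂ] H} (hA : IsStarNormal A) (hf : FiniteCommutant A)
    (hT : Commute T A) (hi : ∀ x, T x = 0 → x = 0) {y : H} (hy : ∀ x, ⟪y, T x⟫_ℂ = 0) :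
    y = 0 := by
  obtain ⟨R, hR⟩ : ∃ R, R = CFC.abs T := ⟨_, rfl⟩
  have hsa : star R = R := hR ▸ (IsSelfAdjoint.of_nonneg (CFC.abs_nonneg T))
  have hRA : Commute R A := hR ▸ hT.cfcAbs_left (hA.commute_star_right hT)
  have hn : ∀ x, ‖R x‖ = ‖T x‖ := fun x => by
    rw [← sq_eq_sq₀ (norm_nonneg _) (norm_nonneg _), norm_sq_apply, norm_sq_apply, hsa, hR,
      CFC.abs_mul_abs]
  have hd : DenseRange (R : H →ₗ[ℂ] H) := by
    intro x
    have : x ∈ (LinearMap.range (R : H →ₗ[ℂ] H)).topologicalClosure := mem_clo.2 fun w hw => by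
      have h1 : R w = 0 := by
        refine ext_inner_left ℂ fun u => ?_
        rw [← hsa, inner_star_right, inner_zero_right]
        exact mem_orth.1 hw _ ⟨u, rfl⟩
      rw [hi w (norm_eq_zero.1 (by rw [← hn, h1, norm_zero])), inner_zero_left]
    exact this
  obtain ⟨V, hV⟩ : ∃ V : H →L[ℂ] H, ∀ x, V (R x) = T x :=
    ⟨(T : H →ₗ[ℂ] H).extendOfNorm (R : H →ₗ[ℂ] H), fun x =>
      LinearMap.extendOfNorm_eq hd ⟨1, fun x => by simpa using (hn x).ge⟩ x⟩
  have h1 : V * A = A * V := by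
    ext1 u
    refine hd.induction_on (p := fun u => (V * A) u = (A * V) u) u
      (isClosed_eq (V * A).continuous (A * V).continuous) fun x => ?_
    have e1 : R (A x) = A (R x) := DFunLike.congr_fun hRA x
    have e2 : T (A x) = A (T x) := DFunLike.congr_fun hT x
    change V (A (R x)) = A (V (R x))
    rw [← e1, hV, hV, e2]
  have h2 : ∀ u, ‖V u‖ = ‖u‖ := fun u =>
    hd.induction_on (p := fun u => ‖V u‖ = ‖u‖) u
      (isClosed_eq V.continuous.norm continuous_norm) fun x => by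
        change ‖V (R x)‖ = ‖R x‖
        rw [hV, hn]
  have h3 : star V * V = 1 := ext_inner_self fun u => by
    change ⟪u, (star V) (V u)⟫_ℂ = ⟪u, u⟫_ℂ
    rw [inner_star_right, inner_self_eq_norm_sq_to_K, inner_self_eq_norm_sq_to_K, h2]
  have h4 := hf V h1 h3
  have h5 : ∀ u, ⟪y, V u⟫_ℂ = 0 := fun u =>
    hd.induction_on (p := fun u => ⟪y, V u⟫_ℂ = 0) u
      (isClosed_eq (continuous_const.inner V.continuous) continuous_const) fun x => by
        change ⟪y, V (R x)⟫_ℂ = 0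
        rw [hV, hy]
  have h6 : V ((star V) y) = y := DFunLike.congr_fun h4 y
  have h7 := h5 ((star V) y)
  rw [h6] at h7
  exact inner_self_eq_zero.1 h7

theorem cancel_of_finite {A : H →L[ℂ] H} (hA : IsStarNormal A) (hr : Reductive A)
    (hf : FiniteCommutant A) {a b r : Submodule ℂ H} (ha : a ∈ Lat A) (hb : b ∈ Lat A)
    (hr' : r ∈ Lat A) (hab : a ≤ b) (h1 : b ≤ (a ⊔ r).topologicalClosure) (h2 : b ⊓ r ≤ a) :
    b ≤ a := by
  have hd := inf_mem_Lat hb hr'
  obtain ⟨Pa, pa⟩ := exists_proj ha.1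
  obtain ⟨Pb, pb⟩ := exists_proj hb.1
  obtain ⟨Pr, pr⟩ := exists_proj hr'.1
  obtain ⟨Pd, pd⟩ := exists_proj hd.1
  have ca := pa.commute ha.2 (hr _ ha).2
  have cb := pb.commute hb.2 (hr _ hb).2
  have cr := pr.commute hr'.2 (hr _ hr').2
  have cd := pd.commute hd.2 (hr _ hd).2
  have hT : Commute (Pa * (1 - Pr) * Pb + Pd + (1 - Pb)) A :=
    (((ca.mul_left ((Commute.one_left A).sub_left cr)).mul_left cb).add_left cd).add_left
      ((Commute.one_left A).sub_left cb)
  have hTx : ∀ x, (Pa * (1 - Pr) * Pb + Pd + (1 - Pb)) x =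
      Pa (Pb x - Pr (Pb x)) + Pd x + (x - Pb x) := fun x => rfl
  intro v hv
  have hy : v - Pa v = 0 := by
    refine dense_of_inj hA hf hT (fun x hx => ?_) fun x => ?_
    · rw [hTx] at hx
      have m1 : Pa (Pb x - Pr (Pb x)) + Pd x ∈ b := b.add_mem (hab (pa.mem _)) (pd.mem x).1
      have e1 : x - Pb x = 0 := by
        refine eq_zero_of_mem_orth ?_ (pb.sub x)
        rw [eq_neg_of_add_eq_zero_right hx]
        exact b.neg_mem m1
      have e2 : Pb x = x := (sub_eq_zero.1 e1).symm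
      rw [e1, add_zero, e2] at hx
      have e3 : Pd x = 0 := by
        refine eq_zero_of_mem_orth (pd.mem x) ?_
        rw [eq_neg_of_add_eq_zero_right hx]
        refine Submodule.neg_mem _ (mem_orth.2 fun u hu => ?_)
        rw [← pa.symm, pa.self (h2 hu)]
        exact mem_orth.1 (pr.sub x) u hu.2
      rw [e3, add_zero] at hx
      have m2 : x - Pr x ∈ (a ⊔ r).topologicalClosure :=
        Submodule.sub_mem _ (h1 (e2 ▸ pb.mem x))
          (Submodule.le_topologicalClosure _ (Submodule.mem_sup_right (pr.mem x)))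
      have e4 : x - Pr x = 0 := inner_self_eq_zero.1
        (mem_clo.1 m2 _ (mem_orth_sup.2 ⟨pa.orth_of_zero hx, pr.sub x⟩))
      rw [← pd.self (x := x) ⟨e2 ▸ pb.mem x, sub_eq_zero.1 e4 ▸ pr.mem x⟩, e3]
    · rw [hTx, inner_add_right, inner_add_right, mem_orth'.1 (pa.sub v) _ (pa.mem _),
        mem_orth'.1 (pa.sub v) _ (h2 (pd.mem x)),
        mem_orth.1 (pb.sub x) _ (b.sub_mem hv (hab (pa.mem v)))]
      simp
  rw [sub_eq_zero.1 hy]
  exact pa.mem v

theorem modLat_of_finite {A : H →L[ℂ] H} (hA : IsStarNormal A) (hr : Reductive A)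
    (hf : FiniteCommutant A) : ModLat A := by
  intro x hx y hy z hz hxz
  refine cancel_of_finite hA hr hf (sup_mem_Lat hx (inf_mem_Lat hy hz))
    (inf_mem_Lat (sup_mem_Lat hx hy) hz) hy ?_ ?_ ?_
  · exact le_inf (Submodule.topologicalClosure_mono (sup_le_sup_left inf_le_left _))
      (clo_le hz.1 (sup_le hxz inf_le_right))
  · exact inf_le_left.trans (Submodule.topologicalClosure_mono (sup_le_sup_right
      (le_sup_left.trans (Submodule.le_topologicalClosure _)) _))
  · exact fun v hv => Submodule.le_topologicalClosure _ (Submodule.mem_sup_right ⟨hv.2, hv.1.2⟩)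

theorem finite_of_modLat {A : H →L[ℂ] H} (hA : IsStarNormal A) (hm : ModLat A) :
    FiniteCommutant A := by
  intro V hV h1
  by_contra h2
  have c1 : Commute V A := hV
  have c2 : Commute (star V) A := by
    have := (hA.commute_star_right c1).star_star
    rwa [star_star] at this
  have hW : ∀ x, (star V) (V x) = x := fun x => DFunLike.congr_fun h1 x
  obtain ⟨k, hk0, hk⟩ : ∃ k : H, k ≠ 0 ∧ (star V) k = 0 := by
    by_contra h
    push Not at h
    refine h2 (ContinuousLinearMap.ext fun x => ?_)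
    by_contra h3
    refine h (V ((star V) x) - x) (sub_ne_zero.2 h3) ?_
    rw [map_sub, hW, sub_self]
  obtain ⟨φ, hφ⟩ : ∃ φ : ℕ → (H →L[ℂ] H), φ = fun n => (1 - V * star V) * star V ^ n := ⟨_, rfl⟩
  have cφ : ∀ n, Commute (φ n) A := fun n => by
    rw [hφ]
    exact ((Commute.one_left A).sub_left (c1.mul_left c2)).mul_left (c2.pow_left n)
  have φ0 : ∀ x, φ 0 x = x - V ((star V) x) := fun x => by rw [hφ]; simp
  have φs : ∀ n x, φ (n + 1) x = φ n ((star V) x) := fun n x => by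
    rw [hφ]
    simp only [pow_succ]
    rfl
  have φe : ∀ n x, φ n x = φ 0 ((star V ^ n) x) := fun n x => by rw [hφ]; simp
  have φk : ∀ n m : ℕ, φ n ((V ^ m) k) = if n = m then k else 0 := by
    intro n
    induction n with
    | zero =>
      intro m
      rcases m with _ | m
      · simp [φ0, hk]
      · rw [φ0, pow_succ_apply, hW, sub_self, if_neg (by omega)]
    | succ n ih =>
      intro m
      rcases m with _ | m
      · simp [φs, hk]
      · rw [φs, pow_succ_apply, hW, ih]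
        simp
  have nV : ∀ x, ‖V x‖ = ‖x‖ := fun x => by
    rw [← sq_eq_sq₀ (norm_nonneg _) (norm_nonneg _), norm_sq_apply, h1, one_apply_eq_self,
      inner_self_eq_norm_sq_to_K]
    norm_cast
  have n0 : ∀ u, ‖φ 0 u‖ ^ 2 = ‖u‖ ^ 2 - ‖(star V) u‖ ^ 2 := fun u => by
    have o : ⟪V ((star V) u), u - V ((star V) u)⟫_ℂ = 0 := by
      rw [← inner_star_right, map_sub, hW, sub_self, inner_zero_right]
    have := norm_add_sq_eq_norm_sq_add_norm_sq_of_inner_eq_zero _ _ o
    rw [add_sub_cancel, nV] at this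
    rw [φ0]
    linarith
  have lim : ∀ x, Tendsto (fun n => φ n x) atTop (𝓝 0) := fun x => by
    have s : Summable fun n => ‖φ n x‖ ^ 2 := by
      refine summable_of_sum_range_le (c := ‖x‖ ^ 2) (fun n => sq_nonneg _) fun N => ?_
      have e : ∀ n, ‖φ n x‖ ^ 2 = ‖(star V ^ n) x‖ ^ 2 - ‖(star V ^ (n + 1)) x‖ ^ 2 := fun n => by
        rw [φe, n0, pow_succ_apply]
      simp only [e]
      rw [Finset.sum_range_sub' fun n => ‖(star V ^ n) x‖ ^ 2]
      simp
    have t := s.tendsto_atTop_zero.sqrt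
    simp only [Real.sqrt_sq (norm_nonneg _), Real.sqrt_zero] at t
    exact tendsto_zero_iff_norm_tendsto_zero.2 t
  have kerI : ∀ T : ℕ → (H →L[ℂ] H), (∀ n, Commute (T n) A) →
      (⨅ n, LinearMap.ker (T n : H →ₗ[ℂ] H)) ∈ Lat A := fun T hT =>
    ⟨by
      rw [Submodule.coe_iInf]
      exact isClosed_iInter fun n => (ker_mem_Lat (hT n)).1, fun x hx =>
      (Submodule.mem_iInf _).2 fun n => (ker_mem_Lat (hT n)).2 x ((Submodule.mem_iInf _).1 hx n)⟩
  obtain ⟨ψ, hψ⟩ : ∃ ψ : ℕ → (H →L[ℂ] H), ψ = fun n => (2 : ℂ) ^ n • φ (2 * n + 1) - φ (2 * n) :=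
    ⟨_, rfl⟩
  have cψ : ∀ n, Commute (ψ n) A := fun n => by
    rw [hψ]
    exact ((cφ _).smul_left _).sub_left (cφ _)
  have ψe : ∀ n x, ψ n x = (2 : ℂ) ^ n • φ (2 * n + 1) x - φ (2 * n) x := fun n x => by
    rw [hψ]; rfl
  have la := kerI ψ cψ
  have lr := kerI (fun n => φ (2 * n + 1)) fun n => cφ _
  have lb := kerI (fun n => ψ n - ψ 0) fun n => (cψ n).sub_left (cψ 0)
  have ma : ∀ x, x ∈ (⨅ n, LinearMap.ker (ψ n : H →ₗ[ℂ] H)) ↔ ∀ n, ψ n x = 0 := fun x =>
    Submodule.mem_iInf _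
  have mr : ∀ x, x ∈ (⨅ n, LinearMap.ker (φ (2 * n + 1) : H →ₗ[ℂ] H)) ↔
      ∀ n, φ (2 * n + 1) x = 0 := fun x => Submodule.mem_iInf _
  have mb : ∀ x, x ∈ (⨅ n, LinearMap.ker ((ψ n - ψ 0 : H →L[ℂ] H) : H →ₗ[ℂ] H)) ↔
      ∀ n, ψ n x - ψ 0 x = 0 := fun x => Submodule.mem_iInf _
  have key := hm _ la _ lr _ lb fun x hx => (mb x).2 fun n => by
    rw [(ma x).1 hx n, (ma x).1 hx 0, sub_self]
  have hs : Summable fun j : ℕ => ((2 : ℂ) ^ j)⁻¹ • (V ^ (2 * j + 1)) k := by
    refine Summable.of_norm_bounded (summable_geometric_two.mul_right ‖k‖) fun j => ?_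
    have : ∀ m : ℕ, ‖(V ^ m) k‖ = ‖k‖ := fun m => by
      induction m with
      | zero => simp
      | succ m ih => rw [pow_succ_apply, nV, ih]
    rw [norm_smul, this]
    simp
  obtain ⟨w, hw⟩ := hs
  have w1 : ∀ n, φ (2 * n + 1) w = ((2 : ℂ) ^ n)⁻¹ • k := fun n => by
    refine (hw.mapL (φ (2 * n + 1))).unique ?_
    refine (hasSum_single n fun j hj => ?_).trans_eq (by rw [map_smul, φk, if_pos rfl])
    rw [map_smul, φk, if_neg (by omega), smul_zero]
  have w2 : ∀ n, φ (2 * n) w = 0 := fun n => by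
    refine (hw.mapL (φ (2 * n))).unique ?_
    have : (fun j : ℕ => φ (2 * n) (((2 : ℂ) ^ j)⁻¹ • (V ^ (2 * j + 1)) k)) = fun _ => 0 :=
      funext fun j => by rw [map_smul, φk, if_neg (by omega), smul_zero]
    rw [this]
    exact hasSum_zero
  have w3 : ∀ n, ψ n w = k := fun n => by
    rw [ψe, w1, w2, sub_zero, smul_smul, mul_inv_cancel₀ (pow_ne_zero _ two_ne_zero),
      one_smul]
  have w4 : w ∈ ((⨅ n, LinearMap.ker (ψ n : H →ₗ[ℂ] H)) ⊔
      ⨅ n, LinearMap.ker (φ (2 * n + 1) : H →ₗ[ℂ] H)).topologicalClosure := by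
    refine mem_closure_of_tendsto hw.tendsto_sum_nat (Eventually.of_forall fun N => ?_)
    refine Submodule.sum_mem _ fun j _ => ?_
    rw [← add_sub_cancel_right (((2 : ℂ) ^ j)⁻¹ • (V ^ (2 * j + 1)) k) ((V ^ (2 * j)) k)]
    refine Submodule.sub_mem _ (Submodule.mem_sup_left ((ma _).2 fun n => ?_))
      (Submodule.mem_sup_right ((mr _).2 fun n => ?_))
    · rw [ψe, map_add, map_add, map_smul, map_smul, φk, φk, φk, φk,
        if_neg (show 2 * n + 1 ≠ 2 * j by omega), if_neg (show 2 * n ≠ 2 * j + 1 by omega)]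
      by_cases h : n = j
      · subst h
        simp [smul_smul]
      · rw [if_neg (by omega), if_neg (by omega)]
        simp
    · rw [φk, if_neg (by omega)]
  have w5 := key ⟨w4, (mb w).2 fun n => by rw [w3, w3, sub_self]⟩
  have w6 := clo_le la.1 (sup_le le_rfl fun x hx => ?_) w5
  · exact hk0 ((w3 0).symm.trans ((ma w).1 w6 0))
  · have e1 : ∀ n, ψ n x = -φ (2 * n) x := fun n => by
      rw [ψe, (mr x).1 hx.1 n, smul_zero, zero_sub]
    have e2 : ∀ n, ψ n x = ψ 0 x := fun n => sub_eq_zero.1 ((mb x).1 hx.2 n)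
    have t : Tendsto (fun n => -φ (2 * n) x) atTop (𝓝 (-0)) :=
      ((lim x).comp (tendsto_id.const_mul_atTop' two_pos)).neg
    have e3 : ψ 0 x = 0 := by
      rw [neg_zero] at t
      exact tendsto_nhds_unique (tendsto_const_nhds.congr fun n => (e2 n).symm.trans (e1 n)) t
    exact (ma x).2 fun n => (e2 n).trans e3

end Pool.Agent.P.MP_d8da86_an
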