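import Pool.Agent.P.MP_d8da86_an.Compl
import Pool.Agent.P.MP_d8da86_an.Fin
import Pool.Agent.P.MP_d8da86_an.SA

open scoped InnerProductSpace ComplexConjugate

set_option linter.unusedSectionVars false
set_option linter.unusedVariables false

noncomputable section

namespace Pool.Agent.P.MP_d8da86_an

variable {H : Type*} [NormedAddCommGroup H] [InnerProductSpace ℂ H] [CompleteSpace H]
variable {L : Type*} [Lattice L] {A : H →L[ℂ] H}

theorem modular_iff (e : L ≃o Lat A) : IsModularLattice L ↔ ModLat A := by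
  constructor
  · intro h M₁ h1 N hN M₂ h2 h12
    obtain ⟨a, rfl⟩ := exists_val e h1
    obtain ⟨b, rfl⟩ := exists_val e hN
    obtain ⟨c, rfl⟩ := exists_val e h2
    rw [← val_inf, ← val_sup, ← val_sup, ← val_inf, ← le_iff_val]
    exact sup_inf_le_assoc_of_le b ((le_iff_val e).2 h12)
  · intro h
    refine ⟨fun {x} y {z} hxz => ?_⟩
    rw [le_iff_val e, val_inf, val_sup, val_sup, val_inf]
    exact h _ (e x).2 _ (e y).2 _ (e z).2 ((le_iff_val e).1 hxz)

theorem secLat_of [OrderBot L] (e : L ≃o Lat A)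
    (h : ∀ a b : L, a ≤ b → ∃ c, a ⊓ c = ⊥ ∧ a ⊔ c = b) : SecLat A := by
  intro M₁ h1 M₂ h2 h12
  obtain ⟨a, rfl⟩ := exists_val e h1
  obtain ⟨b, rfl⟩ := exists_val e h2
  obtain ⟨c, h3, h4⟩ := h a b ((le_iff_val e).2 h12)
  exact ⟨(e c).1, (e c).2, by rw [← val_inf, h3, val_bot], by rw [← val_sup, h4]⟩

theorem exists_ortho [OrderBot L] (e : L ≃o Lat A) (hr : Reductive A) :
    ∃ o : L → L, Antitone o ∧ Function.Involutive o ∧ (∀ a, a ⊓ o a = ⊥) ∧
      ∀ a b, a ≤ b → a ⊔ (b ⊓ o a) = b := by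
  choose o ho using fun a : L => exists_val e (hr _ (e a).2)
  refine ⟨o, fun a b hab => ?_, fun a => val_inj e ?_, fun a => val_inj e ?_,
    fun a b hab => val_inj e ?_⟩
  · rw [le_iff_val e, ho, ho]
    exact Submodule.orthogonal_le ((le_iff_val e).1 hab)
  · rw [ho, ho, orth_orth (e a).2.1]
  · rw [val_inf, ho, val_bot, Submodule.inf_orthogonal_eq_bot]
  · have h1 := (le_iff_val e).1 hab
    rw [val_sup, val_inf, ho]
    refine le_antisymm (clo_le (e b).2.1 (sup_le h1 inf_le_left)) fun v hv => ?_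
    obtain ⟨P, hP⟩ := exists_proj (e a).2.1
    refine Submodule.le_topologicalClosure _ ?_
    rw [← add_sub_cancel (P v) v]
    exact Submodule.add_mem_sup (hP.mem v) ⟨Submodule.sub_mem _ hv (h1 (hP.mem v)), hP.sub v⟩

theorem relCompl_of_ortho [OrderBot L] {o : L → L} (h1 : Antitone o) (h2 : Function.Involutive o)
    (h3 : ∀ a, a ⊓ o a = ⊥) (h4 : ∀ a b, a ≤ b → a ⊔ (b ⊓ o a) = b) (a x b : L) (hax : a ≤ x)
    (hxb : x ≤ b) : ∃ y, x ⊓ y = a ∧ x ⊔ y = b := by
  have osup : ∀ u v, o (u ⊔ v) = o u ⊓ o v := fun u v => by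
    refine le_antisymm (le_inf (h1 le_sup_left) (h1 le_sup_right)) ?_
    rw [← h2 (o u ⊓ o v)]
    refine h1 (sup_le ?_ ?_)
    · simpa only [h2 u] using h1 (inf_le_left : o u ⊓ o v ≤ o u)
    · simpa only [h2 v] using h1 (inf_le_right : o u ⊓ o v ≤ o v)
  have oinf : ∀ u v, o (u ⊓ v) = o u ⊔ o v := fun u v => by
    rw [← h2 (o u ⊔ o v), osup, h2, h2]
  refine ⟨a ⊔ (b ⊓ o x), ?_, ?_⟩
  · have h5 : a ≤ x ⊓ (a ⊔ (b ⊓ o x)) := le_inf hax le_sup_left
    have h6 : x ⊓ (a ⊔ (b ⊓ o x)) ≤ x ⊓ (a ⊔ o x) :=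
      inf_le_inf_left _ (sup_le_sup_left inf_le_right _)
    refine le_antisymm (h6.trans (le_of_eq ?_)) h5
    apply h2.injective
    rw [oinf, osup, h2]
    have h7 := h4 _ _ (h1 hax)
    rwa [h2] at h7
  · rw [← sup_assoc, sup_eq_left.2 hax]
    exact h4 x b hxb

theorem exists_sa_Lat (hA : IsStarNormal A) (hr : Reductive A) :
    ∃ B : H →L[ℂ] H, IsSelfAdjoint B ∧ Lat B = Lat A ∧
      (FiniteCommutant A → FiniteCommutant B) := by
  obtain ⟨B, hB, h⟩ := exists_selfAdjoint hA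
  exact ⟨B, hB, (Lat_subset_of_commute (reductive_of_selfAdjoint hB) fun S => (h S).2).antisymm
    (Lat_subset_of_commute hr fun S => (h S).1), fun hf V hV => hf V ((h V).2 hV)⟩

end Pool.Agent.P.MP_d8da86_an
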