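import Pool.Agent.P.MP_d8da86_an.Alg

open scoped InnerProductSpace ComplexConjugate
open MeasureTheory Filter Topology

set_option linter.unusedSectionVars false
set_option linter.unusedVariables false

noncomputable section

namespace Pool.Agent.P.MP_d8da86_an

variable {H : Type*} [NormedAddCommGroup H] [InnerProductSpace ℂ H] [CompleteSpace H]

/-- a pair of orthogonal reducing subspaces in good position with respect to `M` -/
structure Good (A : H →L[ℂ] H) (M : Submodule ℂ H) (P : H →L[ℂ] H) (N₁ N₂ : Submodule ℂ H) :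
    Prop where
  l1 : N₁ ∈ Lat A
  s1 : N₁ ∈ Lat (star A)
  l2 : N₂ ∈ Lat A
  s2 : N₂ ∈ Lat (star A)
  orth : N₁ ≤ N₂ᗮ
  inv : ∀ b, b ∈ N₁ᗮ → b ∈ N₂ᗮ → P b ∈ N₁ᗮ ∧ P b ∈ N₂ᗮ
  z1 : ∀ x ∈ N₁, x ∈ M → x = 0
  z2 : ∀ x ∈ N₂, x ∈ Mᗮ → x = 0

theorem le_orth_symm {K L : Submodule ℂ H} (h : K ≤ Lᗮ) : L ≤ Kᗮ :=
  fun x hx => mem_orth.2 fun u hu => mem_orth'.1 (h hu) x hx

theorem good_core {M N₁ N₂ : Submodule ℂ H} {P : H →L[ℂ] H} (hP : IsProj M P)
    (h1 : IsClosed (N₁ : Set H)) (ho : N₁ ≤ N₂ᗮ)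
    (inv : ∀ b, b ∈ N₁ᗮ → b ∈ N₂ᗮ → P b ∈ N₁ᗮ ∧ P b ∈ N₂ᗮ) (z : ∀ x ∈ N₁, x ∈ M → x = 0)
    {x : H} (hx : x ∈ M) (hx2 : x ∈ N₂ᗮ) : x ∈ N₁ᗮ := by
  obtain ⟨Q, hQ⟩ := exists_proj h1
  have ha := hQ.mem x
  have hb := hQ.sub x
  have hb2 : x - Q x ∈ N₂ᗮ := N₂ᗮ.sub_mem hx2 (ho ha)
  have e : Q x - P (Q x) = P (x - Q x) - (x - Q x) := by
    rw [map_sub, hP.self hx]
    abel
  have c1 : Q x - P (Q x) ∈ N₁ᗮ := e ▸ N₁ᗮ.sub_mem (inv _ hb hb2).1 hb
  have c2 : Q x - P (Q x) ∈ N₂ᗮ := e ▸ N₂ᗮ.sub_mem (inv _ hb hb2).2 hb2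
  have h0 : ⟪Q x - P (Q x), Q x - P (Q x)⟫_ℂ = 0 := by
    conv_lhs => rw [inner_sub_left, hP.symm]
    rw [mem_orth.1 c1 _ ha, mem_orth.1 (inv _ c1 c2).1 _ ha, sub_zero]
  have h3 : Q x = P (Q x) := sub_eq_zero.1 (inner_self_eq_zero.1 h0)
  exact hQ.orth_of_zero (z _ ha (h3 ▸ hP.mem _))

theorem mem_orth_iSup {ι : Type*} {N : ι → Submodule ℂ H} {v : H} :
    v ∈ (⨆ i, N i).topologicalClosureᗮ ↔ ∀ i, v ∈ (N i)ᗮ := by
  rw [orth_clo, ← Submodule.iInf_orthogonal, Submodule.mem_iInf]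

theorem iSup_mem_Lat {ι : Type*} {A : H →L[ℂ] H} {N : ι → Submodule ℂ H}
    (h : ∀ i, N i ∈ Lat A) : (⨆ i, N i).topologicalClosure ∈ Lat A := by
  refine clo_mem_Lat fun x hx => Submodule.le_topologicalClosure _ ?_
  have : (⨆ i, N i) ≤ (⨆ i, N i).comap (A : H →ₗ[ℂ] H) :=
    iSup_le fun i y hy => Submodule.mem_iSup_of_mem i ((h i).2 y hy)
  exact this hx

theorem le_clo_iSup {ι : Type*} (N : ι → Submodule ℂ H) (i : ι) :
    N i ≤ (⨆ i, N i).topologicalClosure :=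
  (le_iSup N i).trans (Submodule.le_topologicalClosure _)

theorem good_iSup {ι : Type*} {A : H →L[ℂ] H} {M : Submodule ℂ H} {P : H →L[ℂ] H}
    (hM : IsClosed (M : Set H)) (hP : IsProj M P) {N₁ N₂ : ι → Submodule ℂ H}
    (h : ∀ i, Good A M P (N₁ i) (N₂ i)) (ho : ∀ i j, N₁ i ≤ (N₂ j)ᗮ) :
    Good A M P (⨆ i, N₁ i).topologicalClosure (⨆ i, N₂ i).topologicalClosure := by
  have o : (⨆ i, N₁ i).topologicalClosure ≤ (⨆ i, N₂ i).topologicalClosureᗮ :=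
    clo_le (Submodule.isClosed_orthogonal _) (iSup_le fun i x hx =>
      mem_orth_iSup.2 fun j => ho i j hx)
  refine ⟨iSup_mem_Lat fun i => (h i).l1, iSup_mem_Lat fun i => (h i).s1,
    iSup_mem_Lat fun i => (h i).l2, iSup_mem_Lat fun i => (h i).s2, o, fun b h1 h2 => ?_,
    fun x hx hxM => ?_, fun x hx hxM => ?_⟩
  · rw [mem_orth_iSup] at h1 h2
    exact ⟨mem_orth_iSup.2 fun i => ((h i).inv b (h1 i) (h2 i)).1,
      mem_orth_iSup.2 fun i => ((h i).inv b (h1 i) (h2 i)).2⟩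
  · refine eq_zero_of_mem_orth hx (mem_orth_iSup.2 fun i => ?_)
    exact good_core hP (h i).l1.1 (h i).orth (h i).inv (h i).z1 hxM (mem_orth_iSup.1 (o hx) i)
  · refine eq_zero_of_mem_orth hx (mem_orth_iSup.2 fun i => ?_)
    refine good_core (hP.orth hM) (h i).l2.1 (le_orth_symm (h i).orth) (fun b h1 h2 => ?_)
      (h i).z2 hxM (mem_orth_iSup.1 (le_orth_symm o hx) i)
    exact ⟨Submodule.sub_mem _ h1 ((h i).inv b h2 h1).2,
      Submodule.sub_mem _ h2 ((h i).inv b h2 h1).1⟩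

theorem approx_of_triv {W K : Submodule ℂ H} {Q PK R : H →L[ℂ] H} (hK : IsClosed (K : Set H))
    (hQ : IsProj W Q) (hPK : IsProj K PK) (h1 : Commute PK Q) (hR : star R = R)
    (h2 : Commute Q R) (h : ∀ y ∈ W, R y = 0 → y ∈ K → y = 0) {x : H} (hx : x ∈ W) {ε : ℝ}
    (hε : 0 < ε) : ∃ u ∈ Kᗮ, ∃ w, ‖u + R w - x‖ < ε := by
  have : x ∈ (Kᗮ ⊔ LinearMap.range (R : H →ₗ[ℂ] H)).topologicalClosure := by
    refine mem_clo.2 fun y hy => ?_
    obtain ⟨hy1, hy2⟩ := mem_orth_sup.1 hy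
    rw [orth_orth hK] at hy1
    have h3 : R y = 0 := by
      refine ext_inner_left ℂ fun w => ?_
      rw [← hR, inner_star_right, inner_zero_right]
      exact mem_orth.1 hy2 _ ⟨w, rfl⟩
    have h4 : Q (R y) = R (Q y) := DFunLike.congr_fun h2 y
    rw [h3, map_zero] at h4
    exact mem_orth'.1 (hQ.orth_of_zero (h _ (hQ.mem y) h4.symm (hPK.inv_of_commute h1 hy1))) x hx
  obtain ⟨b, hb, hd⟩ := Metric.mem_closure_iff.1 this ε hε
  obtain ⟨u, hu, _, ⟨w, rfl⟩, rfl⟩ := Submodule.mem_sup.1 hb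
  refine ⟨u, hu, w, ?_⟩
  rw [dist_comm, dist_eq_norm] at hd
  exact hd

theorem orth_of_approx {K : Submodule ℂ H} {R : H →L[ℂ] H} (hR : star R = R) {x y : H}
    (h : ∀ m : ℕ, ∃ u ∈ Kᗮ, ∃ w, ‖u + R w - x‖ < 1 / (m + 1)) (h1 : R y = 0) (h2 : y ∈ K) :
    ⟪y, x⟫_ℂ = 0 := by
  have h3 : Tendsto (fun m : ℕ => ‖y‖ * (1 / (m + 1 : ℝ))) atTop (𝓝 (‖y‖ * 0)) :=
    tendsto_one_div_add_atTop_nhds_zero_nat.const_mul _
  rw [mul_zero] at h3
  refine norm_le_zero_iff.1 (ge_of_tendsto' h3 fun m => ?_)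
  obtain ⟨u, hu, w, hw⟩ := h m
  have e : ⟪y, x⟫_ℂ = -⟪y, u + R w - x⟫_ℂ := by
    rw [inner_sub_right, inner_add_right, mem_orth.1 hu y h2, ← hR, inner_star_right, h1,
      inner_zero_left]
    simp
  rw [e, norm_neg]
  exact (norm_inner_le_norm _ _).trans (mul_le_mul_of_nonneg_left hw.le (norm_nonneg _))

theorem exists_sep (T : Fin 3 → (H →L[ℂ] H)) (v : H) : ∃ (W : Submodule ℂ H) (x : ℕ → H),
    (∀ i, W ∈ Lat (T i)) ∧ v ∈ W ∧ (∀ k, x k ∈ W) ∧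
      ∀ V : Submodule ℂ H, IsClosed (V : Set H) →
        ((∀ k, x k ∈ V) → W ≤ V) ∧ (v ∈ V → (∀ i, ∀ y ∈ V, T i y ∈ V) → W ≤ V) := by
  let g : List (Fin 3) → H := fun l => l.foldr (fun i y => T i y) v
  obtain ⟨s, hs⟩ := exists_surjective_nat (List (Fin 3))
  have hg : ∀ l, g l ∈ (Submodule.span ℂ (Set.range g)).topologicalClosure := fun l =>
    Submodule.le_topologicalClosure _ (Submodule.subset_span ⟨l, rfl⟩)
  refine ⟨(Submodule.span ℂ (Set.range g)).topologicalClosure, fun k => g (s k),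
    fun i => clo_mem_Lat fun y hy => ?_, hg [], fun k => hg _, fun V hV => ⟨fun h => ?_,
      fun h1 h2 => ?_⟩⟩
  · have : Submodule.span ℂ (Set.range g) ≤
        ((Submodule.span ℂ (Set.range g)).topologicalClosure).comap (T i : H →ₗ[ℂ] H) := by
      refine Submodule.span_le.2 ?_
      rintro _ ⟨l, rfl⟩
      exact hg (i :: l)
    exact this hy
  · refine clo_le hV (Submodule.span_le.2 ?_)
    rintro _ ⟨l, rfl⟩
    obtain ⟨k, rfl⟩ := hs l
    exact h k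
  · refine clo_le hV (Submodule.span_le.2 ?_)
    rintro _ ⟨l, rfl⟩
    induction l with
    | nil => exact h1
    | cons i l ih => exact h2 i _ ih

/-- the union of the pieces chosen by `s` -/
def pick {X : Type} (D : ℕ → Set X) (s : ℕ → Bool) : Set X := {z | ∃ j, s j = true ∧ z ∈ D j}

theorem measurableSet_pick {X : Type} [MeasurableSpace X] {D : ℕ → Set X}
    (hD : ∀ j, MeasurableSet (D j)) (s : ℕ → Bool) : MeasurableSet (pick D s) := by
  have : pick D s = ⋃ j, ⋃ _ : s j = true, D j := by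
    ext z
    simp [pick]
  rw [this]
  exact MeasurableSet.iUnion fun j => MeasurableSet.iUnion fun _ => hD j

theorem continuous_pick {X : Type} [MeasurableSpace X] (E : SpecCalc X H) {D : ℕ → Set X}
    (hD : ∀ j, MeasurableSet (D j)) (hd : Pairwise (Function.onFun Disjoint D)) (w : H) :
    Continuous fun s : ℕ → Bool => E.Pr (pick D s) w := by
  refine continuous_iff_continuousAt.2 fun s => ?_
  refine E.tendsto (l := 𝓝 s) (f := fun t => (pick D t).indicator fun _ => 1) 1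
    (Eventually.of_forall fun t => ⟨(BM.indicator_one (measurableSet_pick hD t)).1, fun z => ?_⟩)
    (BM.indicator_one (measurableSet_pick hD s)) (Eventually.of_forall fun z => ?_)
  · by_cases hz : z ∈ pick D t <;> simp [hz]
  · refine tendsto_const_nhds.congr' ?_
    by_cases hz : ∃ j, z ∈ D j
    · obtain ⟨j, hj⟩ := hz
      have key : ∀ t : ℕ → Bool, z ∈ pick D t ↔ t j = true := fun t =>
        ⟨fun ⟨i, hi, hz⟩ => by
          by_contra h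
          have hij : i ≠ j := fun e => h (e ▸ hi)
          exact Set.disjoint_left.1 (hd hij) hz hj, fun h => ⟨j, h, hj⟩⟩
      have : ∀ᶠ t in 𝓝 s, t j = s j :=
        ((continuous_apply j).tendsto s).eventually (p := fun b => b = s j)
          (by simp [nhds_discrete])
      filter_upwards [this] with t ht
      by_cases h : s j = true
      · rw [Set.indicator_of_mem ((key s).2 h), Set.indicator_of_mem ((key t).2 (ht.trans h))]
      · rw [Set.indicator_of_notMem (mt (key s).1 h),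
          Set.indicator_of_notMem (mt (key t).1 (ht ▸ h))]
    · refine Eventually.of_forall fun t => ?_
      have key : ∀ t : ℕ → Bool, z ∉ pick D t := fun t ⟨i, _, hi⟩ => hz ⟨i, hi⟩
      simp only [Set.indicator_of_notMem (key _)]

theorem dense_of_trunc {U : Set (ℕ → Bool)} (b : Bool)
    (h : ∀ (s : ℕ → Bool) (n : ℕ), (∀ j, n ≤ j → s j = b) → s ∈ U) : Dense U := by
  intro s
  refine mem_closure_of_tendsto (b := atTop) (f := fun n j => if j < n then s j else b) ?_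
    (Eventually.of_forall fun n => h _ n fun j hj => if_neg (not_lt.2 hj))
  refine tendsto_pi_nhds.2 fun j => tendsto_const_nhds.congr' ?_
  filter_upwards [eventually_gt_atTop j] with n hn
  rw [if_pos hn]

theorem exists_piece_pure {A : H →L[ℂ] H} (hA : IsStarNormal A) {M V : Submodule ℂ H}
    {P : H →L[ℂ] H} (hM : M ∈ Lat A) (hP : IsProj M P) (hV : V ∈ Lat A) (hV' : V ∈ Lat (star A))
    (hVP : ∀ y ∈ V, P y ∈ V) {v : H} (hv : v ∈ V) (hv0 : v ≠ 0)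
    (ha : ∀ L ∈ Lat A, L ∈ Lat (star A) → L ≤ V → L ≤ M → ∀ u ∈ L, u = 0)
    (hb : ∀ L ∈ Lat A, L ∈ Lat (star A) → L ≤ V → L ≤ Mᗮ → ∀ u ∈ L, u = 0) :
    ∃ L₁ L₂, Good A M P L₁ L₂ ∧ L₁ ≤ V ∧ L₂ ≤ V ∧ ∃ u, u ≠ 0 ∧ (u ∈ L₁ ∨ u ∈ L₂) := by
  obtain ⟨X, _, E, Z, hZ, hZA, hc⟩ := exists_setup A hA
  obtain ⟨W, x, hW, hvW, hxW, hmin⟩ := exists_sep ![A, star A, P] v
  have W1 : W ∈ Lat A := hW 0
  have W2 : W ∈ Lat (star A) := hW 1
  have W3 : W ∈ Lat P := hW 2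
  have hWV : W ≤ V := (hmin V hV.1).2 hv fun i => by
    fin_cases i
    exacts [hV.2, hV'.2, hVP]
  obtain ⟨Q, hQ⟩ := exists_proj W1.1
  have W4 : ∀ y ∈ Wᗮ, P y ∈ Wᗮ := by
    have := (orth_mem_Lat W3.2).2
    rwa [hP.star_eq] at this
  have QA : Commute Q A := hQ.commute W1.2 (orth_mem_Lat' W2.2).2
  have QP : Commute P Q := (hQ.commute W3.2 W4).symm
  have QP' : Commute (1 - P) Q := (Commute.one_left Q).sub_left QP
  haveI := E.fin
  obtain ⟨θ, S, hS, hg, hnull⟩ := exists_gaps hZ.1 fun k => E.μ (x k)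
  have hD : ∀ j, MeasurableSet (disjointed S j) := MeasurableSet.disjointed hS
  have hT := measurableSet_pick hD
  have hU : MeasurableSet (⋃ n, S n)ᶜ := (MeasurableSet.iUnion hS).compl
  have hnull' : ∀ y ∈ W, E.μ y (⋃ n, S n)ᶜ = 0 := fun y hy => by
    have : W ≤ LinearMap.ker (E.Pr (⋃ n, S n)ᶜ : H →ₗ[ℂ] H) :=
      (hmin _ (E.Pr _).isClosed_ker).1 fun k => (E.Pr_eq_zero_iff hU _).2 (hnull k)
    exact (E.Pr_eq_zero_iff hU _).1 (this hy)
  have k1 : ∀ {T : Set X}, MeasurableSet T → LinearMap.ker (E.Pr T : H →ₗ[ℂ] H) ∈ Lat A :=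
    fun hT => ker_mem_Lat (hZA ▸ E.commute (BM.indicator_one hT) hZ)
  have k2 : ∀ {T : Set X}, MeasurableSet T →
      LinearMap.ker (E.Pr T : H →ₗ[ℂ] H) ∈ Lat (star A) := fun hT =>
    ker_mem_Lat (by
      rw [← hZA, ← E.map_star hZ]
      exact E.commute (BM.indicator_one hT) hZ.star)
  have sa : ∀ {T : Set X}, MeasurableSet T → star (E.Pr T) = E.Pr T := fun hT =>
    (E.Pr_proj hT).isSelfAdjoint
  have cq : ∀ {T : Set X}, MeasurableSet T → Commute Q (E.Pr T) := fun hT =>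
    hc Q QA _ (BM.indicator_one hT)
  have hS' : ∀ n, MeasurableSet {z | ∃ j < n, z ∈ S j} := fun n => by
    have : {z | ∃ j < n, z ∈ S j} = ⋃ j, ⋃ _ : j < n, S j := by
      ext z
      simp
    rw [this]
    exact MeasurableSet.iUnion fun j => MeasurableSet.iUnion fun _ => hS j
  let U₁ : ℕ × ℕ → Set (ℕ → Bool) := fun p =>
    {s | ∃ u ∈ Mᗮ, ∃ w, ‖u + E.Pr (pick (disjointed S) s) w - x p.1‖ < 1 / (p.2 + 1)}
  let U₂ : ℕ × ℕ → Set (ℕ → Bool) := fun p =>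
    {s | ∃ u ∈ Mᗮᗮ, ∃ w, ‖u + E.Pr (pick (disjointed S) s)ᶜ w - x p.1‖ < 1 / (p.2 + 1)}
  have hcont := continuous_pick E hD (disjoint_disjointed S)
  have o1 : ∀ p, IsOpen (U₁ p) := fun p => by
    simp only [U₁, Set.setOf_exists, Set.setOf_and]
    refine isOpen_iUnion fun u => IsOpen.inter isOpen_const (isOpen_iUnion fun w => ?_)
    exact isOpen_lt (((hcont w).const_add u).sub continuous_const).norm continuous_const
  have o2 : ∀ p, IsOpen (U₂ p) := fun p => by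
    simp only [U₂, Set.setOf_exists, Set.setOf_and, E.Pr_compl (hT _)]
    refine isOpen_iUnion fun u => IsOpen.inter isOpen_const (isOpen_iUnion fun w => ?_)
    exact isOpen_lt (((continuous_const.sub (hcont w)).const_add u).sub continuous_const).norm
      continuous_const
  have d1 : ∀ p, Dense (U₁ p) := fun p => dense_of_trunc true fun s n hs => by
    refine approx_of_triv hM.1 hQ hP QP (sa (hT s)) (cq (hT s)) (fun y h1 h2 h3 => ?_)
      (hxW p.1) (by positivity)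
    have l1 := inf_mem_Lat (inf_mem_Lat W1 (k1 (hT s))) hM
    have c : Ctx E (W ⊓ LinearMap.ker (E.Pr (pick (disjointed S) s) : H →ₗ[ℂ] H) ⊓ M)
        {z | ∃ j < n, z ∈ S j} := ⟨hS' n, l1.1, fun y hy => by
      refine measure_mono_null (fun z hz => ?_)
        (measure_union_null ((E.Pr_eq_zero_iff (hT s) y).1 hy.1.2) (hnull' y hy.1.1))
      by_cases h : z ∈ ⋃ n, S n
      · rw [← iUnion_disjointed] at h
        obtain ⟨j, hj⟩ := Set.mem_iUnion.1 h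
        refine Or.inl ⟨j, hs j (not_lt.1 fun hjn => hz ⟨j, hjn, disjointed_subset S j hj⟩), hj⟩
      · exact Or.inr h⟩
    have l2 := c.red hZ (Gap.biUnion hg n) (by rw [hZA]; exact l1.2)
    rw [hZA] at l2
    exact ha _ l1 ⟨l1.1, l2⟩ (fun y hy => hWV hy.1.1) inf_le_right y ⟨⟨h1, h2⟩, h3⟩
  have d2 : ∀ p, Dense (U₂ p) := fun p => dense_of_trunc false fun s n hs => by
    refine approx_of_triv (Submodule.isClosed_orthogonal M) hQ (hP.orth hM.1) QP'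
      (sa (hT s).compl) (cq (hT s).compl) (fun y h1 h2 h3 => ?_) (hxW p.1) (by positivity)
    have l1 := inf_mem_Lat (inf_mem_Lat W2 (k2 (hT s).compl)) (orth_mem_Lat hM.2)
    have c : Ctx E (W ⊓ LinearMap.ker (E.Pr (pick (disjointed S) s)ᶜ : H →ₗ[ℂ] H) ⊓ Mᗮ)
        {z | ∃ j < n, z ∈ S j} := ⟨hS' n, l1.1, fun y hy => by
      refine measure_mono_null (fun z hz => ?_) ((E.Pr_eq_zero_iff (hT s).compl y).1 hy.1.2)
      rintro ⟨j, hj, hz'⟩
      refine hz ⟨j, not_le.1 fun hjn => ?_, disjointed_subset S j hz'⟩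
      rw [hs j hjn] at hj
      exact Bool.false_ne_true hj⟩
    have l2 := c.red' hZ (Gap.biUnion hg n) (by rw [hZA]; exact l1.2)
    rw [hZA] at l2
    exact hb _ ⟨l1.1, l2⟩ l1 (fun y hy => hWV hy.1.1) inf_le_right y ⟨⟨h1, h2⟩, h3⟩
  obtain ⟨s, hs⟩ := (dense_iInter_of_isOpen (f := fun p => U₁ p ∩ U₂ p)
    (fun p => (o1 p).inter (o2 p)) fun p => (d1 p).inter_of_isOpen_left (d2 p) (o1 p)).nonempty
  have hs' := Set.mem_iInter.1 hs
  have zero : ∀ y ∈ W, (∀ k, ⟪y, x k⟫_ℂ = 0) → y = 0 := fun y hy h => by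
    have : W ≤ LinearMap.ker ((innerSL ℂ y : H →L[ℂ] ℂ) : H →ₗ[ℂ] ℂ) :=
      (hmin _ (innerSL ℂ y).isClosed_ker).1 h
    exact inner_self_eq_zero.1 (this hy)
  obtain ⟨T, hTe⟩ : ∃ T, T = pick (disjointed S) s := ⟨_, rfl⟩
  have hTm : MeasurableSet T := hTe ▸ hT s
  have split : ∀ y, y = E.Pr T y + E.Pr Tᶜ y := fun y => by
    rw [E.Pr_compl hTm]
    simp
  have m1 : ∀ y ∈ W, E.Pr Tᶜ y ∈ W ⊓ LinearMap.ker (E.Pr T : H →ₗ[ℂ] H) := fun y hy =>
    ⟨hQ.inv_of_commute (cq hTm.compl) hy, by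
      change (E.Pr T * E.Pr Tᶜ) y = 0
      rw [E.Pr_mul hTm hTm.compl, Set.inter_compl_self, E.Pr_empty]
      rfl⟩
  have m2 : ∀ y ∈ W, E.Pr T y ∈ W ⊓ LinearMap.ker (E.Pr Tᶜ : H →ₗ[ℂ] H) := fun y hy =>
    ⟨hQ.inv_of_commute (cq hTm) hy, by
      change (E.Pr Tᶜ * E.Pr T) y = 0
      rw [E.Pr_mul hTm.compl hTm, Set.compl_inter_self, E.Pr_empty]
      rfl⟩
  refine ⟨W ⊓ LinearMap.ker (E.Pr T : H →ₗ[ℂ] H), W ⊓ LinearMap.ker (E.Pr Tᶜ : H →ₗ[ℂ] H),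
    ⟨inf_mem_Lat W1 (k1 hTm), inf_mem_Lat W2 (k2 hTm), inf_mem_Lat W1 (k1 hTm.compl),
      inf_mem_Lat W2 (k2 hTm.compl), fun y hy => mem_orth.2 fun u hu => ?_, fun b h1 h2 => ?_,
      fun y hy hyM => ?_, fun y hy hyM => ?_⟩, inf_le_left.trans hWV, inf_le_left.trans hWV, ?_⟩
  · have h1 : E.Pr T y = 0 := hy.2
    have h2 : E.Pr Tᶜ u = 0 := hu.2
    rw [split u, h2, add_zero, ← inner_star_right, sa hTm, h1, inner_zero_right]
  · have h3 : b ∈ Wᗮ := mem_orth.2 fun y hy => by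
      rw [split y, inner_add_left, mem_orth.1 h1 _ (m1 y hy), mem_orth.1 h2 _ (m2 y hy), add_zero]
    exact ⟨Submodule.orthogonal_le inf_le_left (W4 b h3),
      Submodule.orthogonal_le inf_le_left (W4 b h3)⟩
  · refine zero y hy.1 fun k => orth_of_approx (sa hTm) (fun m => ?_) hy.2 hyM
    rw [hTe]
    exact (hs' (k, m)).1
  · refine zero y hy.1 fun k => orth_of_approx (sa hTm.compl) (fun m => ?_) hy.2 hyM
    rw [hTe]
    exact (hs' (k, m)).2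
  · by_cases h : E.Pr T v = 0
    · refine ⟨E.Pr Tᶜ v, fun h' => hv0 ?_, Or.inl (m1 v hvW)⟩
      rw [split v, h, h', add_zero]
    · exact ⟨_, h, Or.inr (m2 v hvW)⟩

theorem exists_piece {A : H →L[ℂ] H} (hA : IsStarNormal A) {M V : Submodule ℂ H}
    {P : H →L[ℂ] H} (hM : M ∈ Lat A) (hP : IsProj M P) (hV : V ∈ Lat A) (hV' : V ∈ Lat (star A))
    (hVP : ∀ y ∈ V, P y ∈ V) {v : H} (hv : v ∈ V) (hv0 : v ≠ 0) :
    ∃ L₁ L₂, Good A M P L₁ L₂ ∧ L₁ ≤ V ∧ L₂ ≤ V ∧ ∃ u, u ≠ 0 ∧ (u ∈ L₁ ∨ u ∈ L₂) := by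
  by_cases ha : ∀ L ∈ Lat A, L ∈ Lat (star A) → L ≤ V → L ≤ M → ∀ u ∈ L, u = 0
  · by_cases hb : ∀ L ∈ Lat A, L ∈ Lat (star A) → L ≤ V → L ≤ Mᗮ → ∀ u ∈ L, u = 0
    · exact exists_piece_pure hA hM hP hV hV' hVP hv hv0 ha hb
    · push Not at hb
      obtain ⟨L, h1, h2, h3, h4, u, hu, hu0⟩ := hb
      refine ⟨L, ⊥, ⟨h1, h2, bot_mem_Lat _, bot_mem_Lat _, by simp, fun b h5 _ => ⟨?_, by simp⟩,
        fun y hy hyM => eq_zero_of_mem_orth hyM (h4 hy), fun y hy _ => by simpa using hy⟩, h3,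
        bot_le, u, hu0, Or.inl hu⟩
      exact mem_orth.2 fun y hy => mem_orth'.1 (h4 hy) _ (hP.mem b)
  · push Not at ha
    obtain ⟨L, h1, h2, h3, h4, u, hu, hu0⟩ := ha
    refine ⟨⊥, L, ⟨bot_mem_Lat _, bot_mem_Lat _, h1, h2, bot_le, fun b _ h5 => ⟨by simp, ?_⟩,
      fun y hy _ => by simpa using hy, fun y hy hyM => eq_zero_of_mem_orth (h4 hy) hyM⟩,
      bot_le, h3, u, hu0, Or.inr hu⟩
    refine mem_orth.2 fun y hy => ?_
    rw [← hP.symm, hP.self (h4 hy)]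
    exact mem_orth.1 h5 y hy

/-- every invariant subspace of a normal operator has a reducing lattice complement -/
theorem exists_reducing_compl {A : H →L[ℂ] H} (hA : IsStarNormal A) {M : Submodule ℂ H}
    (hM : M ∈ Lat A) : ∃ N ∈ Lat A, Nᗮ ∈ Lat A ∧ M ⊓ N = ⊥ ∧ (M ⊔ N).topologicalClosure = ⊤ := by
  obtain ⟨P, hP⟩ := exists_proj hM.1
  obtain ⟨⟨N₁, N₂⟩, hm⟩ := zorn_le₀ {p : Submodule ℂ H × Submodule ℂ H | Good A M P p.1 p.2}
    fun c hc hch => by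
      refine ⟨((⨆ i : c, i.1.1).topologicalClosure, (⨆ i : c, i.1.2).topologicalClosure),
        good_iSup hM.1 hP (fun i => hc i.2) fun i j => ?_, fun z hz =>
          ⟨le_clo_iSup (fun i : c => i.1.1) ⟨z, hz⟩, le_clo_iSup (fun i : c => i.1.2) ⟨z, hz⟩⟩⟩
      rcases hch.total i.2 j.2 with h | h
      · exact h.1.trans (hc j.2).orth
      · exact (hc i.2).orth.trans (Submodule.orthogonal_le h.2)
  have g : Good A M P N₁ N₂ := hm.prop
  have key : ∀ v, v ∈ N₁ᗮ → v ∈ N₂ᗮ → v = 0 := by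
    intro v h1 h2
    by_contra hv0
    obtain ⟨L₁, L₂, g', l1, l2, u, hu0, hu⟩ := exists_piece hA hM hP
      (inf_mem_Lat (orth_mem_Lat' g.s1.2) (orth_mem_Lat' g.s2.2))
      (inf_mem_Lat (orth_mem_Lat g.l1.2) (orth_mem_Lat g.l2.2))
      (fun y hy => g.inv y hy.1 hy.2) (v := v) ⟨h1, h2⟩ hv0
    have g2 := good_iSup hM.1 hP (N₁ := ![N₁, L₁]) (N₂ := ![N₂, L₂])
      (fun i => by fin_cases i; exacts [g, g']) fun i j => by
        fin_cases i <;> fin_cases j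
        exacts [g.orth, le_orth_symm (l2.trans inf_le_left), l1.trans inf_le_right, g'.orth]
    have h3 := hm.le_of_ge (y := (_, _)) g2
      ⟨le_clo_iSup ![N₁, L₁] 0, le_clo_iSup ![N₂, L₂] 0⟩
    rcases hu with hu | hu
    · exact hu0 (eq_zero_of_mem_orth (h3.1 (le_clo_iSup ![N₁, L₁] 1 hu)) (l1 hu).1)
    · exact hu0 (eq_zero_of_mem_orth (h3.2 (le_clo_iSup ![N₂, L₂] 1 hu)) (l2 hu).2)
  refine ⟨N₁, g.l1, orth_mem_Lat' g.s1.2, ?_, ?_⟩
  · exact (Submodule.eq_bot_iff _).2 fun y hy => g.z1 y hy.2 hy.1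
  · refine Submodule.eq_top_iff'.2 fun y => mem_clo.2 fun w hw => ?_
    obtain ⟨h1, h2⟩ := mem_orth_sup.1 hw
    obtain ⟨Q, hQ⟩ := exists_proj g.l2.1
    have h3 := key (w - Q w) (Submodule.sub_mem _ h2 (le_orth_symm g.orth (hQ.mem w))) (hQ.sub w)
    rw [g.z2 w (sub_eq_zero.1 h3 ▸ hQ.mem w) h1, inner_zero_left]

end Pool.Agent.P.MP_d8da86_an
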