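import Pool.Agent.P.MP_d8da86_an.Spec

open scoped ComplexConjugate Real
open MeasureTheory Filter Topology Metric

set_option linter.unusedSectionVars false
set_option linter.unusedVariables false

noncomputable section

namespace Pool.Agent.P.MP_d8da86_an

theorem integrableOn_inv_ball (ρ : ℝ) : IntegrableOn (fun u : ℂ => ‖u‖⁻¹) (ball 0 ρ) := by
  refine integrableOn_ball_of_norm_le_rpow (C := 1) (α := 1) (by simp) (by simp)
    (Eventually.of_forall fun u => ?_) measurable_norm.inv.aestronglyMeasurable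
  rw [Real.rpow_neg_one]
  simp

theorem integrableOn_inv_sub {R : ℝ} {w : ℂ} (hw : ‖w‖ ≤ R) :
    IntegrableOn (fun l : ℂ => ‖l - w‖⁻¹) (ball 0 R) ∧
      ∫ l in ball (0 : ℂ) R, ‖l - w‖⁻¹ ≤ ∫ u in ball (0 : ℂ) (2 * R), ‖u‖⁻¹ := by
  have h1 := (integrable_indicator_iff measurableSet_ball).2 (integrableOn_inv_ball (2 * R))
  have h2 := h1.comp_sub_right w
  have e : (fun l : ℂ => (ball (0 : ℂ) (2 * R)).indicator (fun u : ℂ => ‖u‖⁻¹) (l - w)) =
      (ball w (2 * R)).indicator fun l : ℂ => ‖l - w‖⁻¹ := by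
    funext l
    by_cases h : l ∈ ball w (2 * R)
    · rw [Set.indicator_of_mem h, Set.indicator_of_mem (by simpa [dist_eq_norm] using h)]
    · rw [Set.indicator_of_notMem h, Set.indicator_of_notMem (by simpa [dist_eq_norm] using h)]
  have hs : ball (0 : ℂ) R ⊆ ball w (2 * R) := fun l hl => by
    rw [mem_ball_zero_iff] at hl
    rw [mem_ball, dist_eq_norm]
    linarith [norm_sub_le l w]
  rw [e, integrable_indicator_iff measurableSet_ball] at h2
  refine ⟨h2.mono_set hs, ?_⟩
  rw [← integral_indicator (s := ball 0 (2 * R)) measurableSet_ball,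
    ← integral_sub_right_eq_self ((ball (0 : ℂ) (2 * R)).indicator fun u : ℂ => ‖u‖⁻¹) w, e,
    integral_indicator measurableSet_ball]
  exact setIntegral_mono_set h2 (Eventually.of_forall fun l => by positivity) hs.eventuallyLE

theorem integral_Ioo_circle (g : ℂ → ℂ) (r : ℝ) :
    ∫ θ in Set.Ioo (-π) π, g (circleMap 0 r θ) = (2 * π) • Real.circleAverage g 0 r := by
  rw [Real.circleAverage_eq_integral_add (-π), smul_smul, mul_inv_cancel₀ (by positivity),
    one_smul, intervalIntegral.integral_comp_add_right (fun θ => g (circleMap 0 r θ)),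
    intervalIntegral.integral_of_le (by linarith [Real.pi_pos]), integral_Ioc_eq_integral_Ioo]
  congr 3 <;> ring

theorem avg_in {w : ℂ} {r : ℝ} (h : ‖w‖ < r) :
    Real.circleAverage (fun l : ℂ => l / (l - w)) 0 r = 1 := by
  have h0 : 0 < r := (norm_nonneg _).trans_lt h
  have := (differentiable_const (1 : ℂ)).diffContOnCl.circleAverage_smul_div (c := 0) (R := r)
    (w := w) (by simpa [abs_of_pos h0] using h)
  simpa using this

theorem avg_out {w : ℂ} {r : ℝ} (h0 : 0 < r) (h : r < ‖w‖) :
    Real.circleAverage (fun l : ℂ => l / (l - w)) 0 r = 0 := by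
  have hd : DifferentiableOn ℂ (fun l : ℂ => l / (l - w)) (closure (ball 0 |r|)) := by
    refine DifferentiableOn.div differentiableOn_id (by fun_prop) fun l hl => ?_
    have h1 := closure_ball_subset_closedBall hl
    rw [mem_closedBall_zero_iff, abs_of_pos h0] at h1
    intro h2
    rw [sub_eq_zero.1 h2] at h1
    linarith
  simpa using hd.diffContOnCl.circleAverage

theorem integrableOn_kernel {R : ℝ} {w : ℂ} (hw : ‖w‖ ≤ R) :
    IntegrableOn (fun l : ℂ => l / (l - w)) (ball 0 R) := by
  refine ((integrableOn_inv_sub hw).1.const_mul R).mono'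
    (Measurable.aestronglyMeasurable (by fun_prop)) ?_
  refine (ae_restrict_iff' measurableSet_ball).2 (Eventually.of_forall fun l hl => ?_)
  rw [mem_ball_zero_iff] at hl
  rw [norm_div, div_eq_mul_inv]
  exact mul_le_mul_of_nonneg_right hl.le (by positivity)

theorem integral_kernel {R : ℝ} {w : ℂ} (hw : ‖w‖ ≤ R) :
    ∫ l in ball (0 : ℂ) R, l / (l - w) = ((π * (R ^ 2 - ‖w‖ ^ 2) : ℝ) : ℂ) := by
  have hi := (integrable_indicator_iff measurableSet_ball).2 (integrableOn_kernel hw)
  rw [← integral_indicator measurableSet_ball]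
  obtain ⟨f, hf⟩ : ∃ f, f = (ball (0 : ℂ) R).indicator fun l : ℂ => l / (l - w) := ⟨_, rfl⟩
  have hfm : Measurable f := by
    rw [hf]
    exact Measurable.indicator (by fun_prop) measurableSet_ball
  rw [← hf] at hi ⊢
  have hc : Continuous fun p : ℝ × ℝ => Complex.polarCoord.symm p := by
    simp only [Complex.polarCoord_symm_apply]
    fun_prop
  have h1 : IntegrableOn (fun p : ℝ × ℝ => p.1 • f (Complex.polarCoord.symm p))
      polarCoord.target := by
    refine ⟨(measurable_fst.smul (hfm.comp hc.measurable)).aestronglyMeasurable, ?_⟩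
    have h2 := hi.2
    rw [hasFiniteIntegral_iff_enorm] at h2 ⊢
    rw [← Complex.lintegral_comp_polarCoord_symm] at h2
    refine lt_of_eq_of_lt (setLIntegral_congr_fun polarCoord.open_target.measurableSet
      fun p hp => ?_) h2
    have h3 : 0 < p.1 := hp.1
    simp only [enorm_smul, smul_eq_mul, Real.enorm_eq_ofReal h3.le]
  rw [← Complex.integral_comp_polarCoord_symm, polarCoord_target, Measure.volume_eq_prod,
    setIntegral_prod _ h1]
  have h2 : ∀ r : ℝ, 0 < r → r ≠ ‖w‖ →
      ∫ θ in Set.Ioo (-π) π, r • f (Complex.polarCoord.symm (r, θ)) =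
        (Set.Ioo ‖w‖ R).indicator (fun r : ℝ => ((2 * π * r : ℝ) : ℂ)) r := by
    intro r h0 hr
    have e : ∀ θ : ℝ, Complex.polarCoord.symm (r, θ) = circleMap 0 r θ := fun θ => by
      simp [circleMap, Complex.exp_mul_I]
    simp only [e]
    rw [integral_smul, integral_Ioo_circle f r]
    by_cases h3 : r < R
    · have h4 : Real.circleAverage f 0 r =
          Real.circleAverage (fun l : ℂ => l / (l - w)) 0 r :=
        Real.circleAverage_congr_sphere fun l hl => by
          rw [mem_sphere_zero_iff_norm, abs_of_pos h0] at hl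
          rw [hf, Set.indicator_of_mem (by simpa [hl] using h3)]
      rw [h4]
      rcases lt_or_gt_of_ne hr with h5 | h5
      · rw [avg_out h0 h5, Set.indicator_of_notMem (fun h => by linarith [h.1])]
        simp
      · rw [avg_in h5, Set.indicator_of_mem (show r ∈ Set.Ioo ‖w‖ R from ⟨h5, h3⟩)]
        simp [mul_comm]
    · have h4 : Real.circleAverage f 0 r = Real.circleAverage (fun _ : ℂ => (0 : ℂ)) 0 r :=
        Real.circleAverage_congr_sphere fun l hl => by
          rw [mem_sphere_zero_iff_norm, abs_of_pos h0] at hl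
          rw [hf, Set.indicator_of_notMem (by simpa [hl] using h3)]
      rw [h4, Set.indicator_of_notMem (fun h => h3 h.2)]
      simp [Real.circleAverage]
  have h3 : ∫ r in Set.Ioi (0 : ℝ), ∫ θ in Set.Ioo (-π) π,
      (r, θ).1 • f (Complex.polarCoord.symm (r, θ)) =
      ∫ r in Set.Ioi (0 : ℝ),
        (Set.Ioo ‖w‖ R).indicator (fun r : ℝ => ((2 * π * r : ℝ) : ℂ)) r := by
    refine setIntegral_congr_ae measurableSet_Ioi ?_
    filter_upwards [Measure.ae_ne volume ‖w‖] with r hr h0
    exact h2 r h0 hr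
  rw [h3, setIntegral_indicator measurableSet_Ioo,
    Set.inter_eq_right.2 (show Set.Ioo ‖w‖ R ⊆ Set.Ioi 0 from
      fun r hr => (norm_nonneg w).trans_lt hr.1), integral_complex_ofReal,
    ← integral_Ioc_eq_integral_Ioo, ← intervalIntegral.integral_of_le hw,
    intervalIntegral.integral_const_mul, integral_id]
  congr 1
  ring

/-- a point at which the Cauchy transform exists and does not vanish -/
theorem exists_point {X : Type} [MeasurableSpace X] {ι : Type} [Fintype ι] (ν : ι → Measure X)
    [∀ i, IsFiniteMeasure (ν i)] (c : ι → ℂ) {Z : X → ℂ} (hZ : BM Z)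
    (h0 : ∑ i, c i * ∫ _, (1 : ℂ) ∂(ν i) = 0)
    (h1 : ∑ i, c i * ∫ x, conj (Z x) * Z x ∂(ν i) ≠ 0) :
    ∃ l : ℂ, (∀ i, ν i {x | Z x = l} = 0 ∧ Integrable (fun x => (Z x - l)⁻¹) (ν i)) ∧
      ∑ i, c i * ∫ x, (Z x - l)⁻¹ ∂(ν i) ≠ 0 := by
  obtain ⟨R, hR⟩ := hZ.2
  have hm : Measurable fun p : ℂ × X => ‖p.1 - Z p.2‖⁻¹ :=
    (measurable_fst.sub (hZ.1.comp measurable_snd)).norm.inv
  have hi : ∀ i, Integrable (fun p : ℂ × X => ‖p.1 - Z p.2‖⁻¹)
      ((volume.restrict (ball (0 : ℂ) R)).prod (ν i)) := fun i => by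
    rw [integrable_prod_iff' hm.aestronglyMeasurable]
    refine ⟨Eventually.of_forall fun x => (integrableOn_inv_sub (hR x)).1, ?_⟩
    refine Integrable.of_bound (hm.norm.stronglyMeasurable.integral_prod_left').aestronglyMeasurable
      (∫ u in ball (0 : ℂ) (2 * R), ‖u‖⁻¹) (Eventually.of_forall fun x => ?_)
    rw [Real.norm_of_nonneg (integral_nonneg fun _ => norm_nonneg _)]
    simpa using (integrableOn_inv_sub (hR x)).2
  have hk : ∀ i, Integrable (fun p : ℂ × X => p.1 / (p.1 - Z p.2))
      ((volume.restrict (ball (0 : ℂ) R)).prod (ν i)) := fun i => by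
    refine ((hi i).const_mul R).mono'
      (measurable_fst.div (measurable_fst.sub (hZ.1.comp measurable_snd))).aestronglyMeasurable ?_
    have : ∀ᵐ p ∂((volume.restrict (ball (0 : ℂ) R)).prod (ν i)), p.1 ∈ ball (0 : ℂ) R :=
      Measure.quasiMeasurePreserving_fst.ae (ae_restrict_mem measurableSet_ball)
    filter_upwards [this] with p hp
    rw [mem_ball_zero_iff] at hp
    rw [norm_div, div_eq_mul_inv]
    exact mul_le_mul_of_nonneg_right hp.le (by positivity)
  by_contra hcon
  push Not at hcon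
  have a1 : ∀ᵐ l ∂(volume.restrict (ball (0 : ℂ) R)), ∀ i, ν i {x | Z x = l} = 0 := by
    refine ae_restrict_of_ae (ae_all_iff.2 fun i => ?_)
    filter_upwards [(Measure.countable_meas_level_set_pos (μ := ν i) hZ.1).ae_notMem volume]
      with l hl
    simpa using hl
  have a2 : ∀ᵐ l ∂(volume.restrict (ball (0 : ℂ) R)), ∀ i,
      Integrable (fun x => (Z x - l)⁻¹) (ν i) := by
    refine ae_all_iff.2 fun i => ?_
    filter_upwards [(hi i).prod_right_ae] with l hl
    refine hl.mono' (hZ.1.sub_const l).inv.aestronglyMeasurable (Eventually.of_forall fun x => ?_)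
    rw [norm_inv, norm_sub_rev]
  have a3 : ∫ l in ball (0 : ℂ) R, ∑ i, c i * ∫ x, l / (l - Z x) ∂(ν i) = 0 := by
    refine integral_eq_zero_of_ae ?_
    filter_upwards [a1, a2] with l h1 h2
    have e : ∀ i, c i * ∫ x, l / (l - Z x) ∂(ν i) = -l * (c i * ∫ x, (Z x - l)⁻¹ ∂(ν i)) :=
      fun i => by
        rw [mul_left_comm, ← integral_const_mul (-l)]
        congr 2
        funext x
        rw [← neg_sub (Z x), div_neg, div_eq_mul_inv, neg_mul]
    simp only [e]
    rw [← Finset.mul_sum, hcon l fun i => ⟨h1 i, h2 i⟩, mul_zero]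
    rfl
  rw [integral_finsetSum _ fun i _ => ((hk i).integral_prod_left).const_mul _] at a3
  have a4 : ∀ i, ∫ l in ball (0 : ℂ) R, c i * ∫ x, l / (l - Z x) ∂(ν i) =
      π * R ^ 2 * (c i * ∫ _, (1 : ℂ) ∂(ν i)) - π * (c i * ∫ x, conj (Z x) * Z x ∂(ν i)) :=
    fun i => by
      rw [integral_const_mul, integral_integral_swap (hk i)]
      simp only [integral_kernel (hR _)]
      rw [mul_left_comm, mul_left_comm (π : ℂ), ← mul_sub, ← integral_const_mul (π * R ^ 2 : ℂ),
        ← integral_const_mul (π : ℂ), ← integral_sub ((integrable_const _).const_mul _)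
          (((hZ.star.mul hZ).integrable _).const_mul _)]
      congr 2
      funext x
      rw [Complex.conj_mul']
      push_cast
      ring
  simp only [a4] at a3
  rw [Finset.sum_sub_distrib, ← Finset.mul_sum, ← Finset.mul_sum, h0, mul_zero, zero_sub,
    neg_eq_zero, mul_eq_zero] at a3
  exact a3.elim (Complex.ofReal_ne_zero.2 Real.pi_ne_zero) h1

end Pool.Agent.P.MP_d8da86_an
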