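import Pool.Agent.P.MP_d8da86_an.Point

open scoped InnerProductSpace ComplexConjugate
open MeasureTheory Filter Topology

set_option linter.unusedSectionVars false
set_option linter.unusedVariables false

noncomputable section

namespace Pool.Agent.P.MP_d8da86_an

variable {H : Type*} [NormedAddCommGroup H] [InnerProductSpace ℂ H] [CompleteSpace H]
variable {X : Type} [MeasurableSpace X]

/-- the modular law in `Lat A` -/
def ModLat (A : H →L[ℂ] H) : Prop :=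
  ∀ M₁ ∈ Lat A, ∀ N ∈ Lat A, ∀ M₂ ∈ Lat A, M₁ ≤ M₂ →
    (M₁ ⊔ N).topologicalClosure ⊓ M₂ ≤ (M₁ ⊔ (N ⊓ M₂)).topologicalClosure

/-- every principal ideal of `Lat A` is complemented -/
def SecLat (A : H →L[ℂ] H) : Prop :=
  ∀ M₁ ∈ Lat A, ∀ M₂ ∈ Lat A, M₁ ≤ M₂ →
    ∃ N ∈ Lat A, M₁ ⊓ N = ⊥ ∧ (M₁ ⊔ N).topologicalClosure = M₂

/-- evaluation at `l` is carried by a vector living on `B` -/
def Bpe (E : SpecCalc X H) (Z : X → ℂ) (l : ℂ) (B : Set X) : Prop :=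
  ∃ x y : H, E.μ x Bᶜ = 0 ∧ ⟪y, x⟫_ℂ ≠ 0 ∧ y ∈ (cyc (E.Φ Z) (E.Φ Z x - l • x))ᗮ

theorem bpe_of_not_reductive (E : SpecCalc X H) {Z : X → ℂ} (hZ : BM Z)
    (h : ¬ Reductive (E.Φ Z)) : ∃ l, Bpe E Z l {z | Z z = l}ᶜ := by
  simp only [Reductive, not_forall] at h
  obtain ⟨M, hM, h⟩ := h
  have : ∃ y ∈ Mᗮ, ∃ x ∈ M, ⟪E.Φ Z y, x⟫_ℂ ≠ 0 := by
    by_contra h1
    push Not at h1
    exact h ⟨Submodule.isClosed_orthogonal M, fun y hy => mem_orth'.2 (h1 y hy)⟩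
  obtain ⟨y, hy, x, hx, h1⟩ := this
  obtain ⟨l, x', y', h2, h3, h4⟩ := exists_bpe E hZ (x := x) (y := y)
    (fun n => mem_orth'.1 hy _ (pow_mem hM.2 hx n)) (by rwa [inner_star_right])
  exact ⟨l, x', y', by rwa [compl_compl], h3, mem_orth_cyc.2 h4⟩

theorem shift_mem (A : H →L[ℂ] H) (l : ℂ) {x f : H} (hf : f ∈ cyc A x) :
    A f - l • f ∈ cyc A (A x - l • x) := by
  have h : (cyc A (A x - l • x)).comap ((A - l • 1 : H →L[ℂ] H) : H →ₗ[ℂ] H) ∈ Lat A := by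
    refine ⟨(cyc_mem_Lat A _).1.preimage (A - l • 1 : H →L[ℂ] H).continuous, fun v hv => ?_⟩
    have h1 : A v - l • v ∈ cyc A (A x - l • x) := hv
    change A (A v) - l • A v ∈ cyc A (A x - l • x)
    rw [← map_smul, ← map_sub]
    exact (cyc_mem_Lat A _).2 _ h1
  exact cyc_le h (v := x) (self_mem_cyc A _) hf

theorem shift_le (A : H →L[ℂ] H) (l : ℂ) (x : H) : cyc A (A x - l • x) ≤ cyc A x :=
  cyc_le (cyc_mem_Lat A x) (Submodule.sub_mem _ ((cyc_mem_Lat A x).2 _ (self_mem_cyc A x))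
    (Submodule.smul_mem _ _ (self_mem_cyc A x)))

theorem null_cyc (E : SpecCalc X H) {Z : X → ℂ} (hZ : BM Z) {s : Set X} (hs : MeasurableSet s)
    {x f : H} (hx : E.μ x s = 0) (hf : f ∈ cyc (E.Φ Z) x) : E.μ f s = 0 :=
  (E.Pr_eq_zero_iff hs f).1 (cyc_le (ker_mem_Lat (E.commute (BM.indicator_one hs) hZ))
    ((E.Pr_eq_zero_iff hs x).2 hx) hf)

theorem bpe_step (E : SpecCalc X H) {Z : X → ℂ} (hZ : BM Z) (hm : ModLat (E.Φ Z)) {l : ℂ}
    {B G : Set X} (hB : MeasurableSet B) (hG : MeasurableSet G) (h1 : Bpe E Z l B)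
    (h2 : ¬ Bpe E Z l G) : Bpe E Z l (B \ G) := by
  obtain ⟨x, y, hx, hxy, hy⟩ := h1
  have hc : Commute (E.Pr G) (E.Φ Z) := E.commute (BM.indicator_one hG) hZ
  have hN := ker_mem_Lat hc
  have sa : star (E.Pr G) = E.Pr G := (E.Pr_proj hG).isSelfAdjoint
  have idem : ∀ v, E.Pr G (E.Pr G v) = E.Pr G v := fun v =>
    DFunLike.congr_fun (E.Pr_proj hG).isIdempotentElem v
  have h3 : x ∈ (cyc (E.Φ Z) (E.Φ Z x - l • x) ⊔
      LinearMap.ker (E.Pr G : H →ₗ[ℂ] H)).topologicalClosure := by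
    refine mem_clo.2 fun w hw => ?_
    obtain ⟨w1, w2⟩ := mem_orth_sup.1 hw
    have hw : ∀ v, ⟪w, E.Pr G v⟫_ℂ = ⟪w, v⟫_ℂ := fun v => by
      have : v - E.Pr G v ∈ LinearMap.ker (E.Pr G : H →ₗ[ℂ] H) := by
        change E.Pr G (v - E.Pr G v) = 0
        rw [map_sub, idem, sub_self]
      have h4 := mem_orth'.1 w2 _ this
      rw [inner_sub_right] at h4
      exact (sub_eq_zero.1 h4).symm
    by_contra h4
    refine h2 ⟨E.Pr G x, w, (E.Pr_eq_self_iff hG _).1 (idem x), by rwa [hw],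
      mem_orth_cyc.2 fun n => ?_⟩
    have e1 : E.Pr G (E.Φ Z x) = E.Φ Z (E.Pr G x) := DFunLike.congr_fun hc x
    have e2 : ∀ v, E.Pr G ((E.Φ Z ^ n) v) = (E.Φ Z ^ n) (E.Pr G v) := fun v =>
      DFunLike.congr_fun (hc.pow_right n) v
    rw [← e1, ← map_smul, ← map_sub, ← e2, hw]
    exact mem_orth_cyc.1 w1 n
  have h4 := hm _ (cyc_mem_Lat _ _) _ hN _ (cyc_mem_Lat _ x) (shift_le _ l x)
    ⟨h3, self_mem_cyc _ x⟩
  have h5 : ∃ f ∈ LinearMap.ker (E.Pr G : H →ₗ[ℂ] H) ⊓ cyc (E.Φ Z) x, ⟪y, f⟫_ℂ ≠ 0 := by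
    by_contra h5
    push Not at h5
    exact hxy (mem_clo.1 h4 y (mem_orth_sup.2 ⟨hy, mem_orth'.2 h5⟩))
  obtain ⟨f, hf, h6⟩ := h5
  refine ⟨f, y, ?_, h6, Submodule.orthogonal_le (cyc_le (cyc_mem_Lat _ _)
    (shift_mem _ l hf.2)) hy⟩
  rw [Set.diff_eq, Set.compl_inter, compl_compl]
  exact measure_union_null (null_cyc E hZ hB.compl hx hf.2) ((E.Pr_eq_zero_iff hG f).1 hf.1)

theorem not_bpe_disc (E : SpecCalc X H) {Z : X → ℂ} (hZ : BM Z) (l ω : ℂ) :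
    ¬ Bpe E Z l {z | ‖1 - ω * (Z z - l)‖ < 1} := by
  rintro ⟨x, y, hx, hxy, hy⟩
  have hq : BM fun z => 1 - ω * (Z z - l) :=
    (BM.const 1).sub ((BM.const ω).mul (hZ.sub (BM.const l)))
  have hG : MeasurableSet {z | ‖1 - ω * (Z z - l)‖ < 1} :=
    measurableSet_lt hq.1.norm measurable_const
  have e : ∀ v, E.Φ (fun z => 1 - ω * (Z z - l)) v = v - ω • (E.Φ Z v - l • v) := fun v => by
    rw [E.map_sub (BM.const 1) ((BM.const ω).mul (hZ.sub (BM.const l))), E.one,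
      E.map_smul ω (hZ.sub (BM.const l)), E.map_sub hZ (BM.const l), E.map_const]
    rfl
  have hM := cyc_mem_Lat (E.Φ Z) (E.Φ Z x - l • x)
  have h1 : ∀ n : ℕ, (E.Φ (fun z => 1 - ω * (Z z - l)) ^ n) x - x ∈
      cyc (E.Φ Z) (E.Φ Z x - l • x) := fun n => by
    induction n with
    | zero => simp
    | succ n ih =>
      rw [pow_succ_apply, e]
      obtain ⟨u, hu⟩ : ∃ u, u = (E.Φ (fun z => 1 - ω * (Z z - l)) ^ n) x - x := ⟨_, rfl⟩
      rw [← hu] at ih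
      rw [← sub_add_cancel ((E.Φ (fun z => 1 - ω * (Z z - l)) ^ n) x) x, ← hu]
      have e2 : u + x - ω • (E.Φ Z (u + x) - l • (u + x)) - x =
          u - ω • (E.Φ Z u - l • u) - ω • (E.Φ Z x - l • x) := by
        rw [map_add]
        module
      rw [e2]
      exact Submodule.sub_mem _ (Submodule.sub_mem _ ih (Submodule.smul_mem _ _
        (Submodule.sub_mem _ (hM.2 _ ih) (Submodule.smul_mem _ _ ih))))
        (Submodule.smul_mem _ _ (self_mem_cyc _ _))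
  have hae : ∀ᵐ z ∂(E.μ x), z ∈ {z | ‖1 - ω * (Z z - l)‖ < 1} := hx
  have h2 := E.tendsto (l := atTop) (f := fun n : ℕ =>
    {z | ‖1 - ω * (Z z - l)‖ < 1}.indicator fun z => (1 - ω * (Z z - l)) ^ n) 1
    (Eventually.of_forall fun n => ⟨(hq.pow n).1.indicator hG, fun z => ?_⟩) (BM.const 0)
    (ξ := x) ?_
  · have h3 := (tendsto_const_nhds (x := y)).inner (𝕜 := ℂ) h2
    rw [E.map_zero, zero_apply, inner_zero_right] at h3
    refine hxy (tendsto_nhds_unique (tendsto_const_nhds.congr fun n => ?_) h3)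
    have h4 := mem_orth'.1 hy _ (h1 n)
    rw [inner_sub_right, sub_eq_zero, ← E.map_pow hq] at h4
    rw [← h4]
    congr 1
    refine E.congr_ae (hq.pow n) ((hq.pow n).indicator hG) ?_
    filter_upwards [hae] with z hz
    rw [Set.indicator_of_mem (s := {z | ‖1 - ω * (Z z - l)‖ < 1}) hz]
  · by_cases hz : z ∈ {z | ‖1 - ω * (Z z - l)‖ < 1}
    · rw [Set.indicator_of_mem hz, norm_pow]
      exact pow_le_one₀ (norm_nonneg _) (le_of_lt hz)
    · rw [Set.indicator_of_notMem hz]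
      simp
  · filter_upwards [hae] with z hz
    simp only [Set.indicator_of_mem (s := {z | ‖1 - ω * (Z z - l)‖ < 1}) hz]
    exact tendsto_pow_atTop_nhds_zero_of_norm_lt_one hz

theorem four_discs {ε : ℝ} (hε : 0 < ε) {w : ℂ} (hw : ε * ‖w‖ ≤ 1)
    (h1 : ¬ ‖1 - (ε : ℂ) * w‖ < 1) (h2 : ¬ ‖1 - (-ε : ℂ) * w‖ < 1)
    (h3 : ¬ ‖1 - (ε * Complex.I : ℂ) * w‖ < 1) (h4 : ¬ ‖1 - (-ε * Complex.I : ℂ) * w‖ < 1) :
    w = 0 := by
  have key : ∀ u : ℂ, ¬ ‖u‖ < 1 → 1 ≤ u.re * u.re + u.im * u.im := fun u hu => by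
    rw [← Complex.normSq_apply, ← Complex.sq_norm]
    nlinarith [not_lt.1 hu]
  have k1 := key _ h1
  have k2 := key _ h2
  have k3 := key _ h3
  have k4 := key _ h4
  simp at k1 k2 k3 k4
  have hn : ‖w‖ ^ 2 = w.re * w.re + w.im * w.im := by
    rw [Complex.sq_norm, Complex.normSq_apply]
  obtain ⟨a, ha⟩ : ∃ a, a = ε * w.re := ⟨_, rfl⟩
  obtain ⟨b, hb⟩ : ∃ b, b = ε * w.im := ⟨_, rfl⟩
  rw [← ha, ← hb] at k1 k2 k3 k4
  have h5 : a * a + b * b ≤ 1 := by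
    have : (ε * ‖w‖) ^ 2 ≤ 1 := pow_le_one₀ (by positivity) hw
    rw [mul_pow, hn] at this
    rw [ha, hb]
    linarith
  have h6 : |2 * a| ≤ a * a + b * b := abs_le.2 ⟨by linarith, by linarith⟩
  have h7 : |2 * b| ≤ a * a + b * b := abs_le.2 ⟨by linarith, by linarith⟩
  have h8 := pow_le_pow_left₀ (abs_nonneg _) h6 2
  have h9 := pow_le_pow_left₀ (abs_nonneg _) h7 2
  rw [sq_abs] at h8 h9
  have h10 : 0 ≤ a * a + b * b := by nlinarith
  have h11 : a * a + b * b = 0 := by nlinarith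
  have ha0 : a = 0 := by nlinarith
  have hb0 : b = 0 := by nlinarith
  apply Complex.ext
  · simpa [hε.ne'] using ha.symm.trans ha0
  · simpa [hε.ne'] using hb.symm.trans hb0

theorem reductive_of_modLat {A : H →L[ℂ] H} (hA : IsStarNormal A) (hm : ModLat A) :
    Reductive A := by
  obtain ⟨X, _, E, Z, hZ, rfl, -⟩ := exists_setup A hA
  by_contra h
  obtain ⟨l, h0⟩ := bpe_of_not_reductive E hZ h
  obtain ⟨R, hR⟩ := hZ.2
  have hG : ∀ ω : ℂ, MeasurableSet {z | ‖1 - ω * (Z z - l)‖ < 1} := fun ω =>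
    measurableSet_lt ((BM.const 1).sub ((BM.const ω).mul (hZ.sub (BM.const l)))).1.norm
      measurable_const
  have m0 : MeasurableSet {z | Z z = l}ᶜ := (hZ.1 (measurableSet_singleton l)).compl
  obtain ⟨ε, hε⟩ : ∃ ε : ℝ, ε = (|R| + ‖l‖ + 1)⁻¹ := ⟨_, rfl⟩
  have hε0 : 0 < ε := by rw [hε]; positivity
  have h1 := bpe_step E hZ hm m0 (hG ε) h0 (not_bpe_disc E hZ l _)
  have m1 := m0.diff (hG ε)
  have h2 := bpe_step E hZ hm m1 (hG (-ε)) h1 (not_bpe_disc E hZ l _)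
  have m2 := m1.diff (hG (-ε))
  have h3 := bpe_step E hZ hm m2 (hG (ε * Complex.I)) h2 (not_bpe_disc E hZ l _)
  have m3 := m2.diff (hG (ε * Complex.I))
  obtain ⟨x, y, hx, hxy, -⟩ := bpe_step E hZ hm m3 (hG (-ε * Complex.I)) h3
    (not_bpe_disc E hZ l _)
  refine hxy ?_
  suffices h5 : x = 0 by rw [h5, inner_zero_right]
  refine E.eq_zero_of_null (measure_mono_null (fun z _ => ?_) hx)
  intro hz
  refine hz.1.1.1.1 (sub_eq_zero.1 (four_discs hε0 ?_ hz.1.1.1.2 hz.1.1.2 hz.1.2 hz.2))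
  rw [hε, inv_mul_le_iff₀ (by positivity)]
  linarith [norm_sub_le (Z z) l, hR z, le_abs_self R]

theorem reductive_of_secLat {A : H →L[ℂ] H} (hA : IsStarNormal A) (hm : SecLat A) :
    Reductive A := by
  obtain ⟨X, _, E, Z, hZ, rfl, -⟩ := exists_setup A hA
  by_contra h
  obtain ⟨l, x, y, hx, hxy, hy⟩ := bpe_of_not_reductive E hZ h
  rw [compl_compl] at hx
  have m0 : MeasurableSet {z | Z z = l} := hZ.1 (measurableSet_singleton l)
  obtain ⟨N, hN, h1, h2⟩ := hm _ (cyc_mem_Lat _ _) _ (cyc_mem_Lat _ x) (shift_le _ l x)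
  refine hxy (mem_clo.1 (h2.symm ▸ self_mem_cyc _ x) y
    (mem_orth_sup.2 ⟨hy, mem_orth'.2 fun v hv => ?_⟩))
  have h3 : v ∈ cyc (E.Φ Z) x :=
    h2 ▸ Submodule.le_topologicalClosure _ (Submodule.mem_sup_right hv)
  have h4 : E.Φ Z v - l • v = 0 := (Submodule.eq_bot_iff _).1 h1 _
    ⟨shift_mem _ l h3, N.sub_mem (hN.2 v hv) (N.smul_mem l hv)⟩
  have h5 : E.Φ (fun z => Z z - l) v = 0 := by
    rw [E.map_sub hZ (BM.const l), E.map_const]
    exact h4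
  have h6 := E.null_of_apply_eq_zero (hZ.sub (BM.const l)) h5 (s := {z | Z z = l}ᶜ)
    fun z hz => sub_ne_zero.2 hz
  have h7 := measure_union_null (null_cyc E hZ m0 hx h3) h6
  rw [Set.union_compl_self] at h7
  rw [E.eq_zero_of_null h7, inner_zero_right]

end Pool.Agent.P.MP_d8da86_an
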