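import Mathlib

/-! Borel functional calculus of a normal operator (adapted from the team file
`Pool/Agent/P/MP_5d580a_an`, with the Hilbert space in an arbitrary universe). -/

open scoped ComplexOrder InnerProductSpace ComplexConjugate BoundedContinuousFunction
open MeasureTheory Filter Topology

set_option linter.unusedSectionVars false
set_option linter.unusedVariables false

noncomputable section

namespace Pool.Agent.P.MP_d8da86_an

/-- bounded measurable functions -/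
def BM {X : Type} [MeasurableSpace X] (f : X → ℂ) : Prop :=
  Measurable f ∧ ∃ K : ℝ, ∀ x, ‖f x‖ ≤ K

/-- a projection valued measure, given by its calculus and its scalar spectral measures -/
structure SpecCalc (X : Type) [MeasurableSpace X] (H : Type*) [NormedAddCommGroup H]
    [InnerProductSpace ℂ H] [CompleteSpace H] where
  Φ : (X → ℂ) → (H →L[ℂ] H)
  μ : H → Measure X
  fin : ∀ ξ, IsFiniteMeasure (μ ξ)
  one : Φ (fun _ => 1) = 1
  mul : ∀ f g, BM f → BM g → Φ (fun x => f x * g x) = Φ f * Φ g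
  inner : ∀ f, BM f → ∀ ξ, ⟪ξ, Φ f ξ⟫_ℂ = ∫ x, f x ∂(μ ξ)

variable {H : Type*} [NormedAddCommGroup H] [InnerProductSpace ℂ H] [CompleteSpace H]

/-- spectral projection of a set -/
def SpecCalc.Pr {X : Type} [MeasurableSpace X] (E : SpecCalc X H) (s : Set X) : H →L[ℂ] H :=
  E.Φ (s.indicator fun _ => 1)

theorem inner_star_right (x : H →L[ℂ] H) (ξ η : H) : ⟪ξ, (star x) η⟫_ℂ = ⟪x ξ, η⟫_ℂ := by
  rw [ContinuousLinearMap.star_eq_adjoint, ContinuousLinearMap.adjoint_inner_right]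

theorem norm_sq_apply (x : H →L[ℂ] H) (ξ : H) : ‖x ξ‖ ^ 2 = (⟪ξ, (star x * x) ξ⟫_ℂ).re := by
  rw [mul_apply_eq_comp, inner_star_right, ← @inner_self_eq_norm_sq ℂ]
  rfl

theorem ext_inner_self {x y : H →L[ℂ] H} (h : ∀ ξ, ⟪ξ, x ξ⟫_ℂ = ⟪ξ, y ξ⟫_ℂ) : x = y := by
  have : (x : H →ₗ[ℂ] H) = (y : H →ₗ[ℂ] H) := by
    rw [← ext_inner_map]
    intro ξ
    have := congrArg (starRingEnd ℂ) (h ξ)
    simpa using this
  exact ContinuousLinearMap.coe_injective this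

section

variable {X : Type} [MeasurableSpace X]

theorem BM.const (c : ℂ) : BM fun _ : X => c :=
  ⟨measurable_const, ‖c‖, fun _ => le_rfl⟩

theorem BM.add {f g : X → ℂ} (hf : BM f) (hg : BM g) : BM fun x => f x + g x := by
  obtain ⟨h1, K, hK⟩ := hf
  obtain ⟨h2, L, hL⟩ := hg
  exact ⟨h1.add h2, K + L, fun x => (norm_add_le _ _).trans (add_le_add (hK x) (hL x))⟩

theorem BM.sub {f g : X → ℂ} (hf : BM f) (hg : BM g) : BM fun x => f x - g x := by
  obtain ⟨h1, K, hK⟩ := hf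
  obtain ⟨h2, L, hL⟩ := hg
  exact ⟨h1.sub h2, K + L, fun x => (norm_sub_le _ _).trans (add_le_add (hK x) (hL x))⟩

theorem BM.mul {f g : X → ℂ} (hf : BM f) (hg : BM g) : BM fun x => f x * g x := by
  obtain ⟨h1, K, hK⟩ := hf
  obtain ⟨h2, L, hL⟩ := hg
  refine ⟨h1.mul h2, K * L, fun x => ?_⟩
  rw [norm_mul]
  exact mul_le_mul (hK x) (hL x) (norm_nonneg _) ((norm_nonneg _).trans (hK x))

theorem BM.star {f : X → ℂ} (hf : BM f) : BM fun x => conj (f x) := by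
  obtain ⟨h1, K, hK⟩ := hf
  exact ⟨Complex.continuous_conj.measurable.comp h1, K, fun x => by simpa using hK x⟩

theorem BM.sum {ι : Type*} (s : Finset ι) {f : ι → X → ℂ} (hf : ∀ i ∈ s, BM (f i)) :
    BM fun x => ∑ i ∈ s, f i x := by
  classical
  induction s using Finset.induction_on with
  | empty => simpa using BM.const (X := X) 0
  | insert a s ha ih =>
    simp only [Finset.sum_insert ha]
    exact (hf a (Finset.mem_insert_self _ _)).add
      (ih fun i hi => hf i (Finset.mem_insert_of_mem hi))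

theorem BM.indicator {f : X → ℂ} (hf : BM f) {s : Set X} (hs : MeasurableSet s) :
    BM (s.indicator f) := by
  obtain ⟨h1, K, hK⟩ := hf
  exact ⟨h1.indicator hs, K, fun x => (norm_indicator_le_norm_self f x).trans (hK x)⟩

theorem BM.indicator_one {s : Set X} (hs : MeasurableSet s) :
    BM (s.indicator fun _ => (1 : ℂ)) :=
  (BM.const 1).indicator hs

theorem BM.indicator_of_bdd {f : X → ℂ} (hf : Measurable f) {s : Set X} (hs : MeasurableSet s)
    (K : ℝ) (hK : ∀ x ∈ s, ‖f x‖ ≤ K) : BM (s.indicator f) := by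
  refine ⟨hf.indicator hs, max K 0, fun x => ?_⟩
  by_cases hx : x ∈ s
  · rw [Set.indicator_of_mem hx]
    exact (hK x hx).trans (le_max_left _ _)
  · rw [Set.indicator_of_notMem hx, norm_zero]
    exact le_max_right _ _

theorem BM.comp {Y : Type} [MeasurableSpace Y] {f : Y → ℂ} (hf : BM f) {g : X → Y}
    (hg : Measurable g) : BM fun x => f (g x) := by
  obtain ⟨h1, K, hK⟩ := hf
  exact ⟨h1.comp hg, K, fun x => hK _⟩

theorem BM.integrable {f : X → ℂ} (hf : BM f) (μ : Measure X) [IsFiniteMeasure μ] :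
    Integrable f μ := by
  obtain ⟨h1, K, hK⟩ := hf
  exact Integrable.of_bound h1.aestronglyMeasurable K (Eventually.of_forall hK)

theorem BM.integrable_sq {f : X → ℂ} (hf : BM f) (μ : Measure X) [IsFiniteMeasure μ] :
    Integrable (fun x => ‖f x‖ ^ 2) μ := by
  obtain ⟨h1, K, hK⟩ := hf
  refine Integrable.of_bound (h1.norm.pow_const 2).aestronglyMeasurable (K ^ 2)
    (Eventually.of_forall fun x => ?_)
  rw [Real.norm_of_nonneg (sq_nonneg _)]
  exact pow_le_pow_left₀ (norm_nonneg _) (hK x) 2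

theorem calc_norm_exp (t l : ℝ) : ‖Complex.exp (Complex.I * t * l)‖ = 1 := by
  rw [mul_assoc, ← Complex.ofReal_mul]
  exact Complex.norm_exp_I_mul_ofReal _

theorem bm_exp (t : ℝ) : BM fun l : ℝ => Complex.exp (Complex.I * t * l) :=
  ⟨by fun_prop, 1, fun l => (calc_norm_exp t l).le⟩

theorem bm_bcf {Y : Type} [MeasurableSpace Y] [TopologicalSpace Y] [OpensMeasurableSpace Y]
    (f : Y →ᵇ ℂ) : BM fun y => f y :=
  ⟨f.continuous.measurable, ‖f‖, f.norm_coe_le_norm⟩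

namespace SpecCalc

variable (E : SpecCalc X H)

theorem map_add {f g : X → ℂ} (hf : BM f) (hg : BM g) :
    E.Φ (fun x => f x + g x) = E.Φ f + E.Φ g := by
  haveI := E.fin
  refine ext_inner_self fun ξ => ?_
  rw [ContinuousLinearMap.add_apply, inner_add_right, E.inner _ (hf.add hg), E.inner _ hf,
    E.inner _ hg, integral_add (hf.integrable _) (hg.integrable _)]

theorem map_sub {f g : X → ℂ} (hf : BM f) (hg : BM g) :
    E.Φ (fun x => f x - g x) = E.Φ f - E.Φ g := by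
  haveI := E.fin
  refine ext_inner_self fun ξ => ?_
  rw [ContinuousLinearMap.sub_apply, inner_sub_right, E.inner _ (hf.sub hg), E.inner _ hf,
    E.inner _ hg, integral_sub (hf.integrable _) (hg.integrable _)]

theorem map_smul (c : ℂ) {f : X → ℂ} (hf : BM f) : E.Φ (fun x => c * f x) = c • E.Φ f := by
  refine ext_inner_self fun ξ => ?_
  rw [ContinuousLinearMap.smul_apply, inner_smul_right, E.inner _ ((BM.const c).mul hf),
    E.inner _ hf, integral_const_mul]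

theorem map_const (c : ℂ) : E.Φ (fun _ => c) = c • (1 : H →L[ℂ] H) := by
  have := E.map_smul c (BM.const (X := X) 1)
  rw [E.one] at this
  simpa using this

theorem map_zero : E.Φ (fun _ => 0) = 0 := by
  rw [E.map_const, zero_smul]

theorem map_star {f : X → ℂ} (hf : BM f) : E.Φ (fun x => conj (f x)) = star (E.Φ f) := by
  refine ext_inner_self fun ξ => ?_
  rw [inner_star_right, ← inner_conj_symm (E.Φ f ξ), E.inner _ hf, E.inner _ hf.star,
    integral_conj]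

theorem map_sum {ι : Type*} (s : Finset ι) {f : ι → X → ℂ} (hf : ∀ i ∈ s, BM (f i)) :
    E.Φ (fun x => ∑ i ∈ s, f i x) = ∑ i ∈ s, E.Φ (f i) := by
  classical
  induction s using Finset.induction_on with
  | empty => simpa using E.map_zero
  | insert a s ha ih =>
    simp only [Finset.sum_insert ha]
    rw [E.map_add (hf a (Finset.mem_insert_self _ _))
      (BM.sum s fun i hi => hf i (Finset.mem_insert_of_mem hi)),
      ih fun i hi => hf i (Finset.mem_insert_of_mem hi)]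

theorem mul_apply {f g : X → ℂ} (hf : BM f) (hg : BM g) (ξ : H) :
    E.Φ f (E.Φ g ξ) = E.Φ (fun x => f x * g x) ξ := by
  rw [E.mul f g hf hg]
  rfl

theorem commute {f g : X → ℂ} (hf : BM f) (hg : BM g) : E.Φ f * E.Φ g = E.Φ g * E.Φ f := by
  rw [← E.mul f g hf hg, ← E.mul g f hg hf]
  simp only [mul_comm]

theorem mass (ξ : H) : (E.μ ξ).real Set.univ = ‖ξ‖ ^ 2 := by
  have := E.inner _ (BM.const (X := X) 1) ξ
  rw [E.one, integral_const, ContinuousLinearMap.one_apply, inner_self_eq_norm_sq_to_K] at this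
  have h2 : (((E.μ ξ).real Set.univ : ℝ) : ℂ) = ((‖ξ‖ ^ 2 : ℝ) : ℂ) := by
    simpa using this.symm
  exact_mod_cast h2

theorem norm_sq {f : X → ℂ} (hf : BM f) (ξ : H) :
    ‖E.Φ f ξ‖ ^ 2 = ∫ x, ‖f x‖ ^ 2 ∂(E.μ ξ) := by
  rw [norm_sq_apply, ← E.map_star hf, ← E.mul _ _ hf.star hf, E.inner _ (hf.star.mul hf)]
  simp only [Complex.conj_mul', ← Complex.ofReal_pow]
  rw [integral_complex_ofReal, Complex.ofReal_re]

theorem apply_eq_zero_iff {f : X → ℂ} (hf : BM f) (ξ : H) :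
    E.Φ f ξ = 0 ↔ ∀ᵐ x ∂(E.μ ξ), f x = 0 := by
  haveI := E.fin
  rw [← norm_eq_zero, ← sq_eq_zero_iff, E.norm_sq hf,
    integral_eq_zero_iff_of_nonneg (fun x => sq_nonneg _) (hf.integrable_sq _)]
  refine eventually_congr (Eventually.of_forall fun x => ?_)
  simp

theorem congr_ae {f g : X → ℂ} (hf : BM f) (hg : BM g) {ξ : H} (h : ∀ᵐ x ∂(E.μ ξ), f x = g x) :
    E.Φ f ξ = E.Φ g ξ := by
  rw [← sub_eq_zero, ← ContinuousLinearMap.sub_apply, ← E.map_sub hf hg,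
    E.apply_eq_zero_iff (hf.sub hg)]
  exact h.mono fun x hx => sub_eq_zero.2 hx

theorem calc_mono {f g : X → ℂ} (hf : BM f) (hg : BM g) {ξ : H}
    (h : ∀ᵐ x ∂(E.μ ξ), ‖f x‖ ≤ ‖g x‖) : ‖E.Φ f ξ‖ ≤ ‖E.Φ g ξ‖ := by
  haveI := E.fin
  rw [← sq_le_sq₀ (norm_nonneg _) (norm_nonneg _), E.norm_sq hf, E.norm_sq hg]
  exact integral_mono_ae (hf.integrable_sq _) (hg.integrable_sq _)
    (h.mono fun x hx => pow_le_pow_left₀ (norm_nonneg _) hx 2)

theorem calc_const {K : ℝ} (hK : 0 ≤ K) (ξ : H) : ‖E.Φ (fun _ => (K : ℂ)) ξ‖ = K * ‖ξ‖ := by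
  rw [E.map_const, ContinuousLinearMap.smul_apply, norm_smul, Complex.norm_real,
    Real.norm_of_nonneg hK, ContinuousLinearMap.one_apply]

theorem norm_apply_le {f : X → ℂ} (hf : BM f) {ξ : H} {K : ℝ} (hK : 0 ≤ K)
    (h : ∀ᵐ x ∂(E.μ ξ), ‖f x‖ ≤ K) : ‖E.Φ f ξ‖ ≤ K * ‖ξ‖ := by
  rw [← E.calc_const hK]
  exact E.calc_mono hf (BM.const _)
    (h.mono fun x hx => by rwa [Complex.norm_real, Real.norm_of_nonneg hK])

theorem le_norm_apply {f : X → ℂ} (hf : BM f) {ξ : H} {K : ℝ}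
    (h : ∀ᵐ x ∂(E.μ ξ), K ≤ ‖f x‖) : K * ‖ξ‖ ≤ ‖E.Φ f ξ‖ := by
  rcases le_total 0 K with hK | hK
  · rw [← E.calc_const hK]
    exact E.calc_mono (BM.const _) hf
      (h.mono fun x hx => by rwa [Complex.norm_real, Real.norm_of_nonneg hK])
  · exact (mul_nonpos_of_nonpos_of_nonneg hK (norm_nonneg _)).trans (norm_nonneg _)

theorem norm_apply_mono {f g : X → ℂ} (hf : BM f) (hg : BM g) {ξ : H}
    (h : ∀ᵐ x ∂(E.μ ξ), ‖f x‖ ≤ ‖g x‖) : ‖E.Φ f ξ‖ ≤ ‖E.Φ g ξ‖ :=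
  E.calc_mono hf hg h

theorem norm_le {f : X → ℂ} (hf : BM f) {K : ℝ} (hK : 0 ≤ K)
    (h : ∀ ξ, ∀ᵐ x ∂(E.μ ξ), ‖f x‖ ≤ K) : ‖E.Φ f‖ ≤ K :=
  ContinuousLinearMap.opNorm_le_bound _ hK fun ξ => E.norm_apply_le hf hK (h ξ)

theorem isSelfAdjoint {f : X → ℝ} (hf : BM fun x => (f x : ℂ)) :
    IsSelfAdjoint (E.Φ fun x => (f x : ℂ)) := by
  rw [IsSelfAdjoint, ← E.map_star hf]
  simp only [Complex.conj_ofReal]

theorem calc_Pr_sq {s : Set X} (hs : MeasurableSet s) (ξ : H) :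
    ‖E.Pr s ξ‖ ^ 2 = (E.μ ξ).real s := by
  rw [Pr, E.norm_sq (BM.indicator_one hs), ← integral_indicator_one hs]
  refine integral_congr_ae (Eventually.of_forall fun x => ?_)
  by_cases hx : x ∈ s <;> simp [hx]

theorem μ_apply {g : X → ℂ} (hg : BM g) (ξ : H) :
    E.μ (E.Φ g ξ) = (E.μ ξ).withDensity fun x => ENNReal.ofReal (‖g x‖ ^ 2) := by
  haveI := E.fin
  refine Measure.ext fun s hs => ?_
  rw [withDensity_apply _ hs, ← ofReal_integral_eq_lintegral_ofReal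
    (hg.integrable_sq _).integrableOn (Eventually.of_forall fun x => sq_nonneg _),
    ← ofReal_measureReal, ← E.calc_Pr_sq hs, Pr, E.mul_apply (BM.indicator_one hs) hg,
    E.norm_sq ((BM.indicator_one hs).mul hg), ← integral_indicator hs]
  refine congrArg ENNReal.ofReal (integral_congr_ae (Eventually.of_forall fun x => ?_))
  by_cases hx : x ∈ s <;> simp [hx]

theorem null_apply {g : X → ℂ} (hg : BM g) {ξ : H} {s : Set X} (h : E.μ ξ s = 0) :
    E.μ (E.Φ g ξ) s = 0 := by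
  rw [E.μ_apply hg]
  exact withDensity_absolutelyContinuous _ _ h

theorem null_apply' {g : X → ℂ} (hg : BM g) (ξ : H) {s : Set X} (hs : MeasurableSet s)
    (h : ∀ x ∈ s, g x = 0) : E.μ (E.Φ g ξ) s = 0 := by
  rw [E.μ_apply hg, withDensity_apply _ hs]
  exact setLIntegral_eq_zero hs fun x hx => by simp [h x hx]

theorem null_of_apply_eq_zero {g : X → ℂ} (hg : BM g) {ξ : H} (h0 : E.Φ g ξ = 0) {s : Set X}
    (h : ∀ x ∈ s, g x ≠ 0) : E.μ ξ s = 0 :=
  measure_mono_null h ((E.apply_eq_zero_iff hg ξ).1 h0)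

theorem μ_zero : E.μ 0 = 0 := by
  haveI := E.fin
  have := E.mass 0
  rw [norm_zero, zero_pow two_ne_zero, measureReal_eq_zero_iff] at this
  exact Measure.measure_univ_eq_zero.1 this

theorem eq_zero_of_null {ξ : H} (h : E.μ ξ Set.univ = 0) : ξ = 0 := by
  have := E.mass ξ
  rw [Measure.real, h, ENNReal.toReal_zero] at this
  exact norm_eq_zero.1 (sq_eq_zero_iff.1 this.symm)

theorem calc_Pr_mul {s t : Set X} (hs : MeasurableSet s) (ht : MeasurableSet t) :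
    E.Pr s * E.Pr t = E.Pr (s ∩ t) := by
  rw [Pr, Pr, Pr, ← E.mul _ _ (BM.indicator_one hs) (BM.indicator_one ht)]
  refine congrArg E.Φ (funext fun x => ?_)
  by_cases h1 : x ∈ s <;> by_cases h2 : x ∈ t <;> simp [h1, h2]

theorem Pr_proj {s : Set X} (hs : MeasurableSet s) : IsStarProjection (E.Pr s) := by
  refine ⟨?_, ?_⟩
  · rw [IsIdempotentElem, E.calc_Pr_mul hs hs, Set.inter_self]
  · rw [IsSelfAdjoint, Pr, ← E.map_star (BM.indicator_one hs)]
    refine congrArg E.Φ (funext fun x => ?_)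
    by_cases h1 : x ∈ s <;> simp [h1]

theorem Pr_mul {s t : Set X} (hs : MeasurableSet s) (ht : MeasurableSet t) :
    E.Pr s * E.Pr t = E.Pr (s ∩ t) :=
  E.calc_Pr_mul hs ht

theorem Pr_univ : E.Pr Set.univ = 1 := by
  rw [Pr, Set.indicator_univ, E.one]

theorem Pr_empty : E.Pr ∅ = 0 := by
  rw [Pr, Set.indicator_empty, E.map_zero]

theorem Pr_compl {s : Set X} (hs : MeasurableSet s) : E.Pr sᶜ = 1 - E.Pr s := by
  rw [Pr, Pr, ← E.one, ← E.map_sub (BM.const 1) (BM.indicator_one hs)]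
  refine congrArg E.Φ (funext fun x => ?_)
  by_cases h1 : x ∈ s <;> simp [h1]

theorem norm_Pr_sq {s : Set X} (hs : MeasurableSet s) (ξ : H) :
    ‖E.Pr s ξ‖ ^ 2 = (E.μ ξ).real s :=
  E.calc_Pr_sq hs ξ

theorem Pr_eq_zero_iff {s : Set X} (hs : MeasurableSet s) (ξ : H) :
    E.Pr s ξ = 0 ↔ E.μ ξ s = 0 := by
  haveI := E.fin
  rw [← norm_eq_zero, ← sq_eq_zero_iff, E.norm_Pr_sq hs, measureReal_eq_zero_iff]

theorem Pr_eq_self_iff {s : Set X} (hs : MeasurableSet s) (ξ : H) :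
    E.Pr s ξ = ξ ↔ E.μ ξ sᶜ = 0 := by
  rw [← E.Pr_eq_zero_iff hs.compl, E.Pr_compl hs, ContinuousLinearMap.sub_apply,
    ContinuousLinearMap.one_apply, sub_eq_zero, eq_comm]

theorem null_add {s : Set X} (hs : MeasurableSet s) {ξ η : H} (h₁ : E.μ ξ s = 0)
    (h₂ : E.μ η s = 0) : E.μ (ξ + η) s = 0 := by
  rw [← E.Pr_eq_zero_iff hs] at h₁ h₂ ⊢
  rw [_root_.map_add, h₁, h₂, add_zero]

theorem null_smul {s : Set X} (hs : MeasurableSet s) (c : ℂ) {ξ : H} (h : E.μ ξ s = 0) :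
    E.μ (c • ξ) s = 0 := by
  rw [← E.Pr_eq_zero_iff hs] at h ⊢
  rw [_root_.map_smul, h, smul_zero]

theorem null_sum {s : Set X} (hs : MeasurableSet s) {ι : Type*} (t : Finset ι) {ξ : ι → H}
    (h : ∀ i ∈ t, E.μ (ξ i) s = 0) : E.μ (∑ i ∈ t, ξ i) s = 0 := by
  rw [← E.Pr_eq_zero_iff hs, _root_.map_sum]
  exact Finset.sum_eq_zero fun i hi => (E.Pr_eq_zero_iff hs _).2 (h i hi)

theorem isClosed_null {s : Set X} (hs : MeasurableSet s) : IsClosed {ξ : H | E.μ ξ s = 0} := by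
  simp only [← E.Pr_eq_zero_iff hs]
  exact isClosed_eq (E.Pr s).continuous continuous_const

/-- dominated convergence -/
theorem tendsto {ι : Type} {l : Filter ι} [l.IsCountablyGenerated] {f : ι → X → ℂ} {f₀ : X → ℂ}
    (K : ℝ) (hf : ∀ᶠ i in l, Measurable (f i) ∧ ∀ x, ‖f i x‖ ≤ K) (hf₀ : BM f₀) {ξ : H}
    (h : ∀ᵐ x ∂(E.μ ξ), Tendsto (fun i => f i x) l (𝓝 (f₀ x))) :
    Tendsto (fun i => E.Φ (f i) ξ) l (𝓝 (E.Φ f₀ ξ)) := by
  haveI := E.fin
  obtain ⟨L, hL⟩ := hf₀.2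
  have h1 : Tendsto (fun i => ∫ x, ‖f i x - f₀ x‖ ^ 2 ∂(E.μ ξ)) l (𝓝 (∫ x, 0 ∂(E.μ ξ))) := by
    refine tendsto_integral_filter_of_dominated_convergence (fun _ => (K + L) ^ 2)
      (hf.mono fun i hi => ((hi.1.sub hf₀.1).norm.pow_const 2).aestronglyMeasurable)
      (hf.mono fun i hi => Eventually.of_forall fun x => ?_) (integrable_const _)
      (h.mono fun x hx => ?_)
    · rw [Real.norm_of_nonneg (sq_nonneg _)]
      exact pow_le_pow_left₀ (norm_nonneg _)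
        ((norm_sub_le _ _).trans (add_le_add (hi.2 x) (hL x))) 2
    · simpa using (tendsto_iff_norm_sub_tendsto_zero.1 hx).pow 2
  rw [integral_zero] at h1
  rw [tendsto_iff_norm_sub_tendsto_zero]
  have h2 := h1.sqrt
  rw [Real.sqrt_zero] at h2
  refine h2.congr' (hf.mono fun i hi => ?_)
  have hb : BM (f i) := ⟨hi.1, K, hi.2⟩
  simp only
  rw [← E.norm_sq (hb.sub hf₀), Real.sqrt_sq (norm_nonneg _), E.map_sub hb hf₀]
  rfl

theorem exists_map {Y : Type} [MeasurableSpace Y] {g : X → Y} (hg : Measurable g) :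
    ∃ E' : SpecCalc Y H, (∀ f, E'.Φ f = E.Φ fun x => f (g x)) ∧
      ∀ ξ, E'.μ ξ = (E.μ ξ).map g := by
  haveI := E.fin
  refine ⟨⟨fun f => E.Φ fun x => f (g x), fun ξ => (E.μ ξ).map g, fun ξ => inferInstance, E.one,
    fun f₁ f₂ h₁ h₂ => E.mul _ _ (h₁.comp hg) (h₂.comp hg), fun f hf ξ => ?_⟩,
    fun _ => rfl, fun _ => rfl⟩
  rw [E.inner _ (hf.comp hg), integral_map hg.aemeasurable hf.1.aestronglyMeasurable]

end SpecCalc

end

/-- a linear relation between integrals passes from continuous to Borel functions -/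
theorem lin_ext {X : Type} [MeasurableSpace X] [PseudoMetricSpace X] [BorelSpace X] {ι : Type}
    [Fintype ι] (μ : ι → Measure X) [∀ i, IsFiniteMeasure (μ i)] (g : ι → X → ℂ)
    (hg : ∀ i, BM (g i)) (h : ∀ f : X →ᵇ ℂ, ∑ i, ∫ x, f x * g i x ∂(μ i) = 0) :
    ∀ f, BM f → ∑ i, ∫ x, f x * g i x ∂(μ i) = 0 := by
  intro f hf
  choose K hK using fun i => (hg i).2
  have hK' : ∀ i x, ‖g i x‖ ≤ ∑ j, |K j| := fun i x =>
    ((hK i x).trans (le_abs_self _)).trans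
      (Finset.single_le_sum (f := fun j => |K j|) (fun j _ => abs_nonneg _) (Finset.mem_univ i))
  have hK0 : 0 ≤ ∑ j, |K j| := Finset.sum_nonneg fun j _ => abs_nonneg _
  obtain ⟨L, hL⟩ : ∃ L, L = ∑ j, |K j| := ⟨_, rfl⟩
  rw [← hL] at hK' hK0
  have hfin : IsFiniteMeasure (∑ i, μ i) := ⟨by
    rw [Measure.finsetSum_apply]
    exact ENNReal.sum_lt_top.2 fun i _ => measure_lt_top _ _⟩
  refine norm_le_zero_iff.1 (le_of_forall_pos_le_add fun ε hε => ?_)
  obtain ⟨φ, h1, -⟩ := (hf.integrable (∑ i, μ i)).exists_boundedContinuous_integral_sub_le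
    (ε := ε / (L + 1)) (by positivity)
  have hd : BM fun x => f x - φ x := hf.sub (bm_bcf φ)
  rw [integral_finsetSum_measure fun i _ => (hd.integrable (μ i)).norm] at h1
  have e : ∑ i, ∫ x, f x * g i x ∂(μ i) = ∑ i, ∫ x, (f x - φ x) * g i x ∂(μ i) := by
    rw [← sub_zero (∑ i, ∫ x, f x * g i x ∂(μ i)), ← h φ, ← Finset.sum_sub_distrib]
    refine Finset.sum_congr rfl fun i _ => ?_
    rw [← integral_sub ((hf.mul (hg i)).integrable _) (((bm_bcf φ).mul (hg i)).integrable _)]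
    simp only [sub_mul]
  have b : ∀ i, ‖∫ x, (f x - φ x) * g i x ∂(μ i)‖ ≤ L * ∫ x, ‖f x - φ x‖ ∂(μ i) := fun i => by
    rw [← integral_const_mul]
    refine norm_integral_le_of_norm_le ((hd.integrable (μ i)).norm.const_mul L)
      (Eventually.of_forall fun x => ?_)
    rw [norm_mul, mul_comm]
    exact mul_le_mul_of_nonneg_right (hK' i x) (norm_nonneg _)
  rw [e, zero_add]
  refine (norm_sum_le _ _).trans ((Finset.sum_le_sum fun i _ => b i).trans ?_)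
  rw [← Finset.mul_sum]
  refine (mul_le_mul_of_nonneg_left h1 hK0).trans ?_
  rw [← mul_div_assoc, div_le_iff₀ (by positivity)]
  nlinarith

theorem lin_real {ι : Type} [Fintype ι] (μ : ι → Measure ℝ) [∀ i, IsFiniteMeasure (μ i)]
    (r : ι → ℝ) (h : ∀ t : ℝ, ∑ i, (r i : ℂ) * ∫ l, Complex.exp (Complex.I * t * l) ∂(μ i) = 0) :
    ∀ f, BM f → ∑ i, (r i : ℂ) * ∫ l, f l ∂(μ i) = 0 := by
  have hfin : ∀ s : ι → ℝ, IsFiniteMeasure (∑ i, (s i).toNNReal • μ i) := fun s => ⟨by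
    rw [Measure.finsetSum_apply]
    exact ENNReal.sum_lt_top.2 fun i _ => measure_lt_top _ _⟩
  have key : ∀ f, BM f → ∑ i, (r i : ℂ) * ∫ l, f l ∂(μ i) =
      ∫ l, f l ∂(∑ i, (r i).toNNReal • μ i) - ∫ l, f l ∂(∑ i, (-r i).toNNReal • μ i) := by
    intro f hf
    rw [integral_finsetSum_measure fun i _ => hf.integrable _,
      integral_finsetSum_measure fun i _ => hf.integrable _, ← Finset.sum_sub_distrib]
    refine Finset.sum_congr rfl fun i _ => ?_
    rw [integral_smul_nnreal_measure, integral_smul_nnreal_measure, NNReal.smul_def,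
      NNReal.smul_def, ← sub_smul, Real.coe_toNNReal', Real.coe_toNNReal', max_zero_sub_max_neg_zero_eq_self,
      Complex.real_smul]
  have := hfin r
  have := hfin fun i => -r i
  have e : (∑ i, (r i).toNNReal • μ i) = ∑ i, (-r i).toNNReal • μ i := by
    refine Measure.ext_of_charFun (funext fun t => ?_)
    have h1 := (key _ (bm_exp t)).symm.trans (h t)
    rw [charFun_apply_real, charFun_apply_real]
    have e : ∀ l : ℝ, (t : ℂ) * l * Complex.I = Complex.I * t * l := fun l => by ring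
    simp only [e]
    exact sub_eq_zero.1 h1
  intro f hf
  rw [key f hf, e, sub_self]

theorem lin_ext_exp {ι : Type} [Fintype ι] (μ : ι → Measure ℝ) [∀ i, IsFiniteMeasure (μ i)]
    (c : ι → ℂ) (h : ∀ t : ℝ, ∑ i, c i * ∫ l, Complex.exp (Complex.I * t * l) ∂(μ i) = 0) :
    ∀ f, BM f → ∑ i, c i * ∫ l, f l ∂(μ i) = 0 := by
  intro f hf
  have hc : ∀ i (t : ℝ), conj (∫ l, Complex.exp (Complex.I * (-t : ℝ) * l) ∂(μ i))
      = ∫ l, Complex.exp (Complex.I * t * l) ∂(μ i) := fun i t => by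
    rw [← integral_conj]
    refine integral_congr_ae (Eventually.of_forall fun l => ?_)
    simp [← Complex.exp_conj]
  have h' : ∀ t : ℝ, ∑ i, conj (c i) * ∫ l, Complex.exp (Complex.I * t * l) ∂(μ i) = 0 := by
    intro t
    have := congrArg conj (h (-t))
    rw [map_sum, map_zero] at this
    simpa only [map_mul, hc] using this
  have h1 := lin_real μ (fun i => (c i).re) (fun t => by
    have : ∑ i, ((c i).re : ℂ) * ∫ l, Complex.exp (Complex.I * t * l) ∂(μ i)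
        = (∑ i, c i * ∫ l, Complex.exp (Complex.I * t * l) ∂(μ i)
          + ∑ i, conj (c i) * ∫ l, Complex.exp (Complex.I * t * l) ∂(μ i)) / 2 := by
      rw [← Finset.sum_add_distrib, Finset.sum_div]
      refine Finset.sum_congr rfl fun i _ => ?_
      rw [Complex.re_eq_add_conj]
      ring
    rw [this, h, h']
    simp) f hf
  have h2 := lin_real μ (fun i => (c i).im) (fun t => by
    have : ∑ i, ((c i).im : ℂ) * ∫ l, Complex.exp (Complex.I * t * l) ∂(μ i)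
        = (∑ i, c i * ∫ l, Complex.exp (Complex.I * t * l) ∂(μ i)
          - ∑ i, conj (c i) * ∫ l, Complex.exp (Complex.I * t * l) ∂(μ i)) / (2 * Complex.I) := by
      rw [← Finset.sum_sub_distrib, Finset.sum_div]
      refine Finset.sum_congr rfl fun i _ => ?_
      rw [Complex.im_eq_sub_conj]
      ring
    rw [this, h, h']
    simp) f hf
  have : ∑ i, c i * ∫ l, f l ∂(μ i) = ∑ i, ((c i).re : ℂ) * ∫ l, f l ∂(μ i)
      + Complex.I * ∑ i, ((c i).im : ℂ) * ∫ l, f l ∂(μ i) := by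
    rw [Finset.mul_sum, ← Finset.sum_add_distrib]
    refine Finset.sum_congr rfl fun i _ => ?_
    conv_lhs => rw [← Complex.re_add_im (c i)]
    ring
  rw [this, h1, h2]
  simp

theorem lin_ext_poly {ι : Type} [Fintype ι] (μ : ι → Measure ℝ) [∀ i, IsFiniteMeasure (μ i)]
    (K : ℝ) (hK : ∀ i, μ i (Set.Icc (-K) K)ᶜ = 0) (c : ι → ℂ)
    (h : ∀ n : ℕ, ∑ i, c i * ∫ l, (l : ℂ) ^ n ∂(μ i) = 0) :
    ∀ f, BM f → ∑ i, c i * ∫ l, f l ∂(μ i) = 0 := by
  refine lin_ext_exp μ c fun t => ?_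
  have hs : ∀ i, HasSum (fun n : ℕ => ∫ l : ℝ, (Complex.I * t * l) ^ n / (n.factorial : ℂ) ∂(μ i))
      (∫ l : ℝ, Complex.exp (Complex.I * t * l) ∂(μ i)) := fun i => by
    refine hasSum_integral_of_dominated_convergence
      (fun n _ => (|t| * |K|) ^ n / (n.factorial : ℝ)) (fun n => ?_) (fun n => ?_)
      (Eventually.of_forall fun l => Real.summable_pow_div_factorial _) (integrable_const _)
      (Eventually.of_forall fun l => ?_)
    · exact Continuous.aestronglyMeasurable (by fun_prop)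
    · have : ∀ᵐ l ∂(μ i), l ∈ Set.Icc (-K) K := hK i
      filter_upwards [this] with l hl
      have h1 : |l| ≤ |K| := (abs_le.2 hl).trans (le_abs_self K)
      simp only [norm_div, norm_pow, norm_mul, Complex.norm_I, Complex.norm_real, Real.norm_eq_abs,
        one_mul, Complex.norm_natCast]
      gcongr
    · rw [Complex.exp_eq_exp_ℂ]
      exact NormedSpace.expSeries_div_hasSum_exp _
  have h2 := hasSum_sum fun i (_ : i ∈ Finset.univ) => (hs i).mul_left (c i)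
  have h3 : ∀ n : ℕ, ∑ i, c i * ∫ l : ℝ, (Complex.I * t * l) ^ n / (n.factorial : ℂ) ∂(μ i)
      = 0 := fun n => by
    have : ∀ i, c i * ∫ l : ℝ, (Complex.I * t * l) ^ n / (n.factorial : ℂ) ∂(μ i)
        = (Complex.I * t) ^ n / (n.factorial : ℂ) * (c i * ∫ l : ℝ, (l : ℂ) ^ n ∂(μ i)) := by
      intro i
      rw [mul_left_comm, ← integral_const_mul ((Complex.I * t) ^ n / (n.factorial : ℂ))]
      congr 2
      funext l
      rw [mul_pow]
      ring
    rw [Finset.sum_congr rfl fun i _ => this i, ← Finset.mul_sum, h, mul_zero]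
  simp only [h3] at h2
  exact h2.unique hasSum_zero

/-- polarisation for an operator between the vectors `η` and `ξ` -/
theorem inner_polar (T : H →L[ℂ] H) (ξ η : H) :
    ⟪η, T ξ⟫_ℂ = ∑ k : Fin 4, (Complex.I ^ (k : ℕ) / 4) *
      ⟪ξ + Complex.I ^ (k : ℕ) • η, T (ξ + Complex.I ^ (k : ℕ) • η)⟫_ℂ := by
  have h2 : Complex.I ^ 2 = -1 := Complex.I_sq
  have h3 : Complex.I ^ 3 = -Complex.I := by rw [pow_succ, h2, neg_one_mul]
  have e0 : ((0 : Fin 4) : ℕ) = 0 := rfl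
  have e1 : ((1 : Fin 4) : ℕ) = 1 := rfl
  have e2 : ((2 : Fin 4) : ℕ) = 2 := rfl
  have e3 : ((3 : Fin 4) : ℕ) = 3 := rfl
  simp only [Fin.sum_univ_four, e0, e1, e2, e3, h2, h3, pow_zero, pow_one, map_add, map_smul,
    inner_add_left, inner_add_right, inner_smul_left, inner_smul_right, map_one, map_neg,
    Complex.conj_I]
  linear_combination (⟪η, T ξ⟫_ℂ / 2 - ⟪ξ, T η⟫_ℂ / 2) * h2

variable {H' : Type*} [NormedAddCommGroup H'] [InnerProductSpace ℂ H'] [CompleteSpace H']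

theorem lin_rel {X : Type} [MeasurableSpace X] (E : SpecCalc X H) (E' : SpecCalc X H')
    (S : H →L[ℂ] H') (ξ : H) (η : H') :
    ∃ (c : Fin 4 ⊕ Fin 4 → ℂ) (μ : Fin 4 ⊕ Fin 4 → Measure X), (∀ i, IsFiniteMeasure (μ i)) ∧
      (∀ i, (∃ v, μ i = E.μ v) ∨ ∃ v, μ i = E'.μ v) ∧ ∀ f, BM f →
        ∑ i, c i * ∫ x, f x ∂(μ i) = ⟪η, S (E.Φ f ξ)⟫_ℂ - ⟪η, E'.Φ f (S ξ)⟫_ℂ := by
  refine ⟨Sum.elim (fun k => Complex.I ^ (k : ℕ) / 4) fun k => -(Complex.I ^ (k : ℕ) / 4),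
    Sum.elim (fun k => E.μ (ξ + Complex.I ^ (k : ℕ) • ContinuousLinearMap.adjoint S η))
      fun k => E'.μ (S ξ + Complex.I ^ (k : ℕ) • η), ?_, ?_, fun f hf => ?_⟩
  · rintro (k | k)
    exacts [E.fin _, E'.fin _]
  · rintro (k | k)
    exacts [Or.inl ⟨_, rfl⟩, Or.inr ⟨_, rfl⟩]
  · rw [← ContinuousLinearMap.adjoint_inner_left S, inner_polar (E.Φ f), inner_polar (E'.Φ f),
      Fintype.sum_sum_type, sub_eq_add_neg, ← Finset.sum_neg_distrib]
    simp only [Sum.elim_inl, Sum.elim_inr, E.inner f hf, E'.inner f hf, neg_mul]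

theorem intertwine_cont {X : Type} [MeasurableSpace X] [PseudoMetricSpace X] [BorelSpace X]
    (E : SpecCalc X H) (E' : SpecCalc X H') (S : H →L[ℂ] H')
    (h : ∀ (f : X →ᵇ ℂ) (ξ : H), S (E.Φ (fun x => f x) ξ) = E'.Φ (fun x => f x) (S ξ)) :
    ∀ f, BM f → ∀ ξ, S (E.Φ f ξ) = E'.Φ f (S ξ) := by
  intro f hf ξ
  refine ext_inner_left ℂ fun η => ?_
  obtain ⟨c, μ, hfin, -, hr⟩ := lin_rel E E' S ξ η
  have h1 := lin_ext μ (fun i _ => c i) (fun i => BM.const _) (fun φ => by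
    simp only [mul_comm _ (c _), integral_const_mul]
    rw [hr _ (bm_bcf φ), h, sub_self]) f hf
  simp only [mul_comm _ (c _), integral_const_mul] at h1
  exact sub_eq_zero.1 ((hr f hf).symm.trans h1)

namespace CalcExAux

open scoped CompactlySupported

variable {X : Type} [MetricSpace X] [CompactSpace X] [MeasurableSpace X] [BorelSpace X]

/-- complexification of a real continuous function -/
def cx (u : C(X, ℝ)) : C(X, ℂ) := ⟨fun x => (u x : ℂ), by fun_prop⟩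

theorem cx_apply (u : C(X, ℝ)) (x : X) : cx u x = (u x : ℂ) := rfl

theorem im_cx (π : C(X, ℂ) →⋆ₐ[ℂ] (H →L[ℂ] H)) (u : C(X, ℝ)) (ξ : H) :
    (((⟪ξ, π (cx u) ξ⟫_ℂ).re : ℝ) : ℂ) = ⟪ξ, π (cx u) ξ⟫_ℂ := by
  have h : star (cx u) = cx u := by
    ext x
    simp [cx_apply]
  have h1 : ContinuousLinearMap.adjoint (π (cx u)) = π (cx u) := by
    rw [← ContinuousLinearMap.star_eq_adjoint, ← map_star, h]
  rw [← Complex.conj_eq_iff_re, inner_conj_symm, ← ContinuousLinearMap.adjoint_inner_right, h1]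

theorem exists_meas (π : C(X, ℂ) →⋆ₐ[ℂ] (H →L[ℂ] H)) (ξ : H) :
    ∃ μ : Measure X, IsFiniteMeasure μ ∧ ∀ f : C(X, ℂ), ∫ x, f x ∂μ = ⟪ξ, π f ξ⟫_ℂ := by
  let L : C_c(X, ℝ) →ₗ[ℝ] ℝ :=
    { toFun := fun u => (⟪ξ, π (cx u.toContinuousMap) ξ⟫_ℂ).re
      map_add' := fun u v => by
        have e : cx (u + v).toContinuousMap = cx u.toContinuousMap + cx v.toContinuousMap := by
          ext x
          simp [cx_apply]
        rw [e, map_add, add_apply, inner_add_right, Complex.add_re]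
      map_smul' := fun c u => by
        have e : cx (c • u).toContinuousMap = (c : ℂ) • cx u.toContinuousMap := by
          ext x
          simp [cx_apply]
        rw [e, map_smul, smul_apply, inner_smul_right]
        simp }
  have hL : ∀ u, 0 ≤ u → 0 ≤ L u := fun u hu => by
    let v : C(X, ℝ) := ⟨fun x => √(u x), by fun_prop⟩
    have e : cx u.toContinuousMap = star (cx v) * cx v := by
      ext x
      have h0 : 0 ≤ u x := hu x
      simp only [cx_apply, ContinuousMap.mul_apply, ContinuousMap.star_apply, Complex.star_def,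
        Complex.conj_ofReal, ← Complex.ofReal_mul]
      exact congrArg _ (Real.mul_self_sqrt h0).symm
    change 0 ≤ (⟪ξ, π (cx u.toContinuousMap) ξ⟫_ℂ).re
    rw [e, map_mul, map_star, ContinuousLinearMap.star_eq_adjoint]
    change 0 ≤ (⟪ξ, ContinuousLinearMap.adjoint (π (cx v)) (π (cx v) ξ)⟫_ℂ).re
    rw [ContinuousLinearMap.adjoint_inner_right]
    exact inner_self_nonneg (𝕜 := ℂ)
  refine ⟨RealRMK.rieszMeasure (PositiveLinearMap.mk₀ L hL), inferInstance, fun f => ?_⟩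
  have key : ∀ u : C(X, ℝ), ∫ x, cx u x ∂(RealRMK.rieszMeasure (PositiveLinearMap.mk₀ L hL)) =
      ⟪ξ, π (cx u) ξ⟫_ℂ := fun u => by
    have e := RealRMK.integral_rieszMeasure (PositiveLinearMap.mk₀ L hL)
      ⟨u, HasCompactSupport.of_compactSpace u⟩
    rw [← im_cx]
    simp only [cx_apply]
    rw [integral_complex_ofReal]
    exact congrArg _ e
  let u : C(X, ℝ) := ⟨fun x => (f x).re, by fun_prop⟩
  let v : C(X, ℝ) := ⟨fun x => (f x).im, by fun_prop⟩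
  have e : f = cx u + Complex.I • cx v := by
    ext x
    simp only [cx_apply, ContinuousMap.add_apply, ContinuousMap.smul_apply, smul_eq_mul]
    rw [mul_comm]
    exact (Complex.re_add_im _).symm
  have hi : ∀ g : C(X, ℂ), Integrable g (RealRMK.rieszMeasure (PositiveLinearMap.mk₀ L hL)) :=
    fun g => (bm_bcf (BoundedContinuousFunction.mkOfCompact g)).integrable _
  rw [e, map_add, map_smul, add_apply, smul_apply,
    inner_add_right, inner_smul_right, ← key, ← key, ← integral_const_mul,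
    ← integral_add (hi _) ((hi _).const_mul _)]
  rfl

/-- the polarised form -/
def Bf (μ : H → Measure X) (f : X → ℂ) (η ξ : H) : ℂ :=
  ∑ k : Fin 4, (Complex.I ^ (k : ℕ) / 4) * ∫ x, f x ∂(μ (ξ + Complex.I ^ (k : ℕ) • η))

theorem ext3 (μ : H → Measure X) (hμ : ∀ ξ, IsFiniteMeasure (μ ξ)) (g : Fin 3 → X → ℂ)
    (hg : ∀ i, BM (g i)) (c : Fin 3 → ℂ) (η ξ : Fin 3 → H)
    (h : ∀ f : C(X, ℂ), ∑ i, c i * Bf μ (fun x => f x * g i x) (η i) (ξ i) = 0) :
    ∀ f, BM f → ∑ i, c i * Bf μ (fun x => f x * g i x) (η i) (ξ i) = 0 := by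
  have key : ∀ f : X → ℂ, ∑ i, c i * Bf μ (fun x => f x * g i x) (η i) (ξ i) =
      ∑ p : Fin 3 × Fin 4, ∫ x, f x * (c p.1 * (Complex.I ^ (p.2 : ℕ) / 4) * g p.1 x)
        ∂(μ (ξ p.1 + Complex.I ^ (p.2 : ℕ) • η p.1)) := fun f => by
    rw [Fintype.sum_prod_type]
    refine Finset.sum_congr rfl fun i _ => ?_
    rw [Bf, Finset.mul_sum]
    refine Finset.sum_congr rfl fun k _ => ?_
    rw [← mul_assoc, ← integral_const_mul]
    exact integral_congr_ae (Eventually.of_forall fun x => mul_left_comm _ _ _)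
  intro f hf
  rw [key]
  refine lin_ext (fun p : Fin 3 × Fin 4 => μ (ξ p.1 + Complex.I ^ (p.2 : ℕ) • η p.1)) _
    (fun p => (BM.const _).mul (hg p.1)) (fun f => ?_) f hf
  rw [← key]
  exact h f.toContinuousMap

variable {π : C(X, ℂ) →⋆ₐ[ℂ] (H →L[ℂ] H)} {μ : H → Measure X}

theorem Bf_cont (hπ : ∀ ξ, ∀ f : C(X, ℂ), ∫ x, f x ∂μ ξ = ⟪ξ, π f ξ⟫_ℂ) (f : C(X, ℂ)) (η ξ : H) :
    Bf μ f η ξ = ⟪η, π f ξ⟫_ℂ := by
  rw [inner_polar, Bf]
  simp only [hπ]

theorem Bf_lin (hμ : ∀ ξ, IsFiniteMeasure (μ ξ))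
    (hπ : ∀ ξ, ∀ f : C(X, ℂ), ∫ x, f x ∂μ ξ = ⟪ξ, π f ξ⟫_ℂ) (a b : ℂ) (η₀ η₁ η₂ ξ₀ ξ₁ ξ₂ : H)
    (h : ∀ T : H →L[ℂ] H, ⟪η₀, T ξ₀⟫_ℂ = a * ⟪η₁, T ξ₁⟫_ℂ + b * ⟪η₂, T ξ₂⟫_ℂ) {f : X → ℂ}
    (hf : BM f) : Bf μ f η₀ ξ₀ = a * Bf μ f η₁ ξ₁ + b * Bf μ f η₂ ξ₂ := by
  have e := ext3 μ hμ (fun _ _ => 1) (fun _ => BM.const 1) ![-1, a, b] ![η₀, η₁, η₂]
    ![ξ₀, ξ₁, ξ₂] (fun f => by
      simp only [mul_one, Fin.sum_univ_three, Bf_cont hπ]
      simp [h]) f hf
  simp only [mul_one, Fin.sum_univ_three] at e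
  simp only [Matrix.cons_val_zero, Matrix.cons_val_one, Matrix.cons_val] at e
  linear_combination -e

theorem Bf_diag (hμ : ∀ ξ, IsFiniteMeasure (μ ξ))
    (hπ : ∀ ξ, ∀ f : C(X, ℂ), ∫ x, f x ∂μ ξ = ⟪ξ, π f ξ⟫_ℂ) (ξ : H) {f : X → ℂ} (hf : BM f) :
    Bf μ f ξ ξ = ∫ x, f x ∂μ ξ := by
  have key : ∀ f : X → ℂ, Bf μ f ξ ξ - ∫ x, f x ∂μ ξ =
      ∑ p : Option (Fin 4), ∫ x, f x * (p.elim (-1) fun k => Complex.I ^ (k : ℕ) / 4)
        ∂(μ (p.elim ξ fun k => ξ + Complex.I ^ (k : ℕ) • ξ)) := fun f => by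
    rw [Fintype.sum_option, Bf]
    simp only [Option.elim, integral_mul_const]
    rw [add_comm, mul_neg_one, sub_eq_add_neg]
    congr 1
    exact Finset.sum_congr rfl fun k _ => mul_comm _ _
  rw [← sub_eq_zero, key]
  refine lin_ext (fun p : Option (Fin 4) => μ (p.elim ξ fun k => ξ + Complex.I ^ (k : ℕ) • ξ)) _
    (fun p => BM.const _) (fun f => ?_) f hf
  rw [← key, sub_eq_zero]
  exact (Bf_cont hπ f.toContinuousMap ξ ξ).trans (hπ ξ f.toContinuousMap).symm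

theorem Bf_le (hμ : ∀ ξ, IsFiniteMeasure (μ ξ))
    (hπ : ∀ ξ, ∀ f : C(X, ℂ), ∫ x, f x ∂μ ξ = ⟪ξ, π f ξ⟫_ℂ) {f : X → ℂ} {K : ℝ} (hK0 : 0 ≤ K)
    (hK : ∀ x, ‖f x‖ ≤ K) {η ξ : H} (h1 : ‖η‖ ≤ 1) (h2 : ‖ξ‖ ≤ 1) : ‖Bf μ f η ξ‖ ≤ 4 * K := by
  have hm : ∀ v, (μ v).real Set.univ = ‖v‖ ^ 2 := fun v => by
    have e := hπ v 1
    simp only [ContinuousMap.one_apply, integral_const, map_one, ContinuousLinearMap.one_apply,
      inner_self_eq_norm_sq_to_K, Complex.real_smul, mul_one] at e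
    exact Complex.ofReal_injective (e.trans (Complex.ofReal_pow _ _).symm)
  refine (norm_sum_le _ _).trans ?_
  have h : ∀ k : Fin 4, ‖(Complex.I ^ (k : ℕ) / 4) *
      ∫ x, f x ∂(μ (ξ + Complex.I ^ (k : ℕ) • η))‖ ≤ K := fun k => by
    have := hμ (ξ + Complex.I ^ (k : ℕ) • η)
    have e1 := norm_integral_le_of_norm_le_const (μ := μ (ξ + Complex.I ^ (k : ℕ) • η))
      (Eventually.of_forall hK)
    have e2 : ‖ξ + Complex.I ^ (k : ℕ) • η‖ ≤ 2 := by
      refine (norm_add_le _ _).trans ?_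
      rw [norm_smul, norm_pow, Complex.norm_I, one_pow, one_mul]
      linarith
    have e3 : ‖ξ + Complex.I ^ (k : ℕ) • η‖ ^ 2 ≤ 2 ^ 2 := pow_le_pow_left₀ (norm_nonneg _) e2 2
    rw [hm] at e1
    have e4 : ‖Complex.I ^ (k : ℕ) / 4‖ = 1 / 4 := by simp
    rw [norm_mul, e4]
    nlinarith
  refine (Finset.sum_le_sum fun k _ => h k).trans ?_
  simp

theorem exists_op (hμ : ∀ ξ, IsFiniteMeasure (μ ξ))
    (hπ : ∀ ξ, ∀ f : C(X, ℂ), ∫ x, f x ∂μ ξ = ⟪ξ, π f ξ⟫_ℂ) {f : X → ℂ} (hf : BM f) :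
    ∃ T : H →L[ℂ] H, ∀ η ξ, ⟪η, T ξ⟫_ℂ = Bf μ f η ξ := by
  obtain ⟨K, hK⟩ := hf.2
  have hK' : ∀ x, ‖f x‖ ≤ max K 0 := fun x => (hK x).trans (le_max_left _ _)
  have hs : ∀ (a b : ℂ) (η ξ : H), Bf μ f (a • η) (b • ξ) = conj a * b * Bf μ f η ξ :=
    fun a b η ξ => by
      rw [Bf_lin hμ hπ (conj a * b) 0 _ η η _ ξ ξ (fun T => by
        rw [map_smul, inner_smul_left, inner_smul_right]; ring) hf]
      ring
  let B : H →ₗ⋆[ℂ] H →ₗ[ℂ] ℂ := LinearMap.mk₂'ₛₗ (starRingEnd ℂ) (RingHom.id ℂ) (Bf μ f)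
    (fun η η' ξ => by
      rw [Bf_lin hμ hπ 1 1 _ η η' _ ξ ξ (fun T => by rw [inner_add_left]; ring) hf]; ring)
    (fun c η ξ => by simpa using hs c 1 η ξ)
    (fun η ξ ξ' => by
      rw [Bf_lin hμ hπ 1 1 _ η η _ ξ ξ' (fun T => by rw [map_add, inner_add_right]; ring) hf]
      ring)
    (fun c η ξ => by simpa using hs 1 c η ξ)
  have hu : ∀ v : H, ∃ w : H, ‖w‖ ≤ 1 ∧ v = ((‖v‖ : ℝ) : ℂ) • w := fun v => by
    by_cases h : v = 0
    · exact ⟨0, by simp, by simp [h]⟩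
    · have h' : ((‖v‖ : ℝ) : ℂ) ≠ 0 := by simpa using h
      refine ⟨((‖v‖ : ℝ) : ℂ)⁻¹ • v, ?_, by rw [smul_smul, mul_inv_cancel₀ h', one_smul]⟩
      rw [norm_smul, norm_inv, Complex.norm_real, norm_norm, inv_mul_cancel₀ (by simpa using h)]
  have hB : ∀ η ξ, ‖B η ξ‖ ≤ 4 * max K 0 * ‖η‖ * ‖ξ‖ := fun η ξ => by
    obtain ⟨η', h1, e1⟩ := hu η
    obtain ⟨ξ', h2, e2⟩ := hu ξ
    have e3 := hs ((‖η‖ : ℝ) : ℂ) ((‖ξ‖ : ℝ) : ℂ) η' ξ'
    rw [← e1, ← e2] at e3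
    change ‖Bf μ f η ξ‖ ≤ _
    rw [e3, norm_mul, norm_mul, Complex.norm_conj, Complex.norm_real, Complex.norm_real,
      norm_norm, norm_norm]
    have e4 := mul_le_mul_of_nonneg_left (Bf_le hμ hπ (le_max_right K 0) hK' h1 h2)
      (mul_nonneg (norm_nonneg η) (norm_nonneg ξ))
    linarith
  refine ⟨ContinuousLinearMap.adjoint
    (InnerProductSpace.continuousLinearMapOfBilin (B.mkContinuous₂ _ hB)), fun η ξ => ?_⟩
  rw [ContinuousLinearMap.adjoint_inner_right, InnerProductSpace.continuousLinearMapOfBilin_apply]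
  rfl

theorem exists_calc (π : C(X, ℂ) →⋆ₐ[ℂ] (H →L[ℂ] H)) :
    ∃ E : SpecCalc X H, ∀ f : C(X, ℂ), E.Φ f = π f := by
  classical
  choose μ hμ hπ using exists_meas π
  have h : ∀ f : X → ℂ, ∃ T : H →L[ℂ] H, BM f → ∀ η ξ, ⟪η, T ξ⟫_ℂ = Bf μ f η ξ := fun f => by
    by_cases hf : BM f
    · obtain ⟨T, hT⟩ := exists_op hμ hπ hf
      exact ⟨T, fun _ => hT⟩
    · exact ⟨0, fun h => absurd h hf⟩
  choose Φ hΦ using h
  have hc : ∀ f : C(X, ℂ), BM f := fun f => bm_bcf (BoundedContinuousFunction.mkOfCompact f)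
  have hext : ∀ S T : H →L[ℂ] H, (∀ η ξ, ⟪η, S ξ⟫_ℂ = ⟪η, T ξ⟫_ℂ) → S = T := fun S T h =>
    ContinuousLinearMap.ext fun ξ => ext_inner_left ℂ fun η => h η ξ
  have h0 : ∀ f : C(X, ℂ), Φ f = π f := fun f => hext _ _ fun η ξ => by
    rw [hΦ f (hc f), Bf_cont hπ]
  have two : ∀ (g : X → ℂ) (η η' ξ ξ' : H), BM g →
      (∀ f : C(X, ℂ), Bf μ (fun x => f x * g x) η ξ = Bf μ f η' ξ') →
      ∀ f, BM f → Bf μ (fun x => f x * g x) η ξ = Bf μ f η' ξ' := fun g η η' ξ ξ' hg h f hf => by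
    have e := ext3 μ hμ ![g, fun _ => 1, fun _ => 1] (fun i => by
      fin_cases i
      exacts [hg, BM.const 1, BM.const 1]) ![1, -1, 0] ![η, η', η'] ![ξ, ξ', ξ'] (fun f => by
        simp [Fin.sum_univ_three, h f]) f hf
    simpa [Fin.sum_univ_three, sub_eq_zero, ← sub_eq_add_neg] using e
  have h1 : ∀ f, BM f → ∀ g : C(X, ℂ), Φ (fun x => f x * g x) = Φ f * π g := fun f hf g =>
    hext _ _ fun η ξ => by
      rw [hΦ _ (hf.mul (hc g)), two g η η ξ (π g ξ) (hc g) (fun f => ?_) f hf, ← hΦ f hf]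
      · rfl
      · rw [Bf_cont hπ]
        exact (Bf_cont hπ (f * g) η ξ).trans (by rw [map_mul]; rfl)
  refine ⟨⟨Φ, μ, hμ, (h0 1).trans (map_one π), fun f g hf hg => hext _ _ fun η ξ => ?_,
    fun f hf ξ => by rw [hΦ f hf, Bf_diag hμ hπ ξ hf]⟩, h0⟩
  have e : ∀ g : X → ℂ, (fun x => f x * g x) = fun x => g x * f x := fun g =>
    funext fun x => mul_comm _ _
  rw [hΦ _ (hf.mul hg), e, two f η (ContinuousLinearMap.adjoint (Φ f) η) ξ ξ hf (fun g => ?_) g hg,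
    ← hΦ g hg, ContinuousLinearMap.adjoint_inner_left]
  · rfl
  · rw [← e, ← hΦ _ (hf.mul (hc g)), h1 f hf g, Bf_cont hπ, ContinuousLinearMap.adjoint_inner_left]
    rfl

end CalcExAux

end Pool.Agent.P.MP_d8da86_an
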